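import Pool.Agent.CF98.Rk0

/-!
The circuit of a set `G` with `|G| = r G + 1`: `C = {b ∈ G | r (G - b) = r G}`.

* `coloop_add`: if every `k ∈ K` has `r (G.erase k) ≠ r G` (`K ⊆ G`), then `r (S ∪ K) = r S + |K|` for all `S ⊆ G \ K`: add the elements
  of `K` one by one; for `k ∈ G`, `S' ⊆ G.erase k`: `r (insert k S') = r S'` would imply `r G = r (G.erase k)`
  (`RankFn.mono_insert`).
* `circ_dep`: for `b ∈ C`: `r (C.erase b) = r C`: with `K = G \ C`, `r C + |K| = r G = r (G.erase b) = r (C.erase b) + |K|`.
* `circ_of_dep`: a subset `X ⊆ C` which is not independent is `C`: if `c ∈ C \ X` then `X ⊆ G.erase c`, and `G.erase c` has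
  `r G` elements and rank `r G`: its subsets are independent (`ind_sub`).
* `circ_eq`: if `G`, `G'` have `|G| = r G + 1`, `|G'| = r G' + 1` and the circuit `C` of `G` is contained in `G'` then `C` is also the
  circuit of `G'`: `C` is dependent, so every element of the circuit of `G'` lies in `C` (`circ_of_dep` idea: if `c ∈ C' \ C` then
  `C ⊆ G'.erase c` is independent); conversely if `c ∈ C` then `c` is in the closure of `C.erase c`, so `r (G'.erase c) = r G'`
  (`RankFn.mono_insert`).
-/

set_option autoImplicit false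

namespace Pool.Agent.CF98

open Finset Pool.Agent.DT3

variable {α : Type*} [DecidableEq α] {r : Finset α → ℕ} {G G' S K X : Finset α} {b : α}

theorem coloop_add (h : RankFn r) (hK : K ⊆ G) (hc : ∀ k ∈ K, r (G.erase k) ≠ r G)
    (hS : S ⊆ G \ K) : r (S ∪ K) = r S + K.card := by
  have key : ∀ K' : Finset α, K' ⊆ K → r (S ∪ K') = r S + K'.card := by
    intro K'
    induction K' using Finset.induction_on with
    | empty => intro _; simp
    | insert k K' hk ih =>
      intro hsub
      have hkK : k ∈ K := hsub (mem_insert_self k K')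
      have ih' := ih fun x hx => hsub (mem_insert_of_mem hx)
      rw [union_insert, card_insert_of_notMem hk]
      have hle : S ∪ K' ⊆ G.erase k := by
        intro x hx
        rcases mem_union.1 hx with hx | hx
        · have h1 := mem_sdiff.1 (hS hx)
          exact mem_erase.2 ⟨fun e => h1.2 (e ▸ hkK), h1.1⟩
        · exact mem_erase.2 ⟨fun e => hk (e ▸ hx), hK (hsub (mem_insert_of_mem hx))⟩
      have hne : r (insert k (S ∪ K')) ≠ r (S ∪ K') := by
        intro he
        have h2 := h.mono_insert he hle
        rw [insert_erase (hK hkK)] at h2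
        exact hc k hkK h2.symm
      rw [rk_ins_ne h hne, ih']
      omega
  exact key K (Subset.refl K)

private lemma circ_K (h : RankFn r) (T : Finset α)
    (hT : T ⊆ G.filter fun c => r (G.erase c) = r G) :
    r (T ∪ (G \ G.filter fun c => r (G.erase c) = r G))
      = r T + (G \ G.filter fun c => r (G.erase c) = r G).card := by
  refine coloop_add (G := G) h sdiff_subset ?_ ?_
  · intro k hk he
    have h1 := mem_sdiff.1 hk
    exact h1.2 (mem_filter.2 ⟨h1.1, he⟩)
  · intro x hx
    have h1 := hT hx
    exact mem_sdiff.2 ⟨(mem_filter.1 h1).1, fun h2 => (mem_sdiff.1 h2).2 h1⟩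

theorem circ_dep (h : RankFn r) (hb : b ∈ G) (hbr : r (G.erase b) = r G) :
    r ((G.filter fun c => r (G.erase c) = r G).erase b) = r (G.filter fun c => r (G.erase c) = r G) := by
  have hbC : b ∈ G.filter fun c => r (G.erase c) = r G := mem_filter.2 ⟨hb, hbr⟩
  have h1 := circ_K (G := G) h _ (Subset.refl _)
  have h2 := circ_K (G := G) h _ (erase_subset b (G.filter fun c => r (G.erase c) = r G))
  rw [union_sdiff_of_subset (filter_subset _ _)] at h1
  have h3 : (G.filter fun c => r (G.erase c) = r G).erase b
      ∪ (G \ G.filter fun c => r (G.erase c) = r G) = G.erase b := by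
    ext x
    rw [mem_union, mem_erase, mem_sdiff, mem_erase]
    constructor
    · rintro (⟨hx1, hx2⟩ | ⟨hx1, hx2⟩)
      · exact ⟨hx1, (mem_filter.1 hx2).1⟩
      · exact ⟨fun e => hx2 (e ▸ hbC), hx1⟩
    · rintro ⟨hx1, hx2⟩
      by_cases hx : x ∈ G.filter fun c => r (G.erase c) = r G
      · exact Or.inl ⟨hx1, hx⟩
      · exact Or.inr ⟨hx2, hx⟩
  rw [h3, hbr] at h2
  omega

theorem circ_of_dep (h : RankFn r) (hG : G.card = r G + 1)
    (hX : X ⊆ G.filter fun c => r (G.erase c) = r G) (hd : r X ≠ X.card) :
    X = G.filter fun c => r (G.erase c) = r G := by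
  refine Subset.antisymm hX ?_
  intro c hc
  by_contra hcX
  have h1 := mem_filter.1 hc
  have h2 : r (G.erase c) = (G.erase c).card := by
    rw [h1.2, card_erase_of_mem h1.1]; omega
  refine hd (ind_sub h h2 ?_)
  intro x hx
  exact mem_erase.2 ⟨fun e => hcX (e ▸ hx), (mem_filter.1 (hX hx)).1⟩

theorem circ_card (h : RankFn r) (hG : G.card = r G + 1) :
    (G.filter fun c => r (G.erase c) = r G).card = r (G.filter fun c => r (G.erase c) = r G) + 1 := by
  have h1 := circ_K (G := G) h _ (Subset.refl _)
  rw [union_sdiff_of_subset (filter_subset _ _)] at h1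
  have h2 := card_sdiff_add_card_eq_card (filter_subset (fun c => r (G.erase c) = r G) G)
  omega

theorem circ_eq (h : RankFn r) (hG : G.card = r G + 1) (hG' : G'.card = r G' + 1)
    (hs : (G.filter fun c => r (G.erase c) = r G) ⊆ G') :
    (G'.filter fun c => r (G'.erase c) = r G') = G.filter fun c => r (G.erase c) = r G := by
  have h0 := circ_card h hG
  refine (circ_of_dep h hG' ?_ (by omega)).symm
  intro c hc
  refine mem_filter.2 ⟨hs hc, ?_⟩
  have h1 := mem_filter.1 hc
  have h2 := circ_dep h h1.1 h1.2
  have h3 : r (insert c ((G.filter fun c => r (G.erase c) = r G).erase c))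
      = r ((G.filter fun c => r (G.erase c) = r G).erase c) := by
    rw [insert_erase hc]; exact h2.symm
  have h4 := h.mono_insert h3 (erase_subset_erase c hs)
  rw [insert_erase (hs hc)] at h4
  exact h4.symm

end Pool.Agent.CF98
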