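import Pool.Agent.CF98.LiftA

/-!
A critical sunflower of the lifted rank function gives one of `M`.

`E = {(e, n) | n < w e}` as a finset (hypothesis `hE`), `M` finite.  Let `Sun (rr M) E`: `T`, `Z i`.  For `S ⊆ E` let `c S` be the closure in `M` of
`S.image fst`, as a finset (`M.ground_finite`).  If `S` is a flat of `E` (`IsFlat (rr M) E S`) then `∑ e ∈ c S, w e = |S|`: `(e, n) ∈ E` with `e ∈ c S` has
`rr M (insert (e, n) S) = rr M S`, so `(e, n) ∈ S`; hence `S = E.filter (fst · ∈ c S)`, and the fibre of `E` over `e` has `w e` elements.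
`M.eRk (c S) = rr M S` (`Matroid.eRk_closure_eq`; `rkFn M Y` is the rank of `Y`: `(M.eRk Y).toNat`, finite).
`T` is a flat of `E`: it is the intersection of two flats `Z 0 ∩ Z 1` (`flat_inter`).  `T' = c T`, `F i = c (Z i)`.  `T ⊆ Z i`, so `T' ⊆ F i`.
If `e ∈ F i ∩ F j`, `w e > 0` then `(e, 0) ∈ E` lies in `Z i ∩ Z j = T`, so `e ∈ T'` (elements of `E` project to `M.E`: `w e > 0 → e ∈ M.E`, hypothesis `hw`).
-/

set_option autoImplicit false

namespace Pool.Agent.CF98

open Finset Pool.Agent.DT3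

variable {α : Type*} [DecidableEq α] {M : Matroid α} {f : ℕ}

omit [DecidableEq α] in
private theorem liftC_coe (M : Matroid α) (Y : Finset α) :
    ((rkFn M Y : ℕ) : ℕ∞) = M.eRk (Y : Set α) := by
  unfold rkFn
  apply ENat.natCast_toNat
  have h1 := M.eRk_le_encard (Y : Set α)
  have h2 : (Y : Set α).encard ≠ ⊤ := by
    rw [Set.encard_ne_top_iff]
    exact Y.finite_toSet
  exact ne_top_of_le_ne_top h2 h1

/-- The closure as a finset. -/
private noncomputable def liftC_c (M : Matroid α) [M.Finite] (S : Finset (α × ℕ)) : Finset α :=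
  (M.ground_finite.subset
    (M.closure_subset_ground ((S.image Prod.fst : Finset α) : Set α))).toFinset

private theorem liftC_c_coe [M.Finite] (S : Finset (α × ℕ)) :
    ((liftC_c M S : Finset α) : Set α) = M.closure ((S.image Prod.fst : Finset α) : Set α) := by
  unfold liftC_c
  rw [Set.Finite.coe_toFinset]

private theorem liftC_mem [M.Finite] (S : Finset (α × ℕ)) (e : α) :
    e ∈ liftC_c M S ↔ e ∈ M.closure ((S.image Prod.fst : Finset α) : Set α) := by
  rw [← liftC_c_coe, mem_coe]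

private theorem liftC_rk [M.Finite] (S : Finset (α × ℕ)) :
    M.eRk ((liftC_c M S : Finset α) : Set α) = ((rr M S : ℕ) : ℕ∞) := by
  rw [liftC_c_coe, M.eRk_closure_eq, ← liftC_coe]
  rfl

private theorem liftC_filter [M.Finite] (w : α → ℕ) (hw : ∀ e, 0 < w e → e ∈ M.E)
    (E : Finset (α × ℕ)) (hE : ∀ e n, (e, n) ∈ E ↔ n < w e) {S : Finset (α × ℕ)}
    (hS : IsFlat (rr M) E S) (x : α × ℕ) : x ∈ S ↔ x ∈ E ∧ x.1 ∈ liftC_c M S := by
  constructor
  · intro hx
    refine ⟨hS.1 hx, ?_⟩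
    rw [liftC_mem]
    refine M.mem_closure_of_mem' ?_ ?_
    · rw [mem_coe]
      exact mem_image_of_mem _ hx
    · have h1 := (hE x.1 x.2).1 (hS.1 hx)
      exact hw _ (lt_of_le_of_lt (Nat.zero_le _) h1)
  · rintro ⟨hxE, hx⟩
    by_contra hxS
    have h1 := hS.2 x (mem_sdiff.2 ⟨hxE, hxS⟩)
    rw [liftC_mem] at hx
    have h2 : ((rr M (insert x S) : ℕ) : ℕ∞) = ((rr M S : ℕ) : ℕ∞) := by
      change ((rkFn M ((insert x S).image Prod.fst) : ℕ) : ℕ∞) =
        ((rkFn M (S.image Prod.fst) : ℕ) : ℕ∞)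
      rw [liftC_coe, liftC_coe, image_insert, coe_insert, ← M.eRk_closure_eq,
        Matroid.closure_insert_eq_of_mem_closure hx, M.eRk_closure_eq]
    have h3 : rr M (insert x S) = rr M S := by exact_mod_cast h2
    omega

private theorem liftC_card [M.Finite] (w : α → ℕ) (hw : ∀ e, 0 < w e → e ∈ M.E)
    (E : Finset (α × ℕ)) (hE : ∀ e n, (e, n) ∈ E ↔ n < w e) {S : Finset (α × ℕ)}
    (hS : IsFlat (rr M) E S) : ∑ e ∈ liftC_c M S, w e = S.card := by
  have hmaps : ∀ x ∈ S, x.1 ∈ liftC_c M S := fun x hx =>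
    ((liftC_filter w hw E hE hS x).1 hx).2
  rw [card_eq_sum_card_fiberwise hmaps]
  refine sum_congr rfl fun e he => ?_
  have h1 : (S.filter fun x => x.1 = e) = (range (w e)).image fun n => (e, n) := by
    ext ⟨a, n⟩
    simp only [mem_filter, mem_image, mem_range, Prod.mk.injEq]
    constructor
    · rintro ⟨hx, rfl⟩
      exact ⟨n, (hE a n).1 (hS.1 hx), rfl, rfl⟩
    · rintro ⟨m, hm, rfl, rfl⟩
      exact ⟨(liftC_filter w hw E hE hS (e, m)).2 ⟨(hE e m).2 hm, he⟩, rfl⟩
  rw [h1, card_image_of_injective _ (fun a b hab => (Prod.mk.inj hab).2), card_range]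

theorem liftC [M.Finite] (w : α → ℕ) (hw : ∀ e, 0 < w e → e ∈ M.E) (E : Finset (α × ℕ))
    (hE : ∀ e n, (e, n) ∈ E ↔ n < w e) (hs : Sun (rr M) E) : CritSun M w := by
  obtain ⟨T, Z, hTE, hTc, hZ, hZT⟩ := hs
  have hr := rr_rank M
  have hTZ : ∀ i, T ⊆ Z i := by
    intro i
    obtain ⟨j, hj⟩ : ∃ j : Fin 3, i ≠ j := by
      fin_cases i
      · exact ⟨1, by decide⟩
      · exact ⟨0, by decide⟩
      · exact ⟨0, by decide⟩
    rw [← hZT i j hj]
    exact inter_subset_left
  have hTf : IsFlat (rr M) E T := by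
    refine ⟨hTE, fun e he => ?_⟩
    obtain ⟨heE, heT⟩ := mem_sdiff.1 he
    have h1 := hr.mono T (insert e T) (subset_insert e T)
    rcases Nat.lt_or_ge (rr M T) (rr M (insert e T)) with h2 | h2
    · exact h2
    · exfalso
      have h3 : rr M (insert e T) = rr M T := le_antisymm h2 h1
      apply heT
      have h4 : ∀ i, e ∈ Z i := by
        intro i
        by_contra hei
        have h5 := (hZ i).1.2 e (mem_sdiff.2 ⟨heE, hei⟩)
        have h6 := hr.mono_insert h3 (hTZ i)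
        omega
      rw [← hZT 0 1 (by decide)]
      exact mem_inter.2 ⟨h4 0, h4 1⟩
  refine ⟨liftC_c M T, fun i => liftC_c M (Z i), ?_, ?_, ?_, ?_⟩
  · rw [liftC_c_coe]
    exact M.isFlat_closure _
  · rw [liftC_card w hw E hE hTf, liftC_rk, hTc]
    push_cast
    rfl
  · intro i
    refine ⟨?_, ?_, ?_⟩
    · rw [liftC_c_coe]
      exact M.isFlat_closure _
    · intro e he
      rw [liftC_mem] at he ⊢
      refine M.closure_subset_closure ?_ he
      exact coe_subset.2 (image_subset_image (hTZ i))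
    · rw [liftC_card w hw E hE (hZ i).1, liftC_rk, (hZ i).2]
      push_cast
      rfl
  · intro i j hij e he hpos
    obtain ⟨h1, h2⟩ := mem_inter.1 he
    have h3 : (e, 0) ∈ E := (hE e 0).2 hpos
    have h4 : (e, 0) ∈ Z i := (liftC_filter w hw E hE (hZ i).1 (e, 0)).2 ⟨h3, h1⟩
    have h5 : (e, 0) ∈ Z j := (liftC_filter w hw E hE (hZ j).1 (e, 0)).2 ⟨h3, h2⟩
    have h6 : (e, 0) ∈ T := by
      rw [← hZT i j hij]
      exact mem_inter.2 ⟨h4, h5⟩
    exact ((liftC_filter w hw E hE hTf (e, 0)).1 h6).2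

end Pool.Agent.CF98
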