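import Pool.Agent.CF98.LiftB
import Pool.Agent.CF98.LiftC

/-!
Connectivity of the fibre of triples of bases.

`conn`: `M` finite, `B`, `D` triples of bases with the same content, no critical sunflower for the content.  `M.eRank = f` for some `f : ℕ`.  `WD.exists_lift` for `B`
and for `D` gives `P`, `P'` (`bs_iff`) with the same union `E = {(e, n) | n < cont B e}`; `liftB`, `liftC` (`hw`: bases are contained in `M.E`).
`conn_dual`: the same for the dual matroid: apply `conn` to `M✶` and the complements of the members of `B`, `D` in the ground set, then take complements again as in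
`WD.shareConn_of_dual` (its proof can be copied; `sameContent_compl` is private there).  The content of the complements is `3 - cont B e` for `e` in the ground
set and `0` elsewhere; flats are contained in the ground set, so `CritSun M✶` for the two weight functions agree (`critSun_congr`).
-/

set_option autoImplicit false

namespace Pool.Agent.CF98

open Finset Pool.Agent.DT3 Pool.Agent.WD

variable {α : Type*} [DecidableEq α]

theorem critSun_congr {M : Matroid α} {w w' : α → ℕ} (h : ∀ e ∈ M.E, w e = w' e)
    (hs : CritSun M w) : CritSun M w' := by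
  obtain ⟨T, F, hT, hTw, hF, hFF⟩ := hs
  have hsum : ∀ S : Finset α, M.IsFlat (S : Set α) → ∑ e ∈ S, w e = ∑ e ∈ S, w' e := by
    intro S hS
    refine Finset.sum_congr rfl ?_
    intro e he
    exact h e (hS.subset_ground (Finset.mem_coe.2 he))
  refine ⟨T, F, hT, ?_, ?_, ?_⟩
  · rw [← hsum T hT]
    exact hTw
  · intro i
    obtain ⟨h1, h2, h3⟩ := hF i
    refine ⟨h1, h2, ?_⟩
    rw [← hsum (F i) h1]
    exact h3
  · intro i j hij e he hw
    have h1 : e ∈ M.E := (hF i).1.subset_ground (Finset.mem_coe.2 (Finset.mem_inter.1 he).1)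
    rw [← h e h1] at hw
    exact hFF i j hij e he hw

theorem conn (M : Matroid α) [M.Finite] (B D : Fin 3 → Finset α)
    (hB : ∀ k, M.IsBase (B k : Set α)) (hD : ∀ k, M.IsBase (D k : Set α)) (hBD : SameContent B D)
    (hs : ¬ CritSun M (cont B)) :
    Relation.ReflTransGen (ShareStep (fun S : Finset α => M.IsBase (S : Set α))) B D := by
  have hf : M.eRank = (((B 0).card : ℕ) : ℕ∞) := by
    rw [← (hB 0).encard_eq_eRank, Set.encard_coe_eq_coe_finsetCard]
  obtain ⟨P, p1, p2, p3, p4⟩ := exists_lift B
  obtain ⟨P', q1, q2, q3, q4⟩ := exists_lift D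
  have hP : ∀ k, Bs (rr M) (B 0).card (P k) := by
    intro k
    rw [bs_iff hf, p1 k]
    exact ⟨hB k, p2 k⟩
  have hP' : ∀ k, Bs (rr M) (B 0).card (P' k) := by
    intro k
    rw [bs_iff hf, q1 k]
    exact ⟨hD k, q2 k⟩
  have hmem : ∀ e n, (e, n) ∈ univ.biUnion P ↔ n < cont B e := by
    intro e n
    rw [mem_biUnion]
    simp only [mem_univ, true_and]
    exact p4 e n
  have hu : univ.biUnion P = univ.biUnion P' := by
    ext ⟨e, n⟩
    rw [hmem e n, mem_biUnion]
    simp only [mem_univ, true_and]
    rw [q4 e n, ← hBD e]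
    rfl
  have hns : ¬ Sun (rr M) (univ.biUnion P) := by
    intro hsun
    refine hs (liftC (cont B) ?_ (univ.biUnion P) hmem hsun)
    intro e he
    obtain ⟨k, hk⟩ := card_pos.1 he
    exact (hB k).subset_ground (Finset.mem_coe.2 (mem_filter.1 hk).2)
  have h1 := liftB hf P P' hP hP' p3 q3 hu hns
  have h2 : (fun k => (P k).image Prod.fst) = B := funext p1
  have h3 : (fun k => (P' k).image Prod.fst) = D := funext q1
  rw [h2, h3] at h1
  exact h1

private theorem conn_cont_compl (E : Finset α) {m : ℕ} (C : Fin m → Finset α) (z : α)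
    (hz : z ∈ E) : cont (fun k => E \ C k) z = m - cont C z := by
  change (univ.filter (fun k => z ∈ E \ C k)).card = m - (univ.filter (fun k => z ∈ C k)).card
  have h1 : (univ.filter (fun k => z ∈ E \ C k)) = (univ.filter (fun k => z ∈ C k))ᶜ := by
    ext k
    simp [hz]
  rw [h1, card_compl, Fintype.card_fin]

private theorem conn_sameContent_compl (E : Finset α) {m : ℕ} {B D : Fin m → Finset α}
    (h : SameContent B D) : SameContent (fun k => E \ B k) (fun k => E \ D k) := by
  intro z
  by_cases hz : z ∈ E
  · change cont (fun k => E \ B k) z = cont (fun k => E \ D k) z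
    rw [conn_cont_compl E B z hz, conn_cont_compl E D z hz]
    have h1 : cont B z = cont D z := h z
    rw [h1]
  · change (univ.filter (fun k => z ∈ E \ B k)).card = (univ.filter (fun k => z ∈ E \ D k)).card
    have h0 : ∀ C : Fin m → Finset α, (univ.filter (fun k => z ∈ E \ C k)).card = 0 := by
      intro C
      rw [card_eq_zero, filter_eq_empty_iff]
      intro k _ hk
      exact hz (mem_sdiff.mp hk).1
    rw [h0, h0]

theorem conn_dual (M : Matroid α) [M.Finite] (B D : Fin 3 → Finset α)
    (hB : ∀ k, M.IsBase (B k : Set α)) (hD : ∀ k, M.IsBase (D k : Set α)) (hBD : SameContent B D)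
    (hs : ¬ CritSun M✶ (fun e => 3 - cont B e)) :
    Relation.ReflTransGen (ShareStep (fun S : Finset α => M.IsBase (S : Set α))) B D := by
  classical
  let E : Finset α := M.ground_finite.toFinset
  have hE : (E : Set α) = M.E := M.ground_finite.coe_toFinset
  have hsub : ∀ S : Finset α, M.IsBase (S : Set α) → S ⊆ E := by
    intro S hS
    rw [← Finset.coe_subset, hE]
    exact hS.subset_ground
  have hdual : ∀ S : Finset α, M.IsBase (S : Set α) → M✶.IsBase ((E \ S : Finset α) : Set α) := by
    intro S hS
    rw [Finset.coe_sdiff, hE]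
    exact hS.compl_isBase_dual
  have hdual' : ∀ S : Finset α, M✶.IsBase (S : Set α) → M.IsBase ((E \ S : Finset α) : Set α) := by
    intro S hS
    rw [Finset.coe_sdiff, hE]
    exact hS.compl_isBase_of_dual
  have hcc : ∀ C : Fin 3 → Finset α, (∀ k, M.IsBase (C k : Set α)) →
      (fun k => E \ (E \ C k)) = C := by
    intro C hC
    funext k
    rw [sdiff_sdiff_right_self]
    exact inter_eq_right.mpr (hsub _ (hC k))
  have hs' : ¬ CritSun M✶ (cont (fun k => E \ B k)) := by
    intro h0
    refine hs (critSun_congr ?_ h0)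
    intro e he
    have he' : e ∈ E := by
      rw [← Finset.mem_coe, hE]
      exact he
    exact conn_cont_compl E B e he'
  have h1 := conn M✶ (fun k => E \ B k) (fun k => E \ D k) (fun k => hdual _ (hB k))
    (fun k => hdual _ (hD k)) (conn_sameContent_compl E hBD) hs'
  have h2 : Relation.ReflTransGen (ShareStep (fun B : Finset α => M.IsBase (B : Set α)))
      ((fun (C : Fin 3 → Finset α) k => E \ C k) (fun k => E \ B k))
      ((fun (C : Fin 3 → Finset α) k => E \ C k) (fun k => E \ D k)) := by
    refine Relation.ReflTransGen.lift (fun (C : Fin 3 → Finset α) k => E \ C k) ?_ _ _ h1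
    rintro P Q ⟨hP, hQ, hPQ, i, j, hij⟩
    refine ⟨fun k => hdual' _ (hP k), fun k => hdual' _ (hQ k),
      conn_sameContent_compl E hPQ, i, j, ?_⟩
    change E \ P i = E \ Q j
    rw [hij]
  have h3 := hcc B hB
  have h4 := hcc D hD
  change Relation.ReflTransGen _ (fun k => E \ (E \ B k)) (fun k => E \ (E \ D k)) at h2
  rw [h3, h4] at h2
  exact h2

end Pool.Agent.CF98
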