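import Pool.Agent.CF98.CtC

/-!
The counting theorem: a family as in `Fam` forces three pairwise disjoint critical sets.

Proof.  `G₀ ∈ 𝒢`, `H = HH r E U K G₀`, `𝒵 = ZZ r E U H G₀` (pairwise disjoint, `zz_disj`), `W = 𝒵.biUnion id`; `H ⊆ W` (`h_cover`).  For `Z ∈ 𝒵`:
`|Z \ G₀| + 1 = 2 r Z`, `Z ⊆ E` non-empty, `Z ≠ E`: otherwise the element `q` of `Fam.out` lies in `Z \ G₀ ⊆ H`, so in some `K G ⊆ G`, `G` in the orbit,
`G ∈ 𝒢` (`orb_sub`), a contradiction.  So `|Z| + 1 ≤ 3 r Z` by `hs`, and `|Z ∩ G₀| = |Z| - |Z \ G₀| ≤ r Z`, and if `Z` is not critical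
(`|Z| + 1 ≠ 3 r Z`) then `|Z ∩ G₀| + 1 ≤ r Z`.
Let `n = |𝒵|`, `n'` the number of the non-critical members, `ρ = r (U ∪ H) - r U`.
(1) `ρ + 1 ≤ |H ∩ G₀| ≤ ∑ |Z ∩ G₀| ≤ ∑ r Z - n'` (`hg_rank`, `hg_card`).
(2) `S = 𝒵.biUnion (· \ G₀) ⊆ E \ G₀`, `|S| = ∑ (2 r Z - 1)`, `S` is non-empty (`𝒵` is non-empty since `H ⊇ K G₀` is), disjoint from `U` (`DD`: elements of `U`
are in the closure of `U`), `S ⊆ H`; `zz_rank`: `|S| + |U| + 1 ≤ 2 r (S ∪ U) ≤ 2 r (U ∪ H)`, `|U| = 2 r U`: `∑ (2 r Z - 1) + 1 ≤ 2 ρ`.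
So `2 ∑ r Z - n + 1 ≤ 2 ρ ≤ 2 (∑ r Z - n' - 1)`: `n ≥ 2 n' + 3`, and there are `n - n' ≥ 3` critical members.
-/

set_option autoImplicit false

namespace Pool.Agent.CF98

open Finset Pool.Agent.DT3

variable {α : Type*} [DecidableEq α] {r : Finset α → ℕ} {E U : Finset α} {f : ℕ}
  {𝒢 : Set (Finset α)} {K : Finset α → Finset α}

private lemma ct_facts (hE : Env r E f) (hs : Strict r E) (hF : Fam r E f U 𝒢 K) {G₀ : Finset α}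
    (hG₀ : G₀ ∈ 𝒢) {Z : Finset α} (hZ : Z ∈ ZZ r E U (HH r E U K G₀) G₀) :
    Z ⊆ E ∧ (Z \ G₀).card + 1 = 2 * r Z ∧ (∀ x ∈ Z, x ∉ U) ∧ Z \ G₀ ⊆ HH r E U K G₀ ∧
      (Z ∩ G₀).card + (if (Z.card + 1 = 3 * r Z) then 0 else 1) ≤ r Z := by
  obtain ⟨hZE, hc, hcl, hH⟩ := (zz_mem.1 hZ).1
  have hne : Z.Nonempty := by
    rw [Finset.nonempty_iff_ne_empty]
    rintro rfl
    rw [hE.rk.empty] at hc
    omega
  have hnE : Z ≠ E := by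
    rintro rfl
    obtain ⟨q, hq, hqG⟩ := hF.out
    have h1 : q ∈ HH r Z U K G₀ := hH (mem_sdiff.2 ⟨hq, hqG G₀ hG₀⟩)
    simp only [HH, mem_filter] at h1
    obtain ⟨_, G, hG, hqK⟩ := h1
    have hG' : G ∈ 𝒢 := orb_sub hE hF hG₀ hG
    exact hqG G hG' (hF.sub G hG' hqK)
  have h1 := hs Z hZE hne hnE
  have h2 : (Z \ G₀).card + (Z ∩ G₀).card = Z.card := card_sdiff_add_card_inter Z G₀
  refine ⟨hZE, hc, fun x hx hxU => hcl x hx (by rw [insert_eq_of_mem hxU]), hH, ?_⟩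
  split_ifs with hcr <;> omega

theorem ct (hE : Env r E f) (hs : Strict r E) (hF : Fam r E f U 𝒢 K) (hne : 𝒢.Nonempty) :
    Crit3 r E := by
  obtain ⟨G₀, hG₀⟩ := hne
  have gg := hF.gg G₀ hG₀
  have hfac := fun Z (hZ : Z ∈ ZZ r E U (HH r E U K G₀) G₀) => ct_facts hE hs hF hG₀ hZ
  have hcov := h_cover hE hF hG₀
  have hrk := hg_rank hE hF hG₀
  have hcd := hg_card hE hF hG₀
  have hdj : ∀ Z ∈ ZZ r E U (HH r E U K G₀) G₀, ∀ Z' ∈ ZZ r E U (HH r E U K G₀) G₀, Z ≠ Z' →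
      Disjoint Z Z' := fun Z hZ Z' hZ' h => zz_disj hE.rk gg hZ hZ' h
  have hKH : ∃ b, b ∈ HH r E U K G₀ := by
    obtain ⟨b, hb⟩ := hF.ne G₀ hG₀
    exact ⟨b, k_sub_h hE hF hG₀ Relation.ReflTransGen.refl hb⟩
  generalize HH r E U K G₀ = H at *
  generalize ZZ r E U H G₀ = 𝒵 at *
  -- (1)
  have h1 : (H ∩ G₀).card ≤ ∑ Z ∈ 𝒵, (Z ∩ G₀).card := by
    refine le_trans (card_le_card ?_) card_biUnion_le
    intro x hx
    rw [mem_inter] at hx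
    obtain ⟨Z, hZ, hxZ⟩ := hcov x hx.1
    exact mem_biUnion.2 ⟨Z, hZ, mem_inter.2 ⟨hxZ, hx.2⟩⟩
  have h2 : ∑ Z ∈ 𝒵, (Z ∩ G₀).card + (𝒵.filter fun Z => ¬ (Z.card + 1 = 3 * r Z)).card ≤
      ∑ Z ∈ 𝒵, r Z := by
    rw [card_filter, ← sum_add_distrib]
    refine sum_le_sum fun Z hZ => ?_
    have := (hfac Z hZ).2.2.2.2
    split_ifs at this ⊢ <;> omega
  -- (2)
  have hS1 : 𝒵.biUnion (fun Z => Z \ G₀) ⊆ E \ G₀ := by
    intro x hx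
    rw [mem_biUnion] at hx
    obtain ⟨Z, hZ, hx⟩ := hx
    rw [mem_sdiff] at hx ⊢
    exact ⟨(hfac Z hZ).1 hx.1, hx.2⟩
  have hS2 : (𝒵.biUnion (fun Z => Z \ G₀)).Nonempty := by
    obtain ⟨b, hb⟩ := hKH
    obtain ⟨Z, hZ, _⟩ := hcov b hb
    have h := (hfac Z hZ).2.1
    have h' : (Z \ G₀).Nonempty := by
      rw [← card_pos]
      omega
    obtain ⟨x, hx⟩ := h'
    exact ⟨x, mem_biUnion.2 ⟨Z, hZ, hx⟩⟩
  have hS3 : Disjoint (𝒵.biUnion (fun Z => Z \ G₀)) U := by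
    rw [Finset.disjoint_left]
    intro x hx
    rw [mem_biUnion] at hx
    obtain ⟨Z, hZ, hx⟩ := hx
    exact (hfac Z hZ).2.2.1 x (mem_sdiff.1 hx).1
  have hS4 : 𝒵.biUnion (fun Z => Z \ G₀) ⊆ H := by
    intro x hx
    rw [mem_biUnion] at hx
    obtain ⟨Z, hZ, hx⟩ := hx
    exact (hfac Z hZ).2.2.2.1 hx
  have hS5 := zz_rank hE.rk gg hS1 hS2 hS3
  have hS6 : (𝒵.biUnion (fun Z => Z \ G₀)).card = ∑ Z ∈ 𝒵, (Z \ G₀).card := by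
    refine card_biUnion fun Z hZ Z' hZ' h => ?_
    exact (hdj Z hZ Z' hZ' h).mono sdiff_subset sdiff_subset
  have hS7 : ∑ Z ∈ 𝒵, (Z \ G₀).card + 𝒵.card = 2 * ∑ Z ∈ 𝒵, r Z := by
    rw [card_eq_sum_ones, ← sum_add_distrib, mul_sum]
    exact sum_congr rfl fun Z hZ => (hfac Z hZ).2.1
  have hS8 : r (𝒵.biUnion (fun Z => Z \ G₀) ∪ U) ≤ r (U ∪ H) := by
    refine hE.rk.mono _ _ ?_
    rw [union_comm]
    exact union_subset_union (Subset.refl U) hS4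
  have hU := gg.cardU
  have hn := card_filter_add_card_filter_not (s := 𝒵) (fun Z => Z.card + 1 = 3 * r Z)
  have h3 : 2 < (𝒵.filter fun Z => Z.card + 1 = 3 * r Z).card := by omega
  obtain ⟨A, hA, B, hB, C, hC, hAB, hAC, hBC⟩ := two_lt_card.1 h3
  rw [mem_filter] at hA hB hC
  refine ⟨![A, B, C], ?_, ?_⟩
  · intro i
    fin_cases i
    · exact ⟨(hfac A hA.1).1, hA.2⟩
    · exact ⟨(hfac B hB.1).1, hB.2⟩
    · exact ⟨(hfac C hC.1).1, hC.2⟩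
  · intro i j hij
    fin_cases i <;> fin_cases j <;> first
      | exact absurd rfl hij
      | exact hdj A hA.1 B hB.1 hAB
      | exact hdj A hA.1 C hC.1 hAC
      | exact hdj B hB.1 C hC.1 hBC
      | exact hdj B hB.1 A hA.1 hAB.symm
      | exact hdj C hC.1 A hA.1 hAC.symm
      | exact hdj C hC.1 B hB.1 hBC.symm

end Pool.Agent.CF98
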