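import Pool.Agent.CF98.Tight

/-!
The family `DD r E U H G` (`X ⊆ E`, `|X \ G| + 1 = 2 r X`, no element of `X` in the closure of `U`, `X \ G ⊆ H`) for `GG r E f U G`.

* `dd_inter_card`: if `I ⊆ E` is not empty and no element of `I` is in the closure of `U` then `|I \ G| + 1 ≤ 2 r I`: `T = I \ G ⊆ E \ G`,
  `|T| ≤ 2 r T ≤ 2 r I`; equality would mean that `T` is tight, `r T = r I`, so `T ⊆ U` and `x ∈ I` is in the closure of `T` (`r (insert x T) ≤ r I = r T`),
  so of `U`.
* `dd_union`: `X`, `X'` in `DD` with `X ∩ X'` non-empty: `X ∪ X'` is in `DD`.  `|(X ∪ X') \ G| = |X \ G| + |X' \ G| - |(X ∩ X') \ G|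
  ≥ 2 r X - 1 + 2 r X' - 1 - (2 r (X ∩ X') - 1) ≥ 2 r (X ∪ X') - 1` (submodularity), and `|(X ∪ X') \ G| + 1 ≤ 2 r (X ∪ X')` by `dd_inter_card`.
* `zz_cover`: every `X` in `DD` is contained in a member of `ZZ` (take a member of `DD` of maximal cardinality containing `X`).
* `zz_disj`: two different members of `ZZ` are disjoint (`dd_union`).
* `zz_rank`: if `S` is a non-empty subset of `E \ G`, disjoint from `U`, then `|S| + |U| + 1 ≤ 2 r (S ∪ U)` (`S ∪ U` is not tight).
-/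

set_option autoImplicit false

namespace Pool.Agent.CF98

open Finset Pool.Agent.DT3

variable {α : Type*} [DecidableEq α] {r : Finset α → ℕ} {E U G H X X' S : Finset α} {f : ℕ}

theorem dd_inter_card (h : RankFn r) (hG : GG r E f U G) (hX : X ⊆ E) (hne : X.Nonempty)
    (hU : ∀ x ∈ X, r (insert x U) ≠ r U) : (X \ G).card + 1 ≤ 2 * r X := by
  by_contra hc
  have hT : X \ G ⊆ E \ G := sdiff_subset_sdiff hX (Subset.refl G)
  have h1 := hG.two _ hT
  have h2 := h.mono (X \ G) X sdiff_subset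
  have h3 : X \ G ⊆ U := hG.max _ hT (by omega)
  obtain ⟨x, hx⟩ := hne
  have h4 := h.mono (insert x (X \ G)) X (insert_subset hx sdiff_subset)
  have h5 := h.mono (X \ G) (insert x (X \ G)) (subset_insert _ _)
  exact hU x hx (h.mono_insert (X := X \ G) (by omega) h3)

theorem dd_union (h : RankFn r) (hG : GG r E f U G) (hX : DD r E U H G X) (hX' : DD r E U H G X')
    (hne : (X ∩ X').Nonempty) : DD r E U H G (X ∪ X') := by
  obtain ⟨hE, hc, hu, hH⟩ := hX
  obtain ⟨hE', hc', hu', hH'⟩ := hX'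
  have hu2 : ∀ x ∈ X ∪ X', r (insert x U) ≠ r U := by
    intro x hx
    rcases mem_union.1 hx with hx | hx
    · exact hu x hx
    · exact hu' x hx
  have hE2 : X ∪ X' ⊆ E := union_subset hE hE'
  have h1 : (X ∪ X') \ G = (X \ G) ∪ (X' \ G) := union_sdiff_distrib X X' G
  have h2 : (X ∩ X') \ G = (X \ G) ∩ (X' \ G) := by
    ext x
    simp only [mem_sdiff, mem_inter]
    tauto
  have h3 := card_union_add_card_inter (X \ G) (X' \ G)
  rw [← h1, ← h2] at h3
  have h4 := h.submod X X'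
  have h5 := dd_inter_card h hG (inter_subset_left.trans hE) hne
    (fun x hx => hu x (mem_inter.1 hx).1)
  have h6 := dd_inter_card h hG hE2 (hne.mono (inter_subset_left.trans subset_union_left)) hu2
  refine ⟨hE2, by omega, hu2, ?_⟩
  rw [h1]
  exact union_subset hH hH'

theorem zz_mem : X ∈ ZZ r E U H G ↔
    DD r E U H G X ∧ ∀ X', DD r E U H G X' → X ⊆ X' → X' = X := by
  simp only [ZZ, mem_filter, mem_powerset]
  exact ⟨fun h => h.2, fun h => ⟨h.1.1, h⟩⟩

theorem zz_cover (hX : DD r E U H G X) : ∃ Z ∈ ZZ r E U H G, X ⊆ Z := by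
  classical
  obtain ⟨Z, hZ, hmax⟩ := exists_max_image
    (E.powerset.filter fun X' => DD r E U H G X' ∧ X ⊆ X') card
    ⟨X, mem_filter.2 ⟨mem_powerset.2 hX.1, hX, Subset.refl X⟩⟩
  rw [mem_filter] at hZ
  refine ⟨Z, zz_mem.2 ⟨hZ.2.1, fun X' hX' hZX' => ?_⟩, hZ.2.2⟩
  have h1 := hmax X' (mem_filter.2 ⟨mem_powerset.2 hX'.1, hX', hZ.2.2.trans hZX'⟩)
  exact (eq_of_subset_of_card_le hZX' h1).symm

theorem zz_disj (h : RankFn r) (hG : GG r E f U G) (hX : X ∈ ZZ r E U H G)
    (hX' : X' ∈ ZZ r E U H G) (hne : X ≠ X') : Disjoint X X' := by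
  by_contra hd
  rw [not_disjoint_iff_nonempty_inter] at hd
  rw [zz_mem] at hX hX'
  have h1 := dd_union h hG hX.1 hX'.1 hd
  have h2 := hX.2 _ h1 subset_union_left
  have h3 := hX'.2 _ h1 subset_union_right
  exact hne (h2.symm.trans h3)

theorem zz_rank (h : RankFn r) (hG : GG r E f U G) (hS : S ⊆ E \ G) (hne : S.Nonempty)
    (hd : Disjoint S U) : S.card + U.card + 1 ≤ 2 * r (S ∪ U) := by
  have h1 : S ∪ U ⊆ E \ G := union_subset hS hG.subU
  have h2 := hG.two _ h1
  have h3 := card_union_of_disjoint hd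
  by_contra hc
  have h4 := hG.max _ h1 (by omega)
  obtain ⟨x, hx⟩ := hne
  exact disjoint_left.1 hd hx (h4 (mem_union_left _ hx))

end Pool.Agent.CF98
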