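import Pool.Agent.CF98.Tight
import Pool.Agent.DT3.AppT

/-!
Good bases.

* `two_parts`: `|D| = 2 f`, `Two r D`, `r X ≤ f` for `X ⊆ D`: `D` is the disjoint union of two bases (`DT3.parts_any`, `m = 2`).
* `gd_parts`: for a good basis `A` the set `E \ A` is the disjoint union of two bases (`two_parts`, `r X ≤ r E = f`).
* `gd_of_parts`: conversely; `Two` for a union of two independent sets: `|X| = |X ∩ C| + |X ∩ D| ≤ 2 r X` (`ind_sub`).
* `stp_symm`, `stp_left`, `stp_right`: `Stp` is symmetric and relates good bases.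
* `gd_stp`: two blocks `A`, `C` of one partition into three bases satisfy `Stp` (the third block is common).
* `gd_of_GG`: `GG r E f U G`, `b ∈ G`, `G - b` a basis, `b` outside the closure of `U`: `G - b` is good (`two_insert`;
  `E \ G.erase b = insert b (E \ G)`).
* `gg_of_gd`: for a good basis `A` and `y ∈ E \ A`: `G = insert y A` satisfies `GG` with some `U` (`ti_max`), `r G = f` (between
  `r A` and `r E`).
-/

set_option autoImplicit false

namespace Pool.Agent.CF98

open Finset Pool.Agent.DT3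

variable {α : Type*} [DecidableEq α] {r : Finset α → ℕ} {E A A' C D U G : Finset α} {f : ℕ}
  {b y : α}

theorem two_parts (h : RankFn r) (hD : D.card = 2 * f) (h2 : Two r D) (hr : ∀ X ⊆ D, r X ≤ f) :
    ∃ B ⊆ D, Bs r f B ∧ Bs r f (D \ B) := by
  obtain ⟨B, h1, hB, hdis, hcov⟩ := parts_any h (k := f) (m := 2) D hD h2 hr
  have e : D \ B 0 = B 1 := by
    ext x
    simp only [mem_sdiff]
    constructor
    · rintro ⟨hx, hx0⟩
      obtain ⟨i, hi⟩ := hcov x hx
      fin_cases i
      · exact absurd hi hx0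
      · exact hi
    · intro hx
      refine ⟨h1 1 hx, fun hx0 => ?_⟩
      exact (Finset.disjoint_left.1 (hdis 0 1 (by decide))) hx0 hx
  exact ⟨B 0, h1 0, hB 0, by rw [e]; exact hB 1⟩

theorem gd_parts (hE : Env r E f) (hA : Gd r E f A) :
    ∃ C ⊆ E, Disjoint A C ∧ Bs r f C ∧ Bs r f (E \ (A ∪ C)) := by
  obtain ⟨hAE, hB, h2⟩ := hA
  have hc : (E \ A).card = 2 * f := by
    rw [card_sdiff_of_subset hAE, hE.card, hB.1]
    omega
  obtain ⟨C, hC, h3, h4⟩ := two_parts hE.rk hc h2 (fun X hX => by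
    have := hE.rk.mono X E (hX.trans sdiff_subset)
    rwa [hE.rank] at this)
  refine ⟨C, hC.trans sdiff_subset, ?_, h3, ?_⟩
  · exact disjoint_of_subset_right hC disjoint_sdiff
  · have e : E \ (A ∪ C) = (E \ A) \ C := by
      ext x
      simp only [mem_sdiff, mem_union]
      tauto
    rw [e]
    exact h4

theorem gd_of_parts (hE : Env r E f) (hA : A ⊆ E) (hB : Bs r f A) (hC : C ⊆ E)
    (hd : Disjoint A C) (hC' : Bs r f C) (hD : Bs r f (E \ (A ∪ C))) : Gd r E f A := by
  refine ⟨hA, hB, fun X hX => ?_⟩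
  have h1 : r (X ∩ C) = (X ∩ C).card :=
    ind_sub hE.rk (hC'.2.trans hC'.1.symm) inter_subset_right
  have h2 : r (X \ C) = (X \ C).card := by
    refine ind_sub hE.rk (hD.2.trans hD.1.symm) ?_
    intro x hx
    have hx1 := mem_sdiff.1 hx
    have hx2 := mem_sdiff.1 (hX hx1.1)
    rw [mem_sdiff, mem_union]
    exact ⟨hx2.1, fun h => h.elim hx2.2 hx1.2⟩
  have h3 := hE.rk.mono (X ∩ C) X inter_subset_left
  have h4 := hE.rk.mono (X \ C) X sdiff_subset
  have h5 : (X ∩ C).card + (X \ C).card = X.card := card_inter_add_card_sdiff X C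
  omega

theorem stp_symm (h : Stp r E f A A') : Stp r E f A' A := by
  obtain ⟨h1, h2, h3, h4, C, h5, h6, h7, h8, h9, h10⟩ := h
  exact ⟨h2, h1, h4, h3, C, h5, h7, h6, h8, h10, h9⟩

theorem stp_left (hE : Env r E f) (h : Stp r E f A A') : Gd r E f A := by
  obtain ⟨h1, h2, h3, h4, C, h5, h6, h7, h8, h9, h10⟩ := h
  exact gd_of_parts hE h1 h3 h5 h6 h8 h9

theorem stp_right (hE : Env r E f) (h : Stp r E f A A') : Gd r E f A' :=
  stp_left hE (stp_symm h)

theorem gd_stp (hE : Env r E f) (hA : A ⊆ E) (hB : Bs r f A) (hC : C ⊆ E)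
    (hd : Disjoint A C) (hC' : Bs r f C) (hD : Bs r f (E \ (A ∪ C))) : Stp r E f A C := by
  have hd1 := Finset.disjoint_left.1 hd
  refine ⟨hA, hC, hB, hC', E \ (A ∪ C), sdiff_subset, ?_, ?_, hD, ?_, ?_⟩
  · rw [Finset.disjoint_left]
    intro x hx hx'
    exact (mem_sdiff.1 hx').2 (mem_union_left _ hx)
  · rw [Finset.disjoint_left]
    intro x hx hx'
    exact (mem_sdiff.1 hx').2 (mem_union_right _ hx)
  · have e : E \ (A ∪ E \ (A ∪ C)) = C := by
      ext x
      simp only [mem_sdiff, mem_union]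
      constructor
      · rintro ⟨h1, h2⟩
        by_contra h3
        exact h2 (Or.inr ⟨h1, fun h => h.elim (fun h4 => h2 (Or.inl h4)) h3⟩)
      · intro hx
        refine ⟨hC hx, ?_⟩
        rintro (h1 | ⟨_, h2⟩)
        · exact hd1 h1 hx
        · exact h2 (Or.inr hx)
    rw [e]
    exact hC'
  · have e : E \ (C ∪ E \ (A ∪ C)) = A := by
      ext x
      simp only [mem_sdiff, mem_union]
      constructor
      · rintro ⟨h1, h2⟩
        by_contra h3
        exact h2 (Or.inr ⟨h1, fun h => h.elim h3 (fun h4 => h2 (Or.inl h4))⟩)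
      · intro hx
        refine ⟨hA hx, ?_⟩
        rintro (h1 | ⟨_, h2⟩)
        · exact hd1 hx h1
        · exact h2 (Or.inl hx)
    rw [e]
    exact hB

theorem gd_of_GG (hE : Env r E f) (hG : GG r E f U G) (hb : b ∈ G) (hr : r (G.erase b) = f)
    (hU : r (insert b U) ≠ r U) : Gd r E f (G.erase b) := by
  have hc : (G.erase b).card = f := by
    rw [card_erase_of_mem hb, hG.card]
    omega
  refine ⟨(erase_subset b G).trans hG.sub, ⟨hc, hr⟩, ?_⟩
  have e : E \ G.erase b = insert b (E \ G) := by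
    ext x
    simp only [mem_sdiff, mem_erase, mem_insert]
    constructor
    · rintro ⟨h1, h2⟩
      by_cases hx : x = b
      · exact Or.inl hx
      · exact Or.inr ⟨h1, fun h3 => h2 ⟨hx, h3⟩⟩
    · rintro (rfl | ⟨h1, h2⟩)
      · exact ⟨hG.sub hb, fun h => h.1 rfl⟩
      · exact ⟨h1, fun h => h2 h.2⟩
  rw [e]
  exact two_insert hE.rk hG.two hG.max hU

theorem gg_of_gd (hE : Env r E f) (hA : Gd r E f A) (hy : y ∈ E \ A) :
    ∃ U, GG r E f U (insert y A) := by
  obtain ⟨hAE, hB, h2⟩ := hA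
  have hy' := mem_sdiff.1 hy
  have hsub : E \ insert y A ⊆ E \ A := sdiff_subset_sdiff (Subset.refl E) (subset_insert y A)
  have h2' : Two r (E \ insert y A) := fun X hX => h2 X (hX.trans hsub)
  obtain ⟨U, hU, ht, hmax⟩ := ti_max hE.rk h2'
  have hGE : insert y A ⊆ E := insert_subset hy'.1 hAE
  refine ⟨U, ⟨hGE, ?_, ?_, h2', hU, ht, hmax⟩⟩
  · rw [card_insert_of_notMem hy'.2, hB.1]
  · have h3 := hE.rk.mono A (insert y A) (subset_insert y A)
    have h4 := hE.rk.mono (insert y A) E hGE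
    rw [hE.rank] at h4
    rw [hB.2] at h3
    omega

end Pool.Agent.CF98
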