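import Pool.Agent.CF98.Mt
import Pool.Agent.CF98.Good

/-!
A move preserves `GG`.  Let `GG r E f U G`, `b ∈ G`, `r (G.erase b) = f`, `r (insert b U) ≠ r U`, `X ∈ MT r (insert b (E \ G))`, `b ∈ X`,
`Disjoint X U`, `y ∈ X.erase b`, `G' = insert y (G.erase b)`.  Then `E \ G' = (insert b (E \ G)).erase y` (`y ∈ E \ G`), and `GG r E f U G'`:
`|G'| = f + 1`; `f = r (G.erase b) ≤ r G' ≤ r E = f`; `Two` from `two_insert`; `U ⊆ E \ G'` as `y ∉ U`; maximality of `U`: `mt_tight_del`.
Moreover `insert y (E \ G') = insert b (E \ G)`, `G'.erase y = G.erase b`, `r (insert y U) ≠ r U` (otherwise `insert y U` has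
`2 r U + 1` elements: `ti_closed` gives `y ∈ U`), and `G = insert b (G'.erase y)`.
-/

set_option autoImplicit false

namespace Pool.Agent.CF98

open Finset Pool.Agent.DT3

variable {α : Type*} [DecidableEq α] {r : Finset α → ℕ} {E U G X : Finset α} {f : ℕ} {b y : α}

theorem mv_sdiff (hG : GG r E f U G) (hb : b ∈ G) (hX : X ∈ MT r (insert b (E \ G)))
    (hy : y ∈ X.erase b) :
    E \ insert y (G.erase b) = (insert b (E \ G)).erase y ∧
      insert y (E \ insert y (G.erase b)) = insert b (E \ G) ∧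
      (insert y (G.erase b)).erase y = G.erase b ∧ insert b (G.erase b) = G ∧ y ∉ G ∧ y ∈ E := by
  rw [mt_mem] at hX
  rw [mem_erase] at hy
  have hyi := hX.1 hy.2
  have h1 : y ∈ E \ G := by
    rcases mem_insert.1 hyi with h2 | h2
    · exact absurd h2 hy.1
    · exact h2
  rw [mem_sdiff] at h1
  have h3 : E \ insert y (G.erase b) = (insert b (E \ G)).erase y := by
    ext x
    simp only [mem_sdiff, mem_insert, mem_erase]
    constructor
    · rintro ⟨h4, h5⟩
      push Not at h5
      refine ⟨h5.1, ?_⟩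
      by_cases h6 : x = b
      · exact Or.inl h6
      · exact Or.inr ⟨h4, h5.2 h6⟩
    · rintro ⟨h4, h5⟩
      rcases h5 with h5 | h5
      · subst h5
        refine ⟨hG.sub hb, ?_⟩
        rintro (h6 | h6)
        · exact h4 h6
        · exact h6.1 rfl
      · refine ⟨h5.1, ?_⟩
        rintro (h6 | h6)
        · exact h4 h6
        · exact h5.2 h6.2
  refine ⟨h3, ?_, ?_, insert_erase hb, h1.2, h1.1⟩
  · rw [h3, insert_erase hyi]
  · exact erase_insert (fun h4 => h1.2 (mem_of_mem_erase h4))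

theorem mv_gg (hE : Env r E f) (hG : GG r E f U G) (hb : b ∈ G) (hbr : r (G.erase b) = f)
    (hbU : r (insert b U) ≠ r U) (hX : X ∈ MT r (insert b (E \ G))) (hbX : b ∈ X)
    (hXU : Disjoint X U) (hy : y ∈ X.erase b) :
    GG r E f U (insert y (G.erase b)) ∧ r (insert y U) ≠ r U := by
  obtain ⟨h1, h2, h3, h4, h5, h6⟩ := mv_sdiff hG hb hX hy
  have hyU : y ∉ U := fun h7 => (disjoint_left.1 hXU (mem_of_mem_erase hy)) h7
  have htwo : Two r (insert b (E \ G)) := two_insert hE.rk hG.two hG.max hbU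
  have hsub : insert y (G.erase b) ⊆ E := insert_subset h6 ((erase_subset b G).trans hG.sub)
  refine ⟨⟨hsub, ?_, ?_, ?_, ?_, hG.cardU, ?_⟩, ?_⟩
  · rw [card_insert_of_notMem (fun h7 => h5 (mem_of_mem_erase h7)), card_erase_of_mem hb, hG.card]
    omega
  · have h7 := hE.rk.mono _ _ (subset_insert y (G.erase b))
    have h8 := hE.rk.mono _ _ hsub
    rw [hE.rank] at h8
    omega
  · intro Z hZ
    apply htwo
    rw [h1] at hZ
    exact hZ.trans (erase_subset y _)
  · rw [h1, subset_erase]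
    exact ⟨hG.subU.trans (subset_insert b _), hyU⟩
  · intro Z hZ ht
    rw [h1] at hZ
    exact mt_tight_del hE.rk hG.max htwo hX hbX hy hZ ht
  · intro h7
    exact hyU (ti_closed hE.rk hG.two hG.subU hG.cardU (mem_sdiff.2 ⟨h6, h5⟩) h7)

end Pool.Agent.CF98
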