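import Pool.Agent.CF98.CtA
import Pool.Agent.CF98.MvGG

/-!
The maximal members of `DD` are constant on the orbit.  Notation: `hF : Fam r E f U 𝒢 K`, `G₀ ∈ 𝒢`, `H = HH r E U K G₀`.

* `orb_sub`: the orbit is contained in `𝒢` (`Fam.mv`: the set `X` of a move is the one of `Fam.mv` by `mt_disj`, since `insert b (E \ G)` satisfies
  `Two` (`two_insert`)); `K G ⊆ H` for `G` in the orbit.
* `mv_symm`: the relation `Mv` is symmetric on `𝒢`: for `G' = insert y (G.erase b)` the move back removes `y ∈ K G'` and adds `b ∈ X.erase y`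
  (`mv_sdiff`: `insert y (E \ G') = insert b (E \ G)`).
* `mv_dd`: for a move `G → G'` with `X`, `b`, `y` (`G` in the orbit): `X ∈ DD r E U H G`: `|X \ G| = |X.erase b| = 2 r X - 1`; the elements of `X` are not in the closure of
  `U` by `ti_closed` (`X ⊆ insert b (E \ G)`, `U` is a tight subset of this set, disjoint from `X`); `X \ G = X.erase b ⊆ H`: each `y' ∈ X.erase b` lies in
  `K (insert y' (G.erase b))`, and this set is in the orbit.
* `mv_zz_dd`: `Z ∈ ZZ r E U H G` is in `DD r E U H G'`: if `b ∈ Z` or `y ∈ Z` then `Z` meets `X`, so `X ⊆ Z` (`dd_union`, maximality) and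
  `Z \ G' = insert b ((Z \ G).erase y)` has the same cardinality and is contained in `H` (`b ∈ K G ⊆ H`); otherwise `Z \ G' = Z \ G`.
* `zz_mv`: `ZZ r E U H G = ZZ r E U H G'`: by `mv_zz_dd` for both directions: `Z` maximal for `G` is in `DD` of `G'`, contained in a maximal `Z'` for `G'`
  (`zz_cover`), which is in `DD` of `G`, so `Z = Z'`.
* `zz_orb`: `ZZ` is constant on the orbit (induction).
* `h_cover`: every `e ∈ H` lies in some member of `ZZ r E U H G₀`: `e = b ∈ K G` for some `G` in the orbit; its set `X ∈ DD` (`mv_dd`) contains `b`; `zz_cover`,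
  `zz_orb`.
-/

set_option autoImplicit false

namespace Pool.Agent.CF98

open Finset Pool.Agent.DT3

variable {α : Type*} [DecidableEq α] {r : Finset α → ℕ} {E U G G' G₀ X : Finset α} {f : ℕ} {b y : α}
  {𝒢 : Set (Finset α)} {K : Finset α → Finset α}

private theorem ctb_hh {e : α} :
    e ∈ HH r E U K G₀ ↔ e ∈ E ∧ ∃ G ∈ Orb r E U K G₀, e ∈ K G := by
  classical
  unfold HH
  rw [mem_filter]

private theorem ctb_mv (hE : Env r E f) (hF : Fam r E f U 𝒢 K) (hG : G ∈ 𝒢) (hb : b ∈ K G)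
    (hX : X ∈ MT r (insert b (E \ G))) (hbX : b ∈ X) :
    ∀ y ∈ X.erase b, insert y (G.erase b) ∈ 𝒢 ∧ y ∈ K (insert y (G.erase b)) := by
  obtain ⟨X', hX', hbX', -, h4⟩ := hF.mv G hG b hb
  have h1 : Two r (insert b (E \ G)) :=
    two_insert hE.rk (hF.gg G hG).two (hF.gg G hG).max (hF.nocl G hG b hb)
  have h2 : X = X' := by
    by_contra hne
    exact disjoint_left.1 (mt_disj hE.rk h1 hX hX' hne) hbX hbX'
  rw [h2]
  exact h4

private theorem ctb_mem (hE : Env r E f) (hF : Fam r E f U 𝒢 K) (hG : G ∈ 𝒢)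
    (hm : Mv r E U K G G') : G' ∈ 𝒢 := by
  obtain ⟨b, hb, X, hX, hbX, -, y, hy, rfl⟩ := hm
  exact (ctb_mv hE hF hG hb hX hbX y hy).1

theorem orb_sub (hE : Env r E f) (hF : Fam r E f U 𝒢 K) (hG₀ : G₀ ∈ 𝒢)
    (hG : G ∈ Orb r E U K G₀) : G ∈ 𝒢 := by
  change Relation.ReflTransGen (Mv r E U K) G₀ G at hG
  induction hG with
  | refl => exact hG₀
  | tail _ hm ih => exact ctb_mem hE hF ih hm

theorem k_sub_h (hE : Env r E f) (hF : Fam r E f U 𝒢 K) (hG₀ : G₀ ∈ 𝒢)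
    (hG : G ∈ Orb r E U K G₀) : K G ⊆ HH r E U K G₀ := by
  intro e he
  have h1 := orb_sub hE hF hG₀ hG
  exact ctb_hh.2 ⟨(hF.gg G h1).sub (hF.sub G h1 he), G, hG, he⟩

theorem mv_symm (hE : Env r E f) (hF : Fam r E f U 𝒢 K) (hG : G ∈ 𝒢) (hm : Mv r E U K G G') :
    Mv r E U K G' G := by
  obtain ⟨b, hb, X, hX, hbX, hXU, y, hy, rfl⟩ := hm
  have hbG : b ∈ G := hF.sub G hG hb
  obtain ⟨h1, h2, h3, h4, h5, h6⟩ := mv_sdiff (hF.gg G hG) hbG hX hy
  have hyX : y ∈ X := (mem_erase.1 hy).2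
  have hne : b ≠ y := by
    rintro rfl
    exact h5 hbG
  refine ⟨y, (ctb_mv hE hF hG hb hX hbX y hy).2, X, ?_, hyX, hXU, b, ?_, ?_⟩
  · rw [h2]
    exact hX
  · exact mem_erase.2 ⟨hne, hbX⟩
  · rw [h3, h4]

theorem mv_dd (hE : Env r E f) (hF : Fam r E f U 𝒢 K) (hG₀ : G₀ ∈ 𝒢)
    (hG : G ∈ Orb r E U K G₀) (hb : b ∈ K G) (hX : X ∈ MT r (insert b (E \ G))) (hbX : b ∈ X)
    (hXU : Disjoint X U) : DD r E U (HH r E U K G₀) G X := by
  have hG' := orb_sub hE hF hG₀ hG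
  have hgg := hF.gg G hG'
  have hbG : b ∈ G := hF.sub G hG' hb
  have htwo : Two r (insert b (E \ G)) := two_insert hE.rk hgg.two hgg.max (hF.nocl G hG' b hb)
  have hXm := mt_mem.1 hX
  have hXG : X \ G = X.erase b := by
    ext x
    rw [mem_sdiff, mem_erase]
    constructor
    · rintro ⟨h1, h2⟩
      refine ⟨?_, h1⟩
      rintro rfl
      exact h2 hbG
    · rintro ⟨h1, h2⟩
      refine ⟨h2, ?_⟩
      rcases mem_insert.1 (hXm.1 h2) with h3 | h3
      · exact absurd h3 h1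
      · exact (mem_sdiff.1 h3).2
  refine ⟨?_, ?_, ?_, ?_⟩
  · refine hXm.1.trans ?_
    exact insert_subset (hgg.sub hbG) sdiff_subset
  · rw [hXG, card_erase_add_one hbX]
    exact hXm.2.2.1
  · intro x hx hc
    have h1 : x ∈ U := ti_closed hE.rk htwo (hgg.subU.trans (subset_insert _ _)) hgg.cardU
      (hXm.1 hx) hc
    exact disjoint_left.1 hXU hx h1
  · rw [hXG]
    intro y' hy'
    have h1 : insert y' (G.erase b) ∈ Orb r E U K G₀ := by
      change Relation.ReflTransGen (Mv r E U K) G₀ (insert y' (G.erase b))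
      exact Relation.ReflTransGen.tail hG ⟨b, hb, X, hX, hbX, hXU, y', hy', rfl⟩
    exact k_sub_h hE hF hG₀ h1 (ctb_mv hE hF hG' hb hX hbX y' hy').2

private theorem ctb_zz_dd (hE : Env r E f) (hF : Fam r E f U 𝒢 K) (hG₀ : G₀ ∈ 𝒢)
    (hG : G ∈ Orb r E U K G₀) (hm : Mv r E U K G G') {Z : Finset α}
    (hZ : Z ∈ ZZ r E U (HH r E U K G₀) G) : DD r E U (HH r E U K G₀) G' Z := by
  obtain ⟨b, hb, X, hX, hbX, hXU, y, hy, rfl⟩ := hm
  have hG' := orb_sub hE hF hG₀ hG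
  have hgg := hF.gg G hG'
  have hbG : b ∈ G := hF.sub G hG' hb
  obtain ⟨-, -, -, -, hyG, -⟩ := mv_sdiff hgg hbG hX hy
  have hyX : y ∈ X := (mem_erase.1 hy).2
  have hne : b ≠ y := by
    rintro rfl
    exact hyG hbG
  have hXd := mv_dd hE hF hG₀ hG hb hX hbX hXU
  rw [zz_mem] at hZ
  obtain ⟨⟨hZE, hZc, hZU, hZH⟩, hZm⟩ := hZ
  by_cases hc : (Z ∩ X).Nonempty
  · have h1 := dd_union hE.rk hgg ⟨hZE, hZc, hZU, hZH⟩ hXd hc
    have h2 := hZm _ h1 subset_union_left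
    have h3 : X ⊆ Z := by
      rw [← h2]
      exact subset_union_right
    have hbZ : b ∈ Z := h3 hbX
    have hyZ : y ∈ Z := h3 hyX
    have h4 : Z \ insert y (G.erase b) = insert b ((Z \ G).erase y) := by
      ext z
      rw [mem_sdiff, mem_insert, mem_erase, mem_insert, mem_erase, mem_sdiff]
      constructor
      · rintro ⟨h5, h6⟩
        by_cases hzb : z = b
        · exact Or.inl hzb
        · refine Or.inr ⟨fun h7 => h6 (Or.inl h7), h5, fun h7 => h6 (Or.inr ⟨hzb, h7⟩)⟩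
      · rintro (rfl | ⟨h5, h6, h7⟩)
        · refine ⟨hbZ, ?_⟩
          rintro (h8 | ⟨h8, -⟩)
          · exact hne h8
          · exact h8 rfl
        · refine ⟨h6, ?_⟩
          rintro (h8 | ⟨-, h8⟩)
          · exact h5 h8
          · exact h7 h8
    have h5 : b ∉ (Z \ G).erase y := fun h6 => (mem_sdiff.1 (mem_erase.1 h6).2).2 hbG
    have h6 : y ∈ Z \ G := mem_sdiff.2 ⟨hyZ, hyG⟩
    refine ⟨hZE, ?_, hZU, ?_⟩
    · rw [h4, card_insert_of_notMem h5, card_erase_add_one h6]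
      exact hZc
    · rw [h4]
      exact insert_subset (k_sub_h hE hF hG₀ hG hb) ((erase_subset _ _).trans hZH)
  · have hbZ : b ∉ Z := fun h => hc ⟨b, mem_inter.2 ⟨h, hbX⟩⟩
    have hyZ : y ∉ Z := fun h => hc ⟨y, mem_inter.2 ⟨h, hyX⟩⟩
    have h4 : Z \ insert y (G.erase b) = Z \ G := by
      ext z
      rw [mem_sdiff, mem_insert, mem_erase, mem_sdiff]
      constructor
      · rintro ⟨h5, h6⟩
        refine ⟨h5, fun h7 => h6 (Or.inr ⟨?_, h7⟩)⟩
        rintro rfl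
        exact hbZ h5
      · rintro ⟨h5, h6⟩
        refine ⟨h5, ?_⟩
        rintro (rfl | ⟨-, h8⟩)
        · exact hyZ h5
        · exact h6 h8
    refine ⟨hZE, ?_, hZU, ?_⟩
    · rw [h4]
      exact hZc
    · rw [h4]
      exact hZH

private theorem ctb_zz_le (hE : Env r E f) (hF : Fam r E f U 𝒢 K) (hG₀ : G₀ ∈ 𝒢)
    (hG : G ∈ Orb r E U K G₀) (hG' : G' ∈ Orb r E U K G₀) (hm : Mv r E U K G G')
    (hm' : Mv r E U K G' G) {Z : Finset α}
    (hZ : Z ∈ ZZ r E U (HH r E U K G₀) G) : Z ∈ ZZ r E U (HH r E U K G₀) G' := by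
  have h1 := ctb_zz_dd hE hF hG₀ hG hm hZ
  obtain ⟨Z', hZ', hs⟩ := zz_cover h1
  have h2 := ctb_zz_dd hE hF hG₀ hG' hm' hZ'
  have h3 := (zz_mem.1 hZ).2 Z' h2 hs
  rw [← h3]
  exact hZ'

theorem zz_mv (hE : Env r E f) (hF : Fam r E f U 𝒢 K) (hG₀ : G₀ ∈ 𝒢)
    (hG : G ∈ Orb r E U K G₀) (hm : Mv r E U K G G') :
    ZZ r E U (HH r E U K G₀) G = ZZ r E U (HH r E U K G₀) G' := by
  have hG' : G' ∈ Orb r E U K G₀ := by
    change Relation.ReflTransGen (Mv r E U K) G₀ G'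
    exact Relation.ReflTransGen.tail hG hm
  have hm' := mv_symm hE hF (orb_sub hE hF hG₀ hG) hm
  apply Finset.Subset.antisymm
  · intro Z hZ
    exact ctb_zz_le hE hF hG₀ hG hG' hm hm' hZ
  · intro Z hZ
    exact ctb_zz_le hE hF hG₀ hG' hG hm' hm hZ

theorem zz_orb (hE : Env r E f) (hF : Fam r E f U 𝒢 K) (hG₀ : G₀ ∈ 𝒢)
    (hG : G ∈ Orb r E U K G₀) :
    ZZ r E U (HH r E U K G₀) G = ZZ r E U (HH r E U K G₀) G₀ := by
  change Relation.ReflTransGen (Mv r E U K) G₀ G at hG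
  induction hG with
  | refl => rfl
  | tail h1 hm ih =>
    rw [← ih]
    exact (zz_mv hE hF hG₀ h1 hm).symm

theorem h_cover (hE : Env r E f) (hF : Fam r E f U 𝒢 K) (hG₀ : G₀ ∈ 𝒢) :
    ∀ e ∈ HH r E U K G₀, ∃ Z ∈ ZZ r E U (HH r E U K G₀) G₀, e ∈ Z := by
  intro e he
  obtain ⟨-, G, hG, heK⟩ := ctb_hh.1 he
  obtain ⟨X, hX, heX, hXU, -⟩ := hF.mv G (orb_sub hE hF hG₀ hG) e heK
  have h1 := mv_dd hE hF hG₀ hG heK hX heX hXU
  obtain ⟨Z, hZ, hs⟩ := zz_cover h1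
  rw [zz_orb hE hF hG₀ hG] at hZ
  exact ⟨Z, hZ, hs heX⟩

end Pool.Agent.CF98
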