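import Pool.Agent.CF98.CtB

/-!
The closure of `U ∪ (H ∩ G)` is constant on the orbit, so it contains `H`.  Notation as in `CtB`.

* `hg_mv`: let `G' = insert y (G.erase b)` be a move, `G` in the orbit.  `S = U ∪ (H ∩ G).erase b`.  Then `r (U ∪ (H ∩ G)) = r S` (`Fam.dep` for
  `b ∈ K G ⊆ H ∩ G`: `b` is in the closure of `U ∪ (K G).erase b`, `RankFn.mono_insert`) and likewise `r (U ∪ (H ∩ G')) = r S`, because
  `(H ∩ G').erase y = (H ∩ G).erase b` (`b, y ∈ H`).  So for all `e`: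
  `r (insert e (U ∪ (H ∩ G))) = r (U ∪ (H ∩ G)) ↔ r (insert e (U ∪ (H ∩ G'))) = r (U ∪ (H ∩ G'))` (`rk_ins_iff` through `S`).
* `hg_orb`: the same for `G₀` and every `G` in the orbit (induction).
* `hg_rank`: `r (U ∪ HH) = r (U ∪ (HH ∩ G₀))`: every `e ∈ H` lies in `K G ⊆ H ∩ G` for some `G` in the orbit; `hg_orb`, `rk_union_eq`.
* `hg_card`: `r (U ∪ (HH ∩ G₀)) + 1 ≤ r U + (HH ∩ G₀).card`: take `b ∈ K G₀`, `r (U ∪ (HH ∩ G₀)) = r (U ∪ (HH ∩ G₀).erase b) ≤ r U + |HH ∩ G₀| - 1`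
  (`rk_le_union_card`).
-/

set_option autoImplicit false

namespace Pool.Agent.CF98

open Finset Pool.Agent.DT3

variable {α : Type*} [DecidableEq α] {r : Finset α → ℕ} {E U G G' G₀ X : Finset α} {f : ℕ} {b y : α}
  {𝒢 : Set (Finset α)} {K : Finset α → Finset α}

theorem hg_er (hE : Env r E f) (hF : Fam r E f U 𝒢 K) (hG₀ : G₀ ∈ 𝒢)
    (hG : G ∈ Orb r E U K G₀) (hb : b ∈ K G) :
    r (U ∪ (HH r E U K G₀ ∩ G).erase b) = r (U ∪ (HH r E U K G₀ ∩ G)) := by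
  have hG𝒢 := orb_sub hE hF hG₀ hG
  have hKH := k_sub_h hE hF hG₀ hG
  have hKG := hF.sub G hG𝒢
  have h1 := hF.dep G hG𝒢 b hb
  have h2 : insert b (U ∪ (K G).erase b) = U ∪ K G := by
    rw [← union_insert, insert_erase hb]
  have h3 : r (insert b (U ∪ (K G).erase b)) = r (U ∪ (K G).erase b) := by
    rw [h2, h1]
  have h4 : U ∪ (K G).erase b ⊆ U ∪ (HH r E U K G₀ ∩ G).erase b :=
    union_subset_union_right (erase_subset_erase b (subset_inter hKH hKG))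
  have h5 := hE.rk.mono_insert h3 h4
  have h6 : insert b (U ∪ (HH r E U K G₀ ∩ G).erase b) = U ∪ (HH r E U K G₀ ∩ G) := by
    rw [← union_insert, insert_erase (mem_inter.2 ⟨hKH hb, hKG hb⟩)]
  rw [h6] at h5
  exact h5.symm

theorem hg_mv (hE : Env r E f) (hF : Fam r E f U 𝒢 K) (hG₀ : G₀ ∈ 𝒢)
    (hG : G ∈ Orb r E U K G₀) (hm : Mv r E U K G G') (e : α) :
    r (insert e (U ∪ (HH r E U K G₀ ∩ G))) = r (U ∪ (HH r E U K G₀ ∩ G)) ↔
      r (insert e (U ∪ (HH r E U K G₀ ∩ G'))) = r (U ∪ (HH r E U K G₀ ∩ G')) := by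
  have hG' : G' ∈ Orb r E U K G₀ := Relation.ReflTransGen.tail hG hm
  have hG𝒢 := orb_sub hE hF hG₀ hG
  have hG'𝒢 := orb_sub hE hF hG₀ hG'
  have hm' := mv_symm hE hF hG𝒢 hm
  obtain ⟨b, hb, X, hX, hbX, hXU, y, hy, hGe⟩ := hm
  obtain ⟨b', hb', X', hX', hbX', hXU', y', hy', hGe'⟩ := hm'
  have hyG : y ∉ G := by
    have h1 : y ∈ insert b (E \ G) := by
      rw [mt_mem] at hX
      exact hX.1 (mem_of_mem_erase hy)
    rcases mem_insert.1 h1 with h2 | h2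
    · exact absurd h2 (ne_of_mem_erase hy)
    · exact (mem_sdiff.1 h2).2
  have hyG' : y ∈ G' := by
    rw [hGe]
    exact mem_insert_self _ _
  have hyb' : y = b' := by
    by_contra hne
    apply hyG
    rw [hGe']
    exact mem_insert_of_mem (mem_erase.2 ⟨hne, hyG'⟩)
  have hyK : y ∈ K G' := by
    rw [hyb']
    exact hb'
  have h1 := hg_er hE hF hG₀ hG hb
  have h2 := hg_er hE hF hG₀ hG' hyK
  have h3 : (HH r E U K G₀ ∩ G').erase y = (HH r E U K G₀ ∩ G).erase b := by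
    ext z
    rw [mem_erase, mem_erase, mem_inter, mem_inter, hGe, mem_insert, mem_erase]
    constructor
    · rintro ⟨h4, h5, h6⟩
      rcases h6 with h6 | h6
      · exact absurd h6 h4
      · exact ⟨h6.1, h5, h6.2⟩
    · rintro ⟨h4, h5, h6⟩
      exact ⟨fun h7 => hyG (h7 ▸ h6), h5, Or.inr ⟨h4, h6⟩⟩
  rw [h3] at h2
  have h4 := rk_ins_iff hE.rk (union_subset_union_right (s := U)
    (erase_subset b (HH r E U K G₀ ∩ G))) h1 e
  have h5 := rk_ins_iff hE.rk (union_subset_union_right (s := U)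
    (show (HH r E U K G₀ ∩ G).erase b ⊆ HH r E U K G₀ ∩ G' by
      rw [← h3]
      exact erase_subset _ _)) h2 e
  exact h4.symm.trans h5

theorem hg_orb (hE : Env r E f) (hF : Fam r E f U 𝒢 K) (hG₀ : G₀ ∈ 𝒢)
    (hG : G ∈ Orb r E U K G₀) (e : α) :
    r (insert e (U ∪ (HH r E U K G₀ ∩ G₀))) = r (U ∪ (HH r E U K G₀ ∩ G₀)) ↔
      r (insert e (U ∪ (HH r E U K G₀ ∩ G))) = r (U ∪ (HH r E U K G₀ ∩ G)) := by
  have hG' : Relation.ReflTransGen (Mv r E U K) G₀ G := hG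
  induction hG' with
  | refl => exact Iff.rfl
  | tail h1 h2 ih => exact (ih h1).trans (hg_mv hE hF hG₀ h1 h2 e)

theorem hg_rank (hE : Env r E f) (hF : Fam r E f U 𝒢 K) (hG₀ : G₀ ∈ 𝒢) :
    r (U ∪ HH r E U K G₀) = r (U ∪ (HH r E U K G₀ ∩ G₀)) := by
  have h1 : U ∪ HH r E U K G₀ = (U ∪ (HH r E U K G₀ ∩ G₀)) ∪ HH r E U K G₀ := by
    rw [union_assoc, union_eq_right.2 (inter_subset_left (s₂ := G₀))]
  rw [h1]
  apply rk_union_eq hE.rk
  intro e he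
  classical
  have he' := he
  unfold HH at he'
  rw [mem_filter] at he'
  obtain ⟨-, G, hG, heG⟩ := he'
  rw [hg_orb hE hF hG₀ hG e]
  have hKG := hF.sub G (orb_sub hE hF hG₀ hG)
  rw [insert_eq_of_mem (mem_union_right _ (mem_inter.2 ⟨he, hKG heG⟩))]

theorem hg_card (hE : Env r E f) (hF : Fam r E f U 𝒢 K) (hG₀ : G₀ ∈ 𝒢) :
    r (U ∪ (HH r E U K G₀ ∩ G₀)) + 1 ≤ r U + (HH r E U K G₀ ∩ G₀).card := by
  obtain ⟨b, hb⟩ := hF.ne G₀ hG₀
  have hG : G₀ ∈ Orb r E U K G₀ := Relation.ReflTransGen.refl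
  rw [← hg_er hE hF hG₀ hG hb]
  have h1 := rk_le_union_card hE.rk U ((HH r E U K G₀ ∩ G₀).erase b)
  have hbm : b ∈ HH r E U K G₀ ∩ G₀ :=
    mem_inter.2 ⟨k_sub_h hE hF hG₀ hG hb, hF.sub G₀ hG₀ hb⟩
  have h2 := card_erase_add_one hbm
  omega

end Pool.Agent.CF98
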