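import Pool.Agent.DT3.HFlat

/-!
# CF98: cubic generators of toric ideals of matroids live at critical flats (MP_e6151a_ag)

Paper proof: notes 1290 (helper92: descent lemma), 1307 (helper22: lemma LC), 1340 (helper34:
Steps 1 and 2) of the problem.  Everything is done for a rank function `r : Finset α → ℕ`
(`Pool.Agent.DT3.RankFn`) and a finite ground set `E`, `|E| = 3 f`, `r E = f`, three blocks.
For flats and closures (`IsFlat r E F`, `clo r E X`) see `DT3/HDefs` and `DT3/HFlat`.

* `Two r D` : `|X| ≤ 2 r X` for all `X ⊆ D`;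
* `Bs r f X` : `X` has `f` elements and rank `f`;
* `Gd r E f A` : `A` is a good basis (a block of a partition of `E` into three bases);
* `Stp r E f A A'` : `A`, `A'` occur in two partitions of `E` into three bases with a common
  third block `C`;
* `Env r E f` : the standing assumptions;
* `Strict r E` : no tight sets except `∅` and `E`;
* `TT m p G t T` : `T` is a common basis of the pair `m`, `p` (ranks `t + 1`, `t`) of the descent lemma;
* `Sk r X1 X2 F` : `X1` and `X2` are skew over `F`;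
* `MT r D` : the minimal non-empty tight subsets of `D`;
* `GG r E f U G` : `|G| = f + 1`, `r G = f`, `E \ G` independent in the twofold union with largest tight subset `U`;
* `KK r f U Q G` : the elements `b` of `G` outside the closure of `U` with `G - b` a basis in `Q`;
* `Fam r E f U 𝒢 K` : the abstract setting of the counting theorem;
* `Mv`, `Orb`, `HH`, `DD`, `ZZ` : moves, orbit, union of the `K G`, the sets with `d = 1`, the maximal ones.
* `Sun r E` : a critical sunflower.
-/

set_option autoImplicit false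

namespace Pool.Agent.CF98

open Finset Pool.Agent.DT3

variable {α : Type*} [DecidableEq α]

/-- `D` satisfies Edmonds' condition for two bases. -/
def Two (r : Finset α → ℕ) (D : Finset α) : Prop := ∀ X ⊆ D, X.card ≤ 2 * r X

/-- `X` has `f` elements and rank `f`. -/
def Bs (r : Finset α → ℕ) (f : ℕ) (X : Finset α) : Prop := X.card = f ∧ r X = f

/-- Good bases. -/
def Gd (r : Finset α → ℕ) (E : Finset α) (f : ℕ) (A : Finset α) : Prop :=
  A ⊆ E ∧ Bs r f A ∧ Two r (E \ A)

/-- Two partitions of `E` into three bases with blocks `A`, `A'` and a common block `C`. -/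
def Stp (r : Finset α → ℕ) (E : Finset α) (f : ℕ) (A A' : Finset α) : Prop :=
  A ⊆ E ∧ A' ⊆ E ∧ Bs r f A ∧ Bs r f A' ∧ ∃ C ⊆ E, Disjoint A C ∧ Disjoint A' C ∧ Bs r f C ∧
    Bs r f (E \ (A ∪ C)) ∧ Bs r f (E \ (A' ∪ C))

/-- The standing assumptions. -/
structure Env (r : Finset α → ℕ) (E : Finset α) (f : ℕ) : Prop where
  rk : RankFn r
  card : E.card = 3 * f
  rank : r E = f
  three : ∀ X ⊆ E, X.card ≤ 3 * r X

/-- There are no tight sets except the trivial ones. -/
def Strict (r : Finset α → ℕ) (E : Finset α) : Prop :=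
  ∀ X ⊆ E, X.Nonempty → X ≠ E → X.card + 1 ≤ 3 * r X

/-- Common bases of a pair of matroids of ranks `t + 1` and `t`. -/
def TT (m p : Finset α → ℕ) (G : Finset α) (t : ℕ) (T : Finset α) : Prop :=
  T ⊆ G ∧ T.card = t ∧ m T = t ∧ p T = t

/-- `X1` and `X2` are skew over `F`. -/
def Sk (r : Finset α → ℕ) (X1 X2 F : Finset α) : Prop :=
  r (F ∪ X1) + r (F ∪ X2) = r (F ∪ (X1 ∪ X2)) + r F

/-- The minimal non-empty tight subsets of `D`. -/
def MT (r : Finset α → ℕ) (D : Finset α) : Finset (Finset α) :=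
  D.powerset.filter fun X => X.Nonempty ∧ X.card = 2 * r X ∧
    ∀ X' ∈ X.powerset, X'.Nonempty → X'.card = 2 * r X' → X' = X

/-- `G` has `f + 1` elements and rank `f`, and `U` is the largest tight subset of `E \ G`. -/
structure GG (r : Finset α → ℕ) (E : Finset α) (f : ℕ) (U G : Finset α) : Prop where
  sub : G ⊆ E
  card : G.card = f + 1
  rank : r G = f
  two : Two r (E \ G)
  subU : U ⊆ E \ G
  cardU : U.card = 2 * r U
  max : ∀ X ⊆ E \ G, X.card = 2 * r X → X ⊆ U

open Classical in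
/-- The elements `b` of `G` outside the closure of `U` for which `G - b` is a basis in `Q`. -/
noncomputable def KK (r : Finset α → ℕ) (f : ℕ) (U : Finset α) (Q : Finset α → Prop)
    (G : Finset α) : Finset α :=
  G.filter fun b => r (G.erase b) = f ∧ r (insert b U) ≠ r U ∧ Q (G.erase b)

/-- The setting of the counting theorem. -/
structure Fam (r : Finset α → ℕ) (E : Finset α) (f : ℕ) (U : Finset α)
    (𝒢 : Set (Finset α)) (K : Finset α → Finset α) : Prop where
  gg : ∀ G ∈ 𝒢, GG r E f U G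
  sub : ∀ G ∈ 𝒢, K G ⊆ G
  ne : ∀ G ∈ 𝒢, (K G).Nonempty
  nocl : ∀ G ∈ 𝒢, ∀ b ∈ K G, r (insert b U) ≠ r U
  dep : ∀ G ∈ 𝒢, ∀ b ∈ K G, r (U ∪ (K G).erase b) = r (U ∪ K G)
  mv : ∀ G ∈ 𝒢, ∀ b ∈ K G, ∃ X ∈ MT r (insert b (E \ G)), b ∈ X ∧ Disjoint X U ∧
    ∀ y ∈ X.erase b, insert y (G.erase b) ∈ 𝒢 ∧ y ∈ K (insert y (G.erase b))
  out : ∃ q ∈ E, ∀ G ∈ 𝒢, q ∉ G

/-- A move. -/
def Mv (r : Finset α → ℕ) (E U : Finset α) (K : Finset α → Finset α) (G G' : Finset α) : Prop :=
  ∃ b ∈ K G, ∃ X ∈ MT r (insert b (E \ G)), b ∈ X ∧ Disjoint X U ∧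
    ∃ y ∈ X.erase b, G' = insert y (G.erase b)

/-- The orbit of `G₀`. -/
def Orb (r : Finset α → ℕ) (E U : Finset α) (K : Finset α → Finset α) (G₀ : Finset α) :
    Set (Finset α) :=
  {G | Relation.ReflTransGen (Mv r E U K) G₀ G}

open Classical in
/-- The union of the sets `K G` over the orbit of `G₀`. -/
noncomputable def HH (r : Finset α → ℕ) (E U : Finset α) (K : Finset α → Finset α)
    (G₀ : Finset α) : Finset α :=
  E.filter fun e => ∃ G ∈ Orb r E U K G₀, e ∈ K G

/-- The sets `X` with `2 r X - |X \ G| = 1`, disjoint from the closure of `U`, with `X \ G ⊆ H`. -/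
def DD (r : Finset α → ℕ) (E U H G X : Finset α) : Prop :=
  X ⊆ E ∧ (X \ G).card + 1 = 2 * r X ∧ (∀ x ∈ X, r (insert x U) ≠ r U) ∧ X \ G ⊆ H

open Classical in
/-- The maximal members of `DD`. -/
noncomputable def ZZ (r : Finset α → ℕ) (E U H G : Finset α) : Finset (Finset α) :=
  E.powerset.filter fun X => DD r E U H G X ∧ ∀ X', DD r E U H G X' → X ⊆ X' → X' = X

/-- Three pairwise disjoint critical sets. -/
def Crit3 (r : Finset α → ℕ) (E : Finset α) : Prop :=
  ∃ Z : Fin 3 → Finset α, (∀ i, Z i ⊆ E ∧ (Z i).card + 1 = 3 * r (Z i)) ∧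
    ∀ i j, i ≠ j → Disjoint (Z i) (Z j)

/-- A critical sunflower: three critical flats any two of which meet in the same tight set. -/
def Sun (r : Finset α → ℕ) (E : Finset α) : Prop :=
  ∃ (T : Finset α) (Z : Fin 3 → Finset α), T ⊆ E ∧ T.card = 3 * r T ∧
    (∀ i, IsFlat r E (Z i) ∧ (Z i).card + 1 = 3 * r (Z i)) ∧ ∀ i j, i ≠ j → Z i ∩ Z j = T

end Pool.Agent.CF98
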