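import Pool.Agent.CF98.Rk0
import Pool.Agent.DT3.Rk

/-!
Flats of contractions and restrictions (`IsFlat`, `clo`: `DT3/HDefs`, `DT3/HFlat`).

* `flat_contr`: `F` a flat, `X ⊆ G \ F` a flat of the contraction `Y ↦ r (Y ∪ F) - r F` on `G \ F`: then `X ∪ F` is a flat of `G`.
* `clo_contr`: for `X ⊆ G \ F` and a flat `F`: the closure in the contraction, together with `F`, is the closure of `X ∪ F`.
  (`e ∈ G \ F`: `r (insert e X ∪ F) - r F = r (X ∪ F) - r F` iff `r (insert e (X ∪ F)) = r (X ∪ F)`, since `r F ≤ r (X ∪ F)`;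
  `e ∈ F`: `insert e (X ∪ F) = X ∪ F`.)
* `flat_restr`: `F` a flat of `G`, `X` a flat of `F`: `X` is a flat of `G` (if `e ∈ G \ F` and `r (insert e X) = r X` then
  `r (insert e F) = r F` by `RankFn.mono_insert`).
* `clo_restr`: `F` a flat of `G`, `X ⊆ F`: the closures in `F` and in `G` agree (`clo_sub_flat`).
* `flat_inter`: the intersection of two flats is a flat.
-/

set_option autoImplicit false

namespace Pool.Agent.CF98

open Finset Pool.Agent.DT3

variable {α : Type*} [DecidableEq α] {r : Finset α → ℕ} {G F F' X : Finset α}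

private lemma FlatMinor_mem {r : Finset α → ℕ} {G X : Finset α} {e : α} :
    e ∈ clo r G X ↔ e ∈ G ∧ r (insert e X) = r X := by
  rw [clo, mem_filter]

private lemma FlatMinor_lt (h : RankFn r) (hF : IsFlat r G F) (hXF : X ⊆ F) {e : α}
    (he : e ∈ G) (heF : e ∉ F) : r X < r (insert e X) := by
  have h1 := hF.2 e (mem_sdiff.2 ⟨he, heF⟩)
  have h2 := h.mono X (insert e X) (subset_insert e X)
  by_contra hc
  have h3 : r (insert e X) = r X := by omega
  have h4 := h.mono_insert h3 hXF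
  omega

theorem flat_contr (h : RankFn r) (hF : IsFlat r G F)
    (hX : IsFlat (fun Y => r (Y ∪ F) - r F) (G \ F) X) : IsFlat r G (X ∪ F) := by
  refine ⟨union_subset (hX.1.trans sdiff_subset) hF.1, fun e he => ?_⟩
  rw [mem_sdiff, mem_union] at he
  have h1 := hX.2 e (by
    rw [mem_sdiff, mem_sdiff]
    exact ⟨⟨he.1, fun h => he.2 (Or.inr h)⟩, fun h => he.2 (Or.inl h)⟩)
  simp only [insert_union] at h1
  omega

theorem clo_contr (h : RankFn r) (hF : IsFlat r G F) (hX : X ⊆ G \ F) :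
    clo (fun Y => r (Y ∪ F) - r F) (G \ F) X ∪ F = clo r G (X ∪ F) := by
  ext e
  rw [mem_union, FlatMinor_mem, FlatMinor_mem, mem_sdiff]
  simp only [insert_union]
  have h1 := h.mono F (X ∪ F) subset_union_right
  have h2 := h.mono (X ∪ F) (insert e (X ∪ F)) (subset_insert _ _)
  constructor
  · rintro (⟨⟨h3, _⟩, h4⟩ | h3)
    · exact ⟨h3, by omega⟩
    · exact ⟨hF.1 h3, by rw [insert_eq_of_mem (mem_union_right _ h3)]⟩
  · rintro ⟨h3, h4⟩
    by_cases heF : e ∈ F
    · exact Or.inr heF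
    · exact Or.inl ⟨⟨h3, heF⟩, by omega⟩

theorem flat_restr (h : RankFn r) (hF : IsFlat r G F) (hX : IsFlat r F X) : IsFlat r G X := by
  refine ⟨hX.1.trans hF.1, fun e he => ?_⟩
  rw [mem_sdiff] at he
  by_cases heF : e ∈ F
  · exact hX.2 e (mem_sdiff.2 ⟨heF, he.2⟩)
  · exact FlatMinor_lt h hF hX.1 he.1 heF

theorem clo_restr (h : RankFn r) (hF : IsFlat r G F) (hX : X ⊆ F) : clo r F X = clo r G X := by
  ext e
  constructor
  · intro he
    rw [FlatMinor_mem] at he ⊢
    exact ⟨hF.1 he.1, he.2⟩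
  · intro he
    have h1 := clo_sub_flat h hF hX he
    rw [FlatMinor_mem] at he ⊢
    exact ⟨h1, he.2⟩

theorem flat_inter (h : RankFn r) (hF : IsFlat r G F) (hF' : IsFlat r G F') :
    IsFlat r G (F ∩ F') := by
  refine ⟨inter_subset_left.trans hF.1, fun e he => ?_⟩
  rw [mem_sdiff, mem_inter] at he
  by_cases heF : e ∈ F
  · have heF' : e ∉ F' := fun h1 => he.2 ⟨heF, h1⟩
    exact FlatMinor_lt h hF' inter_subset_right he.1 heF'
  · exact FlatMinor_lt h hF inter_subset_left he.1 heF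

/-- Flats of rank `0` of a loopless set. -/
theorem clo_empty_eq (h : RankFn r) (hl : ∀ e ∈ G, 0 < r {e}) : clo r G ∅ = ∅ := by
  refine eq_empty_of_forall_notMem fun e he => ?_
  rw [FlatMinor_mem] at he
  have h1 := hl e he.1
  have h2 := he.2
  rw [h.empty, insert_empty_eq] at h2
  omega

end Pool.Agent.CF98
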