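import Pool.Agent.CF98.DescA
import Pool.Agent.CF98.FlatMinor

/-!
The descent lemma (note 1290, helper92).

`m`, `p` rank functions, `m G = t + 1`, `p G = t`; every `g ∈ G` is a hole: some common basis `T` has `m (insert g T) = t + 1`.
Induction on `|G|`, for all data.  `t = 0`: `T = ∅` is a common basis, `S (clo m G ∅)` by `h1`.
`t ≥ 1`.  A common basis `T₁` exists (`G` is not empty since `m G > 0`), it has an element `e`; `F` from `descA`.
(a) `T ∩ F` spans `F` and has `m F` elements for all common bases `T` with `e ∈ T` (`descA_span`).  `F ≠ G` (`m T₁ = t < m G`).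
(b) `S F`.  Put `m' X = m (X ∪ F) - m F`, `p' X = p (X ∪ {e}) - p {e}`, `G' = G \ F`, `t' = t - m F`, `S' X = S (X ∪ F)`.
 `m' G' = t' + 1` (`(G \ F) ∪ F = G`), `p' G' = t'` (`p {e} = 1`, `m F + p (insert e (G \ F)) = t + 1`; `m F ≤ t` by (a)).
 holes: for `g ∈ G'` take `T` with `e ∈ T` from `descA`, `T' = T \ F`: `|T'| = t - m F` by (a), `m' T' = m (T ∪ F) - m F = m T - m F`
 (`rk_cup_congr` for `T ∩ F ⊆ F`, and `(T ∩ F) ∪ T = T`), `p' T' = p (insert e (T \ F)) - 1 = |T \ F|` (`ind_sub`), and
 `m' (insert g T') = m (insert g T) - m F = t' + 1`.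
 `h1'`: let `T'` be a common basis of `m'`, `p'` and `T = T' ∪ (T₁ ∩ F)`: `|T| = t`; `m T = m (T' ∪ F) = m' T' + m F = t`
 (`rk_cup_congr`); `p T = t`: `p (insert e T') = p' T' + 1 = t' + 1 = p (insert e (G \ F))`, so by `rk_cup_congr` (`Z = T₁ ∩ F`, `e ∈ T₁ ∩ F`)
 `p T = p ((G \ F) ∪ (T₁ ∩ F)) ≥ p T₁ = t`.  So `S (clo m G T)`, and `clo m G T = clo m G (T' ∪ F) = clo m' G' T' ∪ F` (`clo_contr`).
 `h2'`: `flat_contr`, `(X ∪ F) ∩ (X' ∪ F) = (X ∩ X') ∪ F`.
 The induction hypothesis gives `S (clo m' G' ∅ ∪ F)`, and this set is `clo m G (∅ ∪ F) = F` (`clo_contr`, `F` flat: `clo_sub_flat`).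
(c) `p (G \ F) = t + 1 - m F`: `p (insert e (G \ F)) = t + 1 - m F`, so otherwise `p (G \ F) = t - m F`, and then for ALL
 common bases `T`: `t = |T ∩ F| + |T \ F| ≤ m (T ∩ F) + p (G \ F)`, so `m (T ∩ F) = m F`, `m (insert e T) = m T`
 (`rk_ins_iff`, `e ∈ F`); but `e` is a hole.
(d) For a common basis `T` with `m (T ∪ F) ≠ t` (i.e. `F` not in the closure of `T`): `|T ∩ F| = m (T ∩ F) = m F - 1` and
 `|T \ F| = t + 1 - m F = p (T \ F)` (`|T \ F| ≤ p (G \ F)`; `m (T ∩ F) = m F` would give `m (T ∪ F) = m T` by `rk_cup_congr`), and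
 `F ∩ clo m G T = clo m G (T ∩ F)`: `⊇` clear (`clo_sub_flat`, closure monotone), and both are flats of rank `m F - 1`
 (`flat_inter`; the left one is a proper subset of `F` because `F` is not contained in `clo m G T`; `flat_lt`).  By `h2` with `F`,
 `clo m G T`: `S (clo m G (T ∩ F))`.
(e) Restriction to `F`: `m'' = m`, `p'' X = p (X ∪ (G \ F)) - p (G \ F)`, `t'' = m F - 1` (`m F ≥ 1` as `e ∈ F` is not a loop).
 `p'' F = t - (t + 1 - m F) = t''`.  Fix a common basis `T₂` with `m (insert e T₂) = t + 1`: then `m (T₂ ∪ F) = t + 1`.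
 holes: `g ∈ F`: `T` with `m (insert g T) = t + 1`; (d) applies (`m (T ∪ F) ≥ t + 1`); `T ∩ F` is a common basis of `m`, `p''`:
 `p ((T ∩ F) ∪ (G \ F)) ≥ p T = t`; and `m (insert g (T ∩ F)) = m F`: otherwise `m (insert g T) = m T`.
 `h1''`: let `T''` be a common basis of `m`, `p''` in `F`, `T = T'' ∪ (T₂ \ F)`: `|T| = t`; `p T = t` (`p (T₂ \ F) = |T₂ \ F| = p (G \ F)`,
 `rk_cup_congr`: `p T = p (T'' ∪ (G \ F)) = p'' T'' + p (G \ F) = t`); `m T = t`: `m (F ∪ (T₂ \ F)) = m (T₂ ∪ F) = t + 1 = m F + |T₂ \ F|`, so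
 (submodularity: `m (T'' ∪ (T₂ \ F)) + m F ≥ m (F ∪ (T₂ \ F)) + m T''`) `m T ≥ t`, and `m T ≤ |T| = t`.  `m (T ∪ F) ≥ t + 1`, so (d)
 gives `S (clo m G (T ∩ F))`, `T ∩ F = T''`, `clo_restr`.
 `h2''`: `flat_restr`.  The induction hypothesis (`|F| < |G|`) gives `S (clo m F ∅)`, and `clo m F ∅ = clo m G ∅` (`clo_restr`).
-/

set_option autoImplicit false

namespace Pool.Agent.CF98

open Finset Pool.Agent.DT3

variable {α : Type*} [DecidableEq α]

private theorem desc_ind_m {m p : Finset α → ℕ} {G T : Finset α} {t : ℕ} (hT : TT m p G t T) :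
    m T = T.card := by rw [hT.2.2.1, hT.2.1]

private theorem desc_ind_p {m p : Finset α → ℕ} {G T : Finset α} {t : ℕ} (hT : TT m p G t T) :
    p T = T.card := by rw [hT.2.2.2, hT.2.1]

/-- Part (b): `S F`. -/
private theorem desc_b {m p : Finset α → ℕ} {G T₁ F : Finset α} {t : ℕ} {e : α}
    {S : Finset α → Prop} (hm : RankFn m) (hp : RankFn p) (hmG : m G = t + 1)
    (hT₁ : TT m p G t T₁) (he : e ∈ T₁) (hF : IsFlat m G F) (heF : e ∈ F)
    (hsum : m F + p (insert e (G \ F)) = t + 1)
    (hholes : ∀ g ∈ G \ F, ∃ T, TT m p G t T ∧ e ∈ T ∧ m (insert g T) = t + 1)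
    (h1 : ∀ T, TT m p G t T → S (clo m G T))
    (h2 : ∀ F F', IsFlat m G F → IsFlat m G F' → S F → S F' → m F = m (F ∩ F') + 1 →
      S (F ∩ F'))
    (ih : ∀ (G' : Finset α) (m p : Finset α → ℕ) (t : ℕ) (S : Finset α → Prop), G'.card < G.card →
      RankFn m → RankFn p → m G' = t + 1 → p G' = t →
      (∀ g ∈ G', ∃ T, TT m p G' t T ∧ m (insert g T) = t + 1) →
      (∀ T, TT m p G' t T → S (clo m G' T)) →
      (∀ F F', IsFlat m G' F → IsFlat m G' F' → S F → S F' → m F = m (F ∩ F') + 1 →
        S (F ∩ F')) → S (clo m G' ∅)) : S F := by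
  have hFG : F ⊆ G := hF.1
  have hsp := fun T (hT : TT m p G t T) (heT : e ∈ T) => descA_span hm hp hsum heF hT heT
  obtain ⟨hc1, hr1⟩ := hsp T₁ hT₁ he
  have hmF : m F ≤ t := by
    rw [← hc1, ← hT₁.2.1]
    exact card_le_card inter_subset_left
  have hpe : p {e} = 1 := by
    have := ind_sub hp (desc_ind_p hT₁) (singleton_subset_iff.2 he)
    rwa [card_singleton] at this
  have hcard : (G \ F).card < G.card :=
    card_lt_card (Finset.ssubset_iff_subset_ne.2 ⟨sdiff_subset, fun h => by
      have h3 : e ∈ G \ F := by rw [h]; exact hFG heF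
      exact (mem_sdiff.1 h3).2 heF⟩)
  have key := ih (G \ F) (fun Y => m (Y ∪ F) - m F) (fun Y => p (Y ∪ {e}) - p {e}) (t - m F)
    (fun Y => S (Y ∪ F)) hcard (contr_rank hm F) (contr_rank hp {e})
    (by
      change m (G \ F ∪ F) - m F = _
      rw [sdiff_union_of_subset hFG, hmG]
      omega)
    (by
      change p (G \ F ∪ {e}) - p {e} = _
      rw [hpe, union_comm, ← insert_eq]
      omega)
    (by
      intro g hg
      obtain ⟨T, hT, heT, hgT⟩ := hholes g hg
      obtain ⟨hc, hr⟩ := hsp T hT heT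
      have hmTF : m (T ∪ F) = t := by
        have h3 := rk_cup_congr hm (inter_subset_right (s₁ := T) (s₂ := F)) hr T
        have h4 : T ∩ F ∪ T = T := union_eq_right.2 inter_subset_left
        rw [h4, union_comm] at h3
        rw [← h3, hT.2.2.1]
      have hcT : (T \ F).card = t - m F := by
        have h3 := card_sdiff_add_card_inter T F
        rw [hc, hT.2.1] at h3
        omega
      refine ⟨T \ F, ⟨?_, hcT, ?_, ?_⟩, ?_⟩
      · exact sdiff_subset_sdiff hT.1 (Subset.refl F)
      · change m (T \ F ∪ F) - m F = _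
        rw [sdiff_union_self_eq_union, hmTF]
      · change p (T \ F ∪ {e}) - p {e} = _
        rw [hpe, union_comm, ← insert_eq]
        have h3 : insert e (T \ F) ⊆ T := insert_subset heT sdiff_subset
        rw [ind_sub hp (desc_ind_p hT) h3, card_insert_of_notMem (fun h4 => (mem_sdiff.1 h4).2 heF),
          hcT]
        omega
      · change m (insert g (T \ F) ∪ F) - m F = _
        have h3 : m (insert g (T \ F) ∪ F) = t + 1 := by
          have h4 : insert g (T \ F) ∪ F = insert g (T ∪ F) := by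
            rw [insert_union, sdiff_union_self_eq_union]
          rw [h4]
          have h5 : m (insert g T) ≤ m (insert g (T ∪ F)) :=
            hm.mono _ _ (insert_subset_insert g subset_union_left)
          have h6 := hm.insert_le g (T ∪ F)
          omega
        rw [h3]
        omega)
    (by
      rintro T' ⟨hT'G, hT'c, hT'm, hT'p⟩
      change m (T' ∪ F) - m F = t - m F at hT'm
      change p (T' ∪ {e}) - p {e} = t - m F at hT'p
      change S (clo (fun Y => m (Y ∪ F) - m F) (G \ F) T' ∪ F)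
      have hmT' : m (T' ∪ F) = t := by
        have h3 := hm.mono F (T' ∪ F) subset_union_right
        omega
      have hpT' : p (insert e T') = t - m F + 1 := by
        rw [insert_eq, union_comm]
        rw [hpe] at hT'p
        have h3 := hp.mono {e} (T' ∪ {e}) subset_union_right
        omega
      have hdis : Disjoint T' (T₁ ∩ F) := by
        rw [disjoint_left]
        intro x hx hx'
        exact (mem_sdiff.1 (hT'G hx)).2 (mem_inter.1 hx').2
      have hmT : m (T' ∪ (T₁ ∩ F)) = t := by
        have h3 := rk_cup_congr hm (inter_subset_right (s₁ := T₁) (s₂ := F)) hr1 T'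
        rw [union_comm, h3, union_comm, hmT']
      have hcT : (T' ∪ (T₁ ∩ F)).card = t := by
        rw [card_union_of_disjoint hdis, hT'c, hc1]
        omega
      have heTF : e ∈ T₁ ∩ F := mem_inter.2 ⟨he, heF⟩
      have hpT : p (T' ∪ (T₁ ∩ F)) = t := by
        apply le_antisymm
        · have := hp.le_card (T' ∪ (T₁ ∩ F))
          omega
        · have h3 : insert e T' ⊆ insert e (G \ F) := insert_subset_insert e hT'G
          have h4 := rk_cup_congr hp h3 (by rw [hpT']; omega) (T₁ ∩ F)
          have h5 : insert e T' ∪ (T₁ ∩ F) = T' ∪ (T₁ ∩ F) := by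
            rw [insert_union]
            exact insert_eq_of_mem (mem_union_right _ heTF)
          rw [← h5, h4, ← hT₁.2.2.2]
          apply hp.mono
          intro x hx
          by_cases hxF : x ∈ F
          · exact mem_union_right _ (mem_inter.2 ⟨hx, hxF⟩)
          · exact mem_union_left _ (mem_insert_of_mem (mem_sdiff.2 ⟨hT₁.1 hx, hxF⟩))
      have hTT : TT m p G t (T' ∪ (T₁ ∩ F)) :=
        ⟨union_subset (hT'G.trans sdiff_subset) (inter_subset_left.trans hT₁.1), hcT, hmT, hpT⟩
      have h3 := h1 _ hTT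
      rw [clo_contr hm hF hT'G]
      have hsub : T' ∪ (T₁ ∩ F) ⊆ T' ∪ F := union_subset_union_right inter_subset_right
      have h4 : clo m G (T' ∪ (T₁ ∩ F)) = clo m G (T' ∪ F) := by
        ext x
        simp only [clo, mem_filter]
        rw [rk_ins_iff hm hsub (by rw [hmT, hmT'])]
      rwa [← h4])
    (by
      intro F₁ F₂ hF₁ hF₂ hS₁ hS₂ hr
      change S (F₁ ∪ F) at hS₁
      change S (F₂ ∪ F) at hS₂
      change m (F₁ ∪ F) - m F = m (F₁ ∩ F₂ ∪ F) - m F + 1 at hr
      change S (F₁ ∩ F₂ ∪ F)
      have h3 : F₁ ∩ F₂ ∪ F = (F₁ ∪ F) ∩ (F₂ ∪ F) := by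
        ext x; simp only [mem_union, mem_inter]; tauto
      rw [h3]
      apply h2 _ _ (flat_contr hm hF hF₁) (flat_contr hm hF hF₂) hS₁ hS₂
      rw [← h3]
      have h4 := hm.mono F (F₁ ∪ F) subset_union_right
      have h5 := hm.mono F (F₁ ∩ F₂ ∪ F) subset_union_right
      omega)
  change S (clo (fun Y => m (Y ∪ F) - m F) (G \ F) ∅ ∪ F) at key
  rw [clo_contr hm hF (empty_subset _), empty_union] at key
  have h3 : clo m G F = F := Subset.antisymm (clo_sub_flat hm hF (Subset.refl F)) (subset_clo hFG)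
  rwa [h3] at key

/-- Part (d). -/
private theorem desc_d {m p : Finset α → ℕ} {G F T : Finset α} {t : ℕ} {S : Finset α → Prop}
    (hm : RankFn m) (hp : RankFn p) (hF : IsFlat m G F) (hSF : S F)
    (hpF : p (G \ F) + m F = t + 1)
    (h1 : ∀ T, TT m p G t T → S (clo m G T))
    (h2 : ∀ F F', IsFlat m G F → IsFlat m G F' → S F → S F' → m F = m (F ∩ F') + 1 →
      S (F ∩ F')) (hT : TT m p G t T) (hTF : m (T ∪ F) ≠ t) :
    (T ∩ F).card + 1 = m F ∧ m (T ∩ F) + 1 = m F ∧ (T \ F).card = p (G \ F) ∧
      p (T \ F) = p (G \ F) ∧ S (clo m G (T ∩ F)) := by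
  have hi1 : m (T ∩ F) = (T ∩ F).card := ind_sub hm (desc_ind_m hT) inter_subset_left
  have hi2 : p (T \ F) = (T \ F).card := ind_sub hp (desc_ind_p hT) sdiff_subset
  have h3 : (T \ F).card ≤ p (G \ F) := by
    rw [← hi2]
    exact hp.mono _ _ (sdiff_subset_sdiff hT.1 (Subset.refl F))
  have h4 := card_sdiff_add_card_inter T F
  rw [hT.2.1] at h4
  have h5 : m (T ∩ F) ≤ m F := hm.mono _ _ inter_subset_right
  have h6 : m (T ∩ F) ≠ m F := by
    intro h7
    apply hTF
    have h8 := rk_cup_congr hm (inter_subset_right (s₁ := T) (s₂ := F)) h7 T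
    have h9 : T ∩ F ∪ T = T := union_eq_right.2 inter_subset_left
    rw [h9, union_comm] at h8
    rw [← h8, hT.2.2.1]
  have h7 : m (T ∩ F) + 1 = m F := by omega
  refine ⟨by omega, h7, by omega, by omega, ?_⟩
  have hcf : IsFlat m G (clo m G T) := clo_flat hm hT.1
  have hTFG : T ∩ F ⊆ G := inter_subset_left.trans hT.1
  have hcf' : IsFlat m G (clo m G (T ∩ F)) := clo_flat hm hTFG
  have hne : F ∩ clo m G T ≠ F := by
    intro h8
    apply hTF
    have h9 : F ⊆ clo m G T := by
      rw [← h8]; exact inter_subset_right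
    have h10 : T ∪ F ⊆ clo m G T := union_subset (subset_clo hT.1) h9
    have h11 := hm.mono _ _ h10
    rw [rank_clo hm hT.1, hT.2.2.1] at h11
    have h12 := hm.mono T (T ∪ F) subset_union_left
    rw [hT.2.2.1] at h12
    omega
  have hlt : m (F ∩ clo m G T) < m F :=
    flat_lt hm (flat_inter hm hF hcf) hF.1 (Finset.ssubset_iff_subset_ne.2 ⟨inter_subset_left, hne⟩)
  have hsub : clo m G (T ∩ F) ⊆ F ∩ clo m G T := by
    apply clo_sub_flat hm (flat_inter hm hF hcf)
    exact subset_inter inter_subset_right (inter_subset_left.trans (subset_clo hT.1))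
  have heq : clo m G (T ∩ F) = F ∩ clo m G T := by
    by_contra hne'
    have h8 := flat_lt hm hcf' (flat_inter hm hF hcf).1 (Finset.ssubset_iff_subset_ne.2 ⟨hsub, hne'⟩)
    rw [rank_clo hm hTFG] at h8
    omega
  rw [heq]
  apply h2 _ _ hF hcf hSF (h1 _ hT)
  rw [← heq, rank_clo hm hTFG]
  omega

theorem desc (n : ℕ) : ∀ (G : Finset α) (m p : Finset α → ℕ) (t : ℕ) (S : Finset α → Prop), G.card ≤ n →
    RankFn m → RankFn p → m G = t + 1 → p G = t →
    (∀ g ∈ G, ∃ T, TT m p G t T ∧ m (insert g T) = t + 1) →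
    (∀ T, TT m p G t T → S (clo m G T)) →
    (∀ F F', IsFlat m G F → IsFlat m G F' → S F → S F' → m F = m (F ∩ F') + 1 → S (F ∩ F')) →
    S (clo m G ∅) := by
  induction n with
  | zero =>
    intro G m p t S hn hm hp hmG hpG hh h1 h2
    have h3 : G = ∅ := card_eq_zero.1 (Nat.le_zero.1 hn)
    rw [h3, hm.empty] at hmG
    omega
  | succ n ih =>
    intro G m p t S hn hm hp hmG hpG hh h1 h2
    rcases Nat.eq_zero_or_pos t with h0 | hpos
    · subst h0
      exact h1 ∅ ⟨empty_subset _, card_empty, hm.empty, hp.empty⟩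
    have hGne : G.Nonempty := by
      rw [nonempty_iff_ne_empty]
      intro h3
      rw [h3, hm.empty] at hmG
      omega
    obtain ⟨g0, hg0⟩ := hGne
    obtain ⟨T₁, hT₁, -⟩ := hh g0 hg0
    obtain ⟨e, he⟩ : T₁.Nonempty := by
      rw [← card_pos, hT₁.2.1]
      exact hpos
    obtain ⟨F, hF, heF, hsum, hholes⟩ := descA hm hp hpG hT₁ he
    have hFG : F ⊆ G := hF.1
    have ih' : ∀ (G' : Finset α) (m p : Finset α → ℕ) (t : ℕ) (S : Finset α → Prop),
      G'.card < G.card →
      RankFn m → RankFn p → m G' = t + 1 → p G' = t →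
      (∀ g ∈ G', ∃ T, TT m p G' t T ∧ m (insert g T) = t + 1) →
      (∀ T, TT m p G' t T → S (clo m G' T)) →
      (∀ F F', IsFlat m G' F → IsFlat m G' F' → S F → S F' → m F = m (F ∩ F') + 1 →
        S (F ∩ F')) → S (clo m G' ∅) := by
      intro G' m' p' t' S' hc
      exact ih G' m' p' t' S' (by omega)
    have hSF : S F := desc_b hm hp hmG hT₁ he hF heF hsum hholes h1 h2 ih'
    -- (c)
    have hge : p (insert e (G \ F)) ≤ p (G \ F) + 1 := hp.insert_le e (G \ F)
    have hge' : p (G \ F) ≤ p (insert e (G \ F)) := hp.mono _ _ (subset_insert _ _)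
    obtain ⟨T₂, hT₂, heT₂⟩ := hh e (hFG heF)
    have hT₂F : m (T₂ ∪ F) ≠ t := by
      intro h3
      have h4 : m (insert e T₂) ≤ m (T₂ ∪ F) :=
        hm.mono _ _ (insert_subset (mem_union_right _ heF) subset_union_left)
      omega
    have hpF : p (G \ F) + m F = t + 1 := by
      by_contra hne
      have h3 : p (G \ F) + m F = t := by omega
      have hi2 : p (T₂ \ F) = (T₂ \ F).card := ind_sub hp (desc_ind_p hT₂) sdiff_subset
      have hi1 : m (T₂ ∩ F) = (T₂ ∩ F).card := ind_sub hm (desc_ind_m hT₂) inter_subset_left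
      have h4 : (T₂ \ F).card ≤ p (G \ F) := by
        rw [← hi2]
        exact hp.mono _ _ (sdiff_subset_sdiff hT₂.1 (Subset.refl F))
      have h5 := card_sdiff_add_card_inter T₂ F
      rw [hT₂.2.1] at h5
      have h6 : m (T₂ ∩ F) ≤ m F := hm.mono _ _ inter_subset_right
      have h7 : m (T₂ ∩ F) = m F := by omega
      apply hT₂F
      have h8 := rk_cup_congr hm (inter_subset_right (s₁ := T₂) (s₂ := F)) h7 T₂
      have h9 : T₂ ∩ F ∪ T₂ = T₂ := union_eq_right.2 inter_subset_left
      rw [h9, union_comm] at h8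
      rw [← h8, hT₂.2.2.1]
    have hd := fun T (hT : TT m p G t T) (hTF : m (T ∪ F) ≠ t) =>
      desc_d hm hp hF hSF hpF h1 h2 hT hTF
    obtain ⟨d1, d2, d3, d4, -⟩ := hd T₂ hT₂ hT₂F
    have hT₂F' : m (T₂ ∪ F) = t + 1 := by
      have h3 := hm.mono T₂ (T₂ ∪ F) subset_union_left
      rw [hT₂.2.2.1] at h3
      have h4 := hm.mono (T₂ ∪ F) G (union_subset hT₂.1 hFG)
      omega
    have hFne : F ≠ G := by
      intro h3
      obtain ⟨hc, -⟩ := descA_span hm hp hsum heF hT₁ he
      have h4 := card_le_card (inter_subset_left (s₁ := T₁) (s₂ := F))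
      rw [hc, hT₁.2.1, h3, hmG] at h4
      omega
    have hcard : F.card < G.card := card_lt_card (Finset.ssubset_iff_subset_ne.2 ⟨hFG, hFne⟩)
    have hmFpos : 0 < m F := by
      clear hT₂F hT₂F' hcard
      omega
    have hm1 : m F - 1 + 1 = m F := Nat.sub_add_cancel hmFpos
    have hm2 : t - p (G \ F) = m F - 1 := by
      clear hT₂F hT₂F' hcard hge hge' hsum d1 d2 d3 d4 hm1
      omega
    have hm3 : p (G \ F) + (m F - 1) = t := by
      clear hT₂F hT₂F' hcard hge hge' hsum d1 d2 d3 d4 hm2
      omega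
    clear hge hge' hsum hT₂F
    have key := ih' F m (fun Y => p (Y ∪ (G \ F)) - p (G \ F)) (m F - 1) S hcard hm
      (contr_rank hp _) hm1.symm
      (by
        change p (F ∪ G \ F) - p (G \ F) = _
        rw [union_sdiff_of_subset hFG, hpG]
        exact hm2)
      (by
        intro g hg
        obtain ⟨T, hT, hgT⟩ := hh g (hFG hg)
        have hTF : m (T ∪ F) ≠ t := by
          intro h3
          have h4 : m (insert g T) ≤ m (T ∪ F) :=
            hm.mono _ _ (insert_subset (mem_union_right _ hg) subset_union_left)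
          omega
        obtain ⟨e1, e2, e3, e4, -⟩ := hd T hT hTF
        refine ⟨T ∩ F, ⟨inter_subset_right, by omega, by omega, ?_⟩, ?_⟩
        · change p (T ∩ F ∪ G \ F) - p (G \ F) = _
          have h3 : p (T ∩ F ∪ G \ F) = t := by
            apply le_antisymm
            · rw [← hpG]
              exact hp.mono _ _ (union_subset (inter_subset_right.trans hFG) sdiff_subset)
            · rw [← hT.2.2.2]
              apply hp.mono
              intro x hx
              by_cases hxF : x ∈ F
              · exact mem_union_left _ (mem_inter.2 ⟨hx, hxF⟩)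
              · exact mem_union_right _ (mem_sdiff.2 ⟨hT.1 hx, hxF⟩)
          rw [h3]
          omega
        · have h3 : m (insert g (T ∩ F)) ≠ m (T ∩ F) := by
            intro h4
            have h5 := hm.mono_insert h4 (inter_subset_left (s₁ := T) (s₂ := F))
            rw [hgT, hT.2.2.1] at h5
            omega
          have h4 := rk_ins_ne hm h3
          omega)
      (by
        rintro T' ⟨hT'F, hT'c, hT'm, hT'p⟩
        change p (T' ∪ G \ F) - p (G \ F) = _ at hT'p
        have hpT'' : p (T' ∪ G \ F) = t := by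
          have h3 := hp.mono (G \ F) (T' ∪ G \ F) subset_union_right
          omega
        have hdis : Disjoint T' (T₂ \ F) := by
          rw [disjoint_left]
          intro x hx hx'
          exact (mem_sdiff.1 hx').2 (hT'F hx)
        have hcT : (T' ∪ T₂ \ F).card = t := by
          rw [card_union_of_disjoint hdis, hT'c, d3]
          omega
        have hpT : p (T' ∪ T₂ \ F) = t := by
          have h3 := rk_cup_congr hp (sdiff_subset_sdiff hT₂.1 (Subset.refl F)) d4 T'
          rw [union_comm, h3, union_comm, hpT'']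
        have hmT : m (T' ∪ T₂ \ F) = t := by
          apply le_antisymm
          · have := hm.le_card (T' ∪ T₂ \ F)
            omega
          · have h3 := hm.submod (T' ∪ T₂ \ F) F
            have h4 : T' ∪ T₂ \ F ∪ F = T₂ ∪ F := by
              ext x
              simp only [mem_union, mem_sdiff]
              constructor
              · rintro ((hx | hx) | hx)
                · exact Or.inr (hT'F hx)
                · exact Or.inl hx.1
                · exact Or.inr hx
              · rintro (hx | hx)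
                · by_cases hxF : x ∈ F
                  · exact Or.inr hxF
                  · exact Or.inl (Or.inr ⟨hx, hxF⟩)
                · exact Or.inr hx
            have h5 : (T' ∪ T₂ \ F) ∩ F = T' := by
              ext x
              simp only [mem_union, mem_sdiff, mem_inter]
              constructor
              · rintro ⟨hx | hx, hxF⟩
                · exact hx
                · exact absurd hxF hx.2
              · intro hx
                exact ⟨Or.inl hx, hT'F hx⟩
            rw [h4, h5, hT₂F'] at h3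
            omega
        have hTT : TT m p G t (T' ∪ T₂ \ F) :=
          ⟨union_subset (hT'F.trans hFG) (sdiff_subset.trans hT₂.1), hcT, hmT, hpT⟩
        have hTF : m (T' ∪ T₂ \ F ∪ F) ≠ t := by
          have h4 : T₂ ∪ F ⊆ T' ∪ T₂ \ F ∪ F := by
            intro x hx
            rcases mem_union.1 hx with hx | hx
            · by_cases hxF : x ∈ F
              · exact mem_union_right _ hxF
              · exact mem_union_left _ (mem_union_right _ (mem_sdiff.2 ⟨hx, hxF⟩))
            · exact mem_union_right _ hx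
          have h5 := hm.mono _ _ h4
          omega
        obtain ⟨-, -, -, -, e5⟩ := hd _ hTT hTF
        have h5 : (T' ∪ T₂ \ F) ∩ F = T' := by
          ext x
          simp only [mem_union, mem_sdiff, mem_inter]
          constructor
          · rintro ⟨hx | hx, hxF⟩
            · exact hx
            · exact absurd hxF hx.2
          · intro hx
            exact ⟨Or.inl hx, hT'F hx⟩
        rw [h5] at e5
        rwa [clo_restr hm hF hT'F])
      (by
        intro F₁ F₂ hF₁ hF₂ hS₁ hS₂ hr
        exact h2 _ _ (flat_restr hm hF hF₁) (flat_restr hm hF hF₂) hS₁ hS₂ hr)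
    rwa [clo_restr hm hF (empty_subset _)] at key

end Pool.Agent.CF98
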