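import Pool.Agent.CF98.MatInt

/-!
The first step of the descent lemma.

Let `𝒮` be the family of all `S ⊆ G` with `e ∈ S` and `m S + p (insert e (G \ S)) ≤ t + 1`.
(1) `t + 1 ≤ m S + p (insert e (G \ S))` for all `S` with `e ∈ S ⊆ G`: `T₁ ∩ S` and `insert e (T₁ \ S)` are subsets of the
independent set `T₁` (`ind_sub`), so `|T₁ ∩ S| + (|T₁ \ S| + 1) ≤ m S + p (insert e (G \ S))` (`e ∈ T₁ ∩ S`, `e ∉ T₁ \ S`).
(2) `{e} ∈ 𝒮`: `m {e} ≤ 1`, `insert e (G \ {e}) = G`, `p G = t`.
(3) `𝒮` is closed under unions: submodularity of `m` for `S`, `S'` and of `p` for `insert e (G \ S)`, `insert e (G \ S')` (union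
`insert e (G \ (S ∩ S'))`, intersection `insert e (G \ (S ∪ S'))`), and (1) for `S ∩ S'`.
Let `F` be the union of all members of `𝒮` (a member of `𝒮`; or take a member of maximal cardinality).
`F` is a flat: if `g ∈ G \ F` and `m (insert g F) = m F` then `insert g F ∈ 𝒮`.
For `g ∈ G \ F`: `m {e, g} = 2` (`m {e} = 1` by `ind_sub`; if `m {g, e} = m {e}` then `m (insert g F) = m F` by
`RankFn.mono_insert`).  Apply `matInt` to the ground set `G₁ = (G.erase e).erase g`, to
`m₁ X = m (X ∪ {e, g}) - m {e, g}`, `p₁ X = p (X ∪ {e}) - p {e}` (`DT3.contr_rank`; `p {e} = 1` by `ind_sub`) and to `k = t - 1`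
(`t = |T₁| ≥ 1`): for `S ⊆ G₁`, `S⁺ = S ∪ {e, g}` is not in `𝒮` (it is not a subset of `F`), so
`t + 2 ≤ m S⁺ + p (insert e (G \ S⁺))` and `G₁ \ S = G \ S⁺`.  For the set `T'` obtained put `T = insert e T'`:
`m (insert g T) = m₁ T' + 2 = t + 1`, so `m T = t` (`insert_le`, `RankFn.le_card`), `p T = p₁ T' + 1 = t`.

`descA_span`: `|T ∩ F| = m (T ∩ F) ≤ m F` and `|T \ F| + 1 = p (insert e (T \ F)) ≤ p (insert e (G \ F))` (`ind_sub`; `insert e (T \ F) ⊆ T`,
`e ∈ F`); the sum of the left sides is `|T| + 1 = t + 1`, so there is equality.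
-/

set_option autoImplicit false

namespace Pool.Agent.CF98

open Finset Pool.Agent.DT3

variable {α : Type*} [DecidableEq α] {m p : Finset α → ℕ} {G T₁ : Finset α} {t : ℕ} {e : α}

private theorem descA_bd (hm : RankFn m) (hp : RankFn p) {T S : Finset α}
    (hT : TT m p G t T) (he : e ∈ T) (heS : e ∈ S) :
    (T ∩ S).card = m (T ∩ S) ∧ m (T ∩ S) ≤ m S ∧
      (T \ S).card + 1 ≤ p (insert e (G \ S)) ∧ (T \ S).card + (T ∩ S).card = t := by
  obtain ⟨h1, h2, h3, h4⟩ := hT
  have h5 : m (T ∩ S) = (T ∩ S).card := ind_sub hm (by rw [h3, h2]) inter_subset_left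
  have h6 : insert e (T \ S) ⊆ T := insert_subset he sdiff_subset
  have h7 : p (insert e (T \ S)) = (insert e (T \ S)).card := ind_sub hp (by rw [h4, h2]) h6
  have h8 : e ∉ T \ S := fun h => (mem_sdiff.1 h).2 heS
  rw [card_insert_of_notMem h8] at h7
  have h9 : p (insert e (T \ S)) ≤ p (insert e (G \ S)) :=
    hp.mono _ _ (insert_subset_insert e (sdiff_subset_sdiff h1 (Subset.refl S)))
  have h10 := card_sdiff_add_card_inter T S
  have h11 := hm.mono (T ∩ S) S inter_subset_right
  refine ⟨h5.symm, h11, ?_, ?_⟩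
  · omega
  · omega

theorem descA (hm : RankFn m) (hp : RankFn p) (hpG : p G = t) (hT : TT m p G t T₁) (he : e ∈ T₁) :
    ∃ F, IsFlat m G F ∧ e ∈ F ∧ m F + p (insert e (G \ F)) = t + 1 ∧
      ∀ g ∈ G \ F, ∃ T, TT m p G t T ∧ e ∈ T ∧ m (insert g T) = t + 1 := by
  classical
  have heG : e ∈ G := hT.1 he
  have hbd : ∀ S, e ∈ S → t + 1 ≤ m S + p (insert e (G \ S)) := by
    intro S heS
    obtain ⟨h1, h2, h3, h4⟩ := descA_bd hm hp hT he heS
    omega
  have hme : m {e} = 1 := by
    have h1 : m {e} = ({e} : Finset α).card :=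
      ind_sub hm (by rw [hT.2.2.1, hT.2.1]) (singleton_subset_iff.2 he)
    rw [h1, card_singleton]
  have hpe : p {e} = 1 := by
    have h1 : p {e} = ({e} : Finset α).card :=
      ind_sub hp (by rw [hT.2.2.2, hT.2.1]) (singleton_subset_iff.2 he)
    rw [h1, card_singleton]
  have ht : 1 ≤ t := by
    rw [← hT.2.1]
    exact card_pos.2 ⟨e, he⟩
  set 𝒮 : Finset (Finset α) :=
    G.powerset.filter (fun S => e ∈ S ∧ m S + p (insert e (G \ S)) ≤ t + 1) with h𝒮
  have hmemS : ∀ S, S ∈ 𝒮 ↔ S ⊆ G ∧ e ∈ S ∧ m S + p (insert e (G \ S)) ≤ t + 1 := by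
    intro S
    rw [h𝒮, mem_filter, mem_powerset]
  have hne : 𝒮.Nonempty := by
    refine ⟨{e}, (hmemS _).2 ⟨singleton_subset_iff.2 heG, mem_singleton_self e, ?_⟩⟩
    have h1 : insert e (G \ {e}) = G := by
      rw [sdiff_singleton_eq_erase, insert_erase heG]
    rw [h1, hme, hpG]
    omega
  obtain ⟨F, hF, hFm⟩ := exists_max_image 𝒮 card hne
  obtain ⟨hFG, heF, hFle⟩ := (hmemS F).1 hF
  have hmax : ∀ S ∈ 𝒮, S ⊆ F := by
    intro S hS
    obtain ⟨hSG, heS, hSle⟩ := (hmemS S).1 hS
    have h1 : S ∪ F ∈ 𝒮 := by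
      refine (hmemS _).2 ⟨union_subset hSG hFG, mem_union_left _ heS, ?_⟩
      have h2 := hm.submod S F
      have h3 := hp.submod (insert e (G \ S)) (insert e (G \ F))
      have h4 : insert e (G \ S) ∪ insert e (G \ F) = insert e (G \ (S ∩ F)) := by
        ext x
        simp only [mem_union, mem_insert, mem_sdiff, mem_inter]
        tauto
      have h5 : insert e (G \ S) ∩ insert e (G \ F) = insert e (G \ (S ∪ F)) := by
        ext x
        simp only [mem_union, mem_insert, mem_sdiff, mem_inter]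
        tauto
      rw [h4, h5] at h3
      have h6 := hbd (S ∩ F) (mem_inter.2 ⟨heS, heF⟩)
      omega
    have h2 := hFm _ h1
    have h3 : F = S ∪ F := eq_of_subset_of_card_le subset_union_right h2
    rw [h3]
    exact subset_union_left
  have hflat : ∀ g ∈ G \ F, m F < m (insert g F) := by
    intro g hg
    by_contra hc
    rw [not_lt] at hc
    have hgG := (mem_sdiff.1 hg).1
    have h1 : insert g F ∈ 𝒮 := by
      refine (hmemS _).2 ⟨insert_subset hgG hFG, mem_insert_of_mem heF, ?_⟩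
      have h2 : p (insert e (G \ insert g F)) ≤ p (insert e (G \ F)) :=
        hp.mono _ _ (insert_subset_insert e
          (sdiff_subset_sdiff (Subset.refl G) (subset_insert g F)))
      omega
    exact (mem_sdiff.1 hg).2 (hmax _ h1 (mem_insert_self g F))
  refine ⟨F, ⟨hFG, hflat⟩, heF, le_antisymm hFle (hbd F heF), ?_⟩
  intro g hg
  have hgG := (mem_sdiff.1 hg).1
  have hgF := (mem_sdiff.1 hg).2
  have hge : g ≠ e := by
    rintro rfl
    exact hgF heF
  have hmge : m (insert g {e}) = 2 := by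
    have h1 : m (insert g {e}) ≠ m {e} := by
      intro h2
      have h3 := hm.mono_insert h2 (singleton_subset_iff.2 heF)
      have h4 := hflat g hg
      omega
    rw [rk_ins_ne hm h1, hme]
  set G₁ : Finset α := (G.erase e).erase g with hG₁
  have hmemG₁ : ∀ x, x ∈ G₁ ↔ x ≠ g ∧ x ≠ e ∧ x ∈ G := by
    intro x
    rw [hG₁, mem_erase, mem_erase]
  obtain ⟨T', hT'G, hT'c, hT'm, hT'p⟩ := matInt G₁.card G₁
    (fun Y => m (Y ∪ insert g {e}) - m (insert g {e})) (fun Y => p (Y ∪ {e}) - p {e}) (t - 1)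
    le_rfl (contr_rank hm _) (contr_rank hp _) (by
      intro S hS
      have h1 : S ∪ insert g {e} ∉ 𝒮 := by
        intro h2
        exact hgF (hmax _ h2 (mem_union_right _ (mem_insert_self g {e})))
      have hSG : S ∪ insert g {e} ⊆ G := by
        refine union_subset ?_ (insert_subset hgG (singleton_subset_iff.2 heG))
        intro x hx
        exact ((hmemG₁ x).1 (hS hx)).2.2
      have heS : e ∈ S ∪ insert g {e} :=
        mem_union_right _ (mem_insert_of_mem (mem_singleton_self e))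
      have h2 : t + 2 ≤ m (S ∪ insert g {e}) + p (insert e (G \ (S ∪ insert g {e}))) := by
        by_contra hc
        exact h1 ((hmemS _).2 ⟨hSG, heS, by omega⟩)
      have h3 : (G₁ \ S) ∪ {e} = insert e (G \ (S ∪ insert g {e})) := by
        ext x
        simp only [mem_union, mem_insert, mem_sdiff, hmemG₁, mem_singleton]
        tauto
      have h4 : m (insert g {e}) ≤ m (S ∪ insert g {e}) := hm.mono _ _ subset_union_right
      have h5 : p {e} ≤ p ((G₁ \ S) ∪ {e}) := hp.mono _ _ subset_union_right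
      change t - 1 ≤ (m (S ∪ insert g {e}) - m (insert g {e})) +
        (p ((G₁ \ S) ∪ {e}) - p {e})
      rw [h3] at h5 ⊢
      omega)
  change m (T' ∪ insert g {e}) - m (insert g {e}) = t - 1 at hT'm
  change p (T' ∪ {e}) - p {e} = t - 1 at hT'p
  have heT' : e ∉ T' := fun h => ((hmemG₁ e).1 (hT'G h)).2.1 rfl
  have hTc : (insert e T').card = t := by
    rw [card_insert_of_notMem heT', hT'c]
    omega
  have h1 : insert g (insert e T') = T' ∪ insert g {e} := by
    ext x
    simp only [mem_union, mem_insert, mem_singleton]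
    tauto
  have h2 : insert e T' = T' ∪ {e} := by
    ext x
    simp only [mem_union, mem_insert, mem_singleton]
    tauto
  have h3 : m (insert g {e}) ≤ m (T' ∪ insert g {e}) := hm.mono _ _ subset_union_right
  have h4 : p {e} ≤ p (T' ∪ {e}) := hp.mono _ _ subset_union_right
  have h5 : m (insert g (insert e T')) = t + 1 := by
    rw [h1]
    omega
  have h6 := hm.insert_le g (insert e T')
  have h7 := hm.le_card (insert e T')
  refine ⟨insert e T', ⟨?_, hTc, ?_, ?_⟩, mem_insert_self e T', h5⟩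
  · refine insert_subset heG ?_
    intro x hx
    exact ((hmemG₁ x).1 (hT'G hx)).2.2
  · omega
  · rw [h2]
    omega

/-- Every common basis containing `e` spans `F`. -/
theorem descA_span (hm : RankFn m) (hp : RankFn p) {F T : Finset α}
    (hF : m F + p (insert e (G \ F)) = t + 1) (heF : e ∈ F) (hT : TT m p G t T) (he : e ∈ T) :
    (T ∩ F).card = m F ∧ m (T ∩ F) = m F := by
  obtain ⟨h1, h2, h3, h4⟩ := descA_bd hm hp hT he heF
  constructor
  · omega
  · omega

end Pool.Agent.CF98
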