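import Pool.Agent.CF98.SplitA

/-!
Critical sunflowers of the two pieces.  `X ⊆ E` tight.  `X` is a flat of `E`: if `e ∈ E \ X`, `r (insert e X) = r X` then `|insert e X| = 3 r X + 1`.

* `sun_res`: `Sun r X → Sun r E`: flats of `X` are flats of `E` (`flat_restr`).
* `sun_con`: `Sun r' (E \ X) → Sun r E`: replace `T`, `Z i` by `T ∪ X`, `Z i ∪ X` (`flat_contr`); `|Z i ∪ X| + 1 = |Z i| + 1 + |X| = 3 r' (Z i) + 3 r X = 3 r (Z i ∪ X)`
  (`r X ≤ r (Z i ∪ X)`), `(Z i ∪ X) ∩ (Z j ∪ X) = (Z i ∩ Z j) ∪ X`.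
-/

set_option autoImplicit false

namespace Pool.Agent.CF98

open Finset Pool.Agent.DT3

variable {α : Type*} [DecidableEq α] {r : Finset α → ℕ} {E X : Finset α} {f : ℕ}

theorem tight_flat (hE : Env r E f) (hX : X ⊆ E) (ht : X.card = 3 * r X) : IsFlat r E X := by
  refine ⟨hX, fun e he => ?_⟩
  have he' := mem_sdiff.1 he
  have h1 := hE.three (insert e X) (insert_subset he'.1 hX)
  rw [card_insert_of_notMem he'.2] at h1
  omega

theorem sun_res (hE : Env r E f) (hX : X ⊆ E) (ht : X.card = 3 * r X) (h : Sun r X) : Sun r E := by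
  obtain ⟨T, Z, hT, hT', hZ, hd⟩ := h
  exact ⟨T, Z, hT.trans hX, hT',
    fun i => ⟨flat_restr hE.rk (tight_flat hE hX ht) (hZ i).1, (hZ i).2⟩, hd⟩

theorem sun_con (hE : Env r E f) (hX : X ⊆ E) (ht : X.card = 3 * r X)
    (h : Sun (fun Y => r (Y ∪ X) - r X) (E \ X)) : Sun r E := by
  obtain ⟨T, Z, hT, hT', hZ, hd⟩ := h
  have hge : ∀ Y : Finset α, r X ≤ r (Y ∪ X) := fun Y => hE.rk.mono X (Y ∪ X) subset_union_right
  have hcd : ∀ Y : Finset α, Y ⊆ E \ X → (Y ∪ X).card = Y.card + X.card := fun Y hY =>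
    card_union_of_disjoint (disjoint_of_subset_left hY sdiff_disjoint)
  refine ⟨T ∪ X, fun i => Z i ∪ X, union_subset (hT.trans sdiff_subset) hX, ?_,
    fun i => ⟨flat_contr hE.rk (tight_flat hE hX ht) (hZ i).1, ?_⟩, fun i j hij => ?_⟩
  · have h1 : T.card = 3 * (r (T ∪ X) - r X) := hT'
    have h2 := hge T
    rw [hcd T hT]
    omega
  · have h1 : (Z i).card + 1 = 3 * (r (Z i ∪ X) - r X) := (hZ i).2
    have h2 := hge (Z i)
    have h3 := hcd (Z i) (hZ i).1.1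
    simp only
    rw [h3]
    omega
  · simp only
    rw [← inter_union_distrib_right, hd i j hij]

end Pool.Agent.CF98
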