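import Pool.Agent.CF98.StrictThm
import Pool.Agent.CF98.SplitB

/-!
The fibre theorem: if there is no critical sunflower then all good bases are in one class.

Proof.  Induction on `|E|`, for all `r`, `E`, `f`, `Q`.  If `Strict r E`: `strict_thm`, `crit3_sun`.  Otherwise there is `X ⊆ E`, `X ≠ ∅`, `X ≠ E` with
`3 r X < |X| + 1`, so `|X| = 3 r X` (`Env.three`).  `|X| < |E|`, `|E \ X| < |E|`.
Let `A₁ = A ∩ X`, `A₂ = A \ X`, `B₁ = B ∩ X`, `B₂ = B \ X` (good: `gd_res`, `gd_con`), `A = A₁ ∪ A₂`.
(1) `Q (B₁ ∪ A₂)`: the induction hypothesis for `X`, `Q₁ S = Q (S ∪ A₂)` (preserved: `stp_glue_left`), `sun_res`.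
(2) `Q (B₁ ∪ B₂)`: the induction hypothesis for `E \ X`, `Q₂ S = Q (B₁ ∪ S)` (`stp_glue_right`), `sun_con`.
-/

set_option autoImplicit false

namespace Pool.Agent.CF98

open Finset Pool.Agent.DT3

variable {α : Type*} [DecidableEq α]

theorem fibre (n : ℕ) : ∀ (E : Finset α) (r : Finset α → ℕ) (f : ℕ) (Q : Finset α → Prop)
    (A B : Finset α), E.card ≤ n → Env r E f → ¬ Sun r E →
    (∀ A A', Stp r E f A A' → Q A → Q A') → Gd r E f A → Gd r E f B → Q A → Q B := by
  induction n with
  | zero =>
    intro E r f Q A B hn hE hns hQ hA hB hQA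
    have hE0 : E = ∅ := by
      rw [← card_eq_zero]
      omega
    have hA0 : A = ∅ := subset_empty.1 (hE0 ▸ hA.1)
    have hB0 : B = ∅ := subset_empty.1 (hE0 ▸ hB.1)
    rw [hB0, ← hA0]
    exact hQA
  | succ n ih =>
    intro E r f Q A B hn hE hns hQ hA hB hQA
    by_cases hs : Strict r E
    · exact strict_thm hE hs (fun h => hns (crit3_sun hE hs h)) hQ hA hB hQA
    · unfold Strict at hs
      push Not at hs
      obtain ⟨X, hX, hne, hXE, hlt⟩ := hs
      have ht : X.card = 3 * r X := by
        have := hE.three X hX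
        omega
      have hXc : X.card < E.card := card_lt_card (hX.ssubset_of_ne hXE)
      have hXp : 0 < X.card := hne.card_pos
      have hdc : (E \ X).card < E.card := by
        rw [card_sdiff_of_subset hX]
        omega
      have hA1 := gd_res hE hX ht hA
      have hA2 := gd_con hE hX ht hA
      have hB1 := gd_res hE hX ht hB
      have hB2 := gd_con hE hX ht hB
      have hAu : A ∩ X ∪ A \ X = A := by
        rw [union_comm]
        exact sdiff_union_inter A X
      have hBu : B ∩ X ∪ B \ X = B := by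
        rw [union_comm]
        exact sdiff_union_inter B X
      have h1 : Q (B ∩ X ∪ A \ X) := by
        refine ih X r (r X) (fun S => Q (S ∪ A \ X)) (A ∩ X) (B ∩ X) (by omega)
          (env_res hE hX ht) (fun h => hns (sun_res hE hX ht h)) ?_ hA1 hB1 ?_
        · intro S S' hS hq
          exact hQ _ _ (stp_glue_left hE hX ht hS hA2) hq
        · show Q (A ∩ X ∪ A \ X)
          rw [hAu]
          exact hQA
      have h2 : Q (B ∩ X ∪ B \ X) := by
        refine ih (E \ X) (fun Y => r (Y ∪ X) - r X) (f - r X) (fun S => Q (B ∩ X ∪ S))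
          (A \ X) (B \ X) (by omega) (env_con hE hX ht)
          (fun h => hns (sun_con hE hX ht h)) ?_ hA2 hB2 h1
        intro S S' hS hq
        exact hQ _ _ (stp_glue_right hE hX ht hB1 hS) hq
      rw [hBu] at h2
      exact h2

end Pool.Agent.CF98
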