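import Pool.Agent.CF98.Main
import Pool.Agent.DT3.Main

/-!
The toric ideal of a finite matroid of positive rank is generated by the quadrics together with the cubic binomials whose multidegree
has a critical sunflower for `M` and for the dual.
-/

set_option autoImplicit false

namespace Pool.Agent.CF98

open Finset MvPolynomial Pool.Agent.H94 Pool.Agent.WD

variable {α : Type*} [DecidableEq α] {K : Type*} [Field K]

private theorem gen_count {m : ℕ} (B : Fin (m + 1) → Finset α) (i : Fin (m + 1)) (z : α) :
    (univ.filter (fun k => z ∈ B k)).card =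
      (if z ∈ B i then 1 else 0) + (univ.filter (fun k : Fin m => z ∈ B (i.succAbove k))).card := by
  rw [card_filter, card_filter, Fin.sum_univ_succAbove _ i]

private theorem gen_step (M : Matroid α) (I : Ideal (MvPolynomial (Bases M) K)) {m : ℕ}
    (ih : ∀ B D : Fin m → Bases M, SameContent (fun k => (B k).1) (fun k => (D k).1) →
      (∏ k, (X (B k) : MvPolynomial (Bases M) K)) - ∏ k, X (D k) ∈ I)
    (B D : Fin (m + 1) → Bases M) (h : SameContent (fun k => (B k).1) (fun k => (D k).1))
    {i j : Fin (m + 1)} (hij : B i = D j) :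
    (∏ k, (X (B k) : MvPolynomial (Bases M) K)) - ∏ k, X (D k) ∈ I := by
  rw [Fin.prod_univ_succAbove _ i, Fin.prod_univ_succAbove (fun k => X (D k)) j, hij, ← mul_sub]
  refine Ideal.mul_mem_left _ _ (ih _ _ ?_)
  intro z
  have h1 := h z
  rw [gen_count (fun k => (B k).1) i, gen_count (fun k => (D k).1) j] at h1
  simp only [hij] at h1
  exact Nat.add_left_cancel h1

private theorem gen_chain (M : Matroid α) (I : Ideal (MvPolynomial (Bases M) K)) {m : ℕ}
    (ih : ∀ B D : Fin m → Bases M, SameContent (fun k => (B k).1) (fun k => (D k).1) →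
      (∏ k, (X (B k) : MvPolynomial (Bases M) K)) - ∏ k, X (D k) ∈ I)
    {B D : Fin (m + 1) → Finset α}
    (hs : Relation.ReflTransGen (ShareStep (fun S : Finset α => M.IsBase (S : Set α))) B D)
    (hB : ∀ k, M.IsBase (B k : Set α)) : ∀ hD : ∀ k, M.IsBase (D k : Set α),
    (∏ k, (X (⟨B k, hB k⟩ : Bases M) : MvPolynomial (Bases M) K)) -
      ∏ k, X (⟨D k, hD k⟩ : Bases M) ∈ I := by
  induction hs with
  | refl => intro hD; rw [sub_self]; exact zero_mem _
  | tail h1 h2 ih2 =>
    intro hD
    obtain ⟨hP, hQ, hPQ, i, j, hij⟩ := h2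
    have e1 := ih2 hP
    have e2 := gen_step (K := K) M I ih (fun k => ⟨_, hP k⟩) (fun k => ⟨_, hD k⟩) hPQ
      (i := i) (j := j) (Subtype.ext hij)
    have := add_mem e1 e2
    rw [sub_add_sub_cancel] at this
    exact this

private theorem gen_all (M : Matroid α) (I : Ideal (MvPolynomial (Bases M) K)) {d : ℕ}
    (hI : ∀ m ≤ d, ∀ B D : Fin m → Bases M, SameContent (fun k => (B k).1) (fun k => (D k).1) →
      (∏ k, (X (B k) : MvPolynomial (Bases M) K)) - ∏ k, X (D k) ∈ I)
    (h : ShareConn (fun B : Finset α => M.IsBase (B : Set α)) d) (m : ℕ) :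
    ∀ B D : Fin m → Bases M, SameContent (fun k => (B k).1) (fun k => (D k).1) →
      (∏ k, (X (B k) : MvPolynomial (Bases M) K)) - ∏ k, X (D k) ∈ I := by
  induction m with
  | zero => exact hI 0 (Nat.zero_le _)
  | succ m ih =>
    intro B D hBD
    by_cases hm : m + 1 ≤ d
    · exact hI (m + 1) hm B D hBD
    · rw [not_le] at hm
      have h1 := h (m + 1) hm (fun k => (B k).1) (fun k => (D k).1) (fun k => (B k).2)
        (fun k => (D k).2) hBD
      exact gen_chain (K := K) M I ih h1 (fun k => (B k).2) (fun k => (D k).2)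

/-- An ideal that contains all binomials of tuples of length at most `d` contains the toric ideal,
if longer tuples are connected. -/
theorem toric_le_of_shareConn (M : Matroid α) [M.RankPos] [M.RankFinite]
    (I : Ideal (MvPolynomial (Bases M) K)) {d : ℕ}
    (hI : ∀ m ≤ d, ∀ B D : Fin m → Bases M, SameContent (fun k => (B k).1) (fun k => (D k).1) →
      (∏ k, (X (B k) : MvPolynomial (Bases M) K)) - ∏ k, X (D k) ∈ I)
    (h : ShareConn (fun B : Finset α => M.IsBase (B : Set α)) d) :
    toricIdeal K M ≤ I := by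
  refine ker_le M _ ?_
  intro u v huv
  obtain ⟨m, B, rfl⟩ := exists_tuple u
  obtain ⟨m', D, rfl⟩ := exists_tuple v
  rw [expo_tuple, expo_tuple] at huv
  obtain ⟨B0, hB0⟩ := M.exists_isBase
  have hcard : ∀ B : Bases M, B.1.card = B0.ncard := by
    intro B
    rw [← B.2.ncard_eq_ncard_of_isBase hB0, Set.ncard_coe_finset]
  have hpos : 0 < B0.ncard := by
    rw [Set.ncard_pos hB0.finite]
    exact hB0.nonempty
  have hm : m * B0.ncard = m' * B0.ncard := by
    rw [← tuple_degree (fun k => (B k).1) (fun k => hcard (B k)),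
      ← tuple_degree (fun k => (D k).1) (fun k => hcard (D k)), huv]
  have hmm : m = m' := Nat.eq_of_mul_eq_mul_right hpos hm
  subst hmm
  have e3 := gen_all (K := K) M I hI h m B D (by
    intro z
    change (univ.filter (fun k => z ∈ (B k).1)).card = (univ.filter (fun k => z ∈ (D k).1)).card
    rw [← tuple_apply, ← tuple_apply, huv])
  rw [monomial_sum_one, monomial_sum_one]
  exact e3

private theorem one_eq (M : Matroid α) (B D : Fin 1 → Bases M)
    (h : SameContent (fun k => (B k).1) (fun k => (D k).1)) : B = D := by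
  funext k
  rw [Subsingleton.elim k 0]
  apply Subtype.ext
  ext z
  have h1 := h z
  rw [gen_count (fun k => (B k).1) 0, gen_count (fun k => (D k).1) 0] at h1
  simp only [univ_eq_empty, filter_empty, card_empty, add_zero] at h1
  constructor
  · intro h2
    by_contra h3
    rw [if_pos h2, if_neg h3] at h1
    exact one_ne_zero h1
  · intro h2
    by_contra h3
    rw [if_pos h2, if_neg h3] at h1
    exact one_ne_zero h1.symm

/-- Generators of the toric ideal: quadrics and the cubic binomials with critical sunflowers. -/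
theorem gens (K : Type*) [Field K] (M : Matroid α) [M.Finite] [M.RankPos] :
    toricIdeal K M = Ideal.span
      ({f | f ∈ toricIdeal K M ∧ f.IsHomogeneous 2} ∪
        {f | f ∈ toricIdeal K M ∧ ∃ B D : Fin 3 → Bases M,
          f = (∏ k, (X (B k) : MvPolynomial (Bases M) K)) - ∏ k, X (D k) ∧
          CritSun M (cont fun k => (B k).1) ∧
          CritSun M✶ (fun e => 3 - cont (fun k => (B k).1) e)}) := by
  apply le_antisymm
  · obtain ⟨m, hm⟩ : ∃ m : ℕ, M.eRank ≤ (m : ℕ∞) := by
      obtain ⟨B, hB⟩ := M.exists_isBase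
      refine ⟨B.ncard, ?_⟩
      rw [← hB.encard_eq_eRank, hB.finite.cast_ncard_eq]
    have hS : ∀ q, 3 ≤ q → WL.S1 (α × ℕ) q m := by
      intro q hq
      obtain ⟨p, rfl⟩ : ∃ p, q = p + 1 := ⟨q - 1, by omega⟩
      exact DT3.s1_all (α × ℕ) (by omega) m
    refine toric_le_of_shareConn M _ ?_ (WL.shareConn_of_S1 (by norm_num) hS hm)
    intro n hn B D hBD
    have hmem := tuple_sub_mem (K := K) M B D hBD
    have h4 : n = 0 ∨ n = 1 ∨ n = 2 ∨ n = 3 := by omega
    rcases h4 with rfl | rfl | rfl | rfl
    · have : B = D := Subsingleton.elim _ _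
      rw [this, sub_self]
      exact zero_mem _
    · rw [one_eq M B D hBD, sub_self]
      exact zero_mem _
    · exact Ideal.subset_span (Or.inl hmem)
    · by_cases hs : CritSun M (cont fun k => (B k).1) ∧
          CritSun M✶ (fun e => 3 - cont (fun k => (B k).1) e)
      · exact Ideal.subset_span (Or.inr ⟨hmem.1, B, D, rfl, hs⟩)
      · exact Ideal.span_mono Set.subset_union_left (main M B D hmem.1 hs)
  · rw [Ideal.span_le]
    rintro f (⟨hf, -⟩ | ⟨hf, -⟩)
    · exact hf
    · exact hf

end Pool.Agent.CF98
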