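import Pool.Agent.CF98.Rk0
import Pool.Agent.DT3.AppT

/-!
`Y` is strict: `|X| + 1 ≤ 2 r X` for `∅ ≠ X ⊆ Y`; `|Y| = 2 f - 1`.  For every non-loop `g` with `r (insert g Y) = f` there is a
basis of `Y` whose complement `T` in `Y` has `f - 1` elements and `r (insert g T) = f`.

Proof.  Let `φ : Option α → α`, `φ none = g`, `φ (some x) = x`, `R X = r (X.image φ)` (`rk_img`), `E' = insert none (Y.image some)`:
`|E'| = 2 f`.  For `X ⊆ E'`: let `X₀ ⊆ Y` be the set of the `x` with `some x ∈ X`.  If `none ∉ X` then `|X| = |X₀| ≤ 2 r X₀ = 2 R X`.  If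
`none ∈ X`: `|X| = |X₀| + 1 ≤ 2 r X₀ ≤ 2 R X` if `X₀ ≠ ∅`, and `|X| = 1 ≤ 2 R X` if `X₀ = ∅` (`g` is not a loop).  `R X ≤ R E' = f`.
`DT3.parts_any` with `m = 2`, `k = f`: `B 0`, `B 1`; let `none ∈ B i`, `T` the set of the `x` with `some x ∈ B i`: `|T| = f - 1`,
`r (insert g T) = R (B i) = f`, and `Y \ T` is the set of the `x` with `some x ∈ B (1 - i)`, of rank `f`.
`r T + 1 = f` by `insert_le` and `RankFn.le_card`.
-/

set_option autoImplicit false

namespace Pool.Agent.CF98

open Finset Pool.Agent.DT3

variable {α : Type*} [DecidableEq α] {r : Finset α → ℕ} {Y : Finset α} {f : ℕ} {g : α}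

private lemma hol_img0 {X : Finset (Option α)} (h : none ∉ X) :
    X.image (fun o => o.getD g) = eraseNone X := by
  ext x
  simp only [mem_image, mem_eraseNone]
  constructor
  · rintro ⟨o, ho, rfl⟩
    cases o with
    | none => exact absurd ho h
    | some y => exact ho
  · intro hx
    exact ⟨some x, hx, rfl⟩

private lemma hol_img1 {X : Finset (Option α)} (h : none ∈ X) :
    X.image (fun o => o.getD g) = insert g (eraseNone X) := by
  ext x
  simp only [mem_image, mem_insert, mem_eraseNone]
  constructor
  · rintro ⟨o, ho, rfl⟩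
    cases o with
    | none => exact Or.inl rfl
    | some y => exact Or.inr ho
  · rintro (rfl | hx)
    · exact ⟨none, h, rfl⟩
    · exact ⟨some x, hx, rfl⟩

theorem holes (h : RankFn r) (hY : Y.card + 1 = 2 * f)
    (hs : ∀ X ⊆ Y, X.Nonempty → X.card + 1 ≤ 2 * r X) (hg : 0 < r {g}) (hr : r (insert g Y) = f) :
    ∃ T ⊆ Y, T.card + 1 = f ∧ r T + 1 = f ∧ r (Y \ T) = f ∧ r (insert g T) = f := by
  classical
  have hR := rk_img (β := Option α) h (fun o => o.getD g)
  have hsub : ∀ X ⊆ insertNone Y, eraseNone X ⊆ Y := by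
    intro X hX x hx
    have := hX (mem_eraseNone.1 hx)
    simpa using this
  obtain ⟨B, hB1, hB2, hB3, hB4⟩ := parts_any hR (k := f) (m := 2) (insertNone Y)
    (by rw [card_insertNone]; omega)
    (by
      intro X hX
      have h1 := hsub X hX
      by_cases hn : none ∈ X
      · have h2 := card_eraseNone_of_mem hn
        have h3 : 0 < X.card := card_pos.2 ⟨none, hn⟩
        simp only [hol_img1 hn]
        rcases (eraseNone X).eq_empty_or_nonempty with he | hne
        · rw [he, card_empty] at h2
          rw [he, insert_empty_eq]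
          omega
        · have h4 := hs _ h1 hne
          have h5 := h.mono _ _ (subset_insert g (eraseNone X))
          omega
      · have h2 := card_eraseNone_of_not_mem hn
        simp only [hol_img0 hn]
        rcases (eraseNone X).eq_empty_or_nonempty with he | hne
        · rw [he, card_empty] at h2
          omega
        · have h4 := hs _ h1 hne
          omega)
    (by
      intro X hX
      rw [← hr]
      refine h.mono _ _ fun x hx => ?_
      rw [mem_image] at hx
      obtain ⟨o, ho, rfl⟩ := hx
      cases o with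
      | none => exact mem_insert_self _ _
      | some y => exact mem_insert_of_mem (by simpa using hX ho))
  obtain ⟨i, hi⟩ := hB4 none (by simp)
  obtain ⟨j, hij⟩ : ∃ j : Fin 2, j ≠ i := exists_ne i
  have hj : none ∉ B j := fun hj => disjoint_left.1 (hB3 j i hij) hj hi
  have h1 := card_eraseNone_of_mem hi
  have h2 := (hB2 i).2
  have h3 := (hB2 j).2
  have h2' := (hB2 i).1
  have h0 : 0 < (B i).card := card_pos.2 ⟨none, hi⟩
  rw [hol_img1 hi] at h2
  rw [hol_img0 hj] at h3
  have h4 : Y \ eraseNone (B i) = eraseNone (B j) := by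
    ext x
    rw [mem_sdiff, mem_eraseNone, mem_eraseNone]
    constructor
    · rintro ⟨hx, hxi⟩
      obtain ⟨k, hk⟩ := hB4 (some x) (by simpa using hx)
      have : k = i ∨ k = j := by omega
      rcases this with rfl | rfl
      · exact absurd hk hxi
      · exact hk
    · intro hx
      refine ⟨by simpa using hB1 j hx, fun hx' => ?_⟩
      exact disjoint_left.1 (hB3 j i hij) hx hx'
  have h5 := h.insert_le g (eraseNone (B i))
  have h6 := h.le_card (eraseNone (B i))
  refine ⟨eraseNone (B i), hsub _ (hB1 i), by omega, by omega, by rw [h4]; exact h3, h2⟩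

end Pool.Agent.CF98
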