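import Pool.Agent.CF98.Skew
import Pool.Agent.CF98.Circ
import Pool.Agent.CF98.Good

/-!
Lemma LC (note 1307, helper22).  `Q` is a property of sets preserved by `Stp`; `X1 = KK r f U Q G` the set of the `b ∈ G`, outside the
closure of `U`, with `G - b` a basis in `Q`.  Claim: no element of `X1` is a coloop of `X1` modulo `U`.

Proof.  `Y = E \ G`, `|Y| = 2 f - 1`.  `X2` := the same set for `¬ Q`.  Let `r' X = r (X ∪ U) - r U` (`DT3.contr_rank`),
`Y' = Y \ U`, `f' = f - r U`.
(1) `X1`, `X2` are skew modulo `U`: `skew` for `r'`, `Y'`, `X1`, `X2`, `f'`.  `|Y'| + 1 = 2 f - 2 r U = 2 f'`.  Strictness: `∅ ≠ X ⊆ Y'`: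
 `X ∪ U ⊆ Y` is not contained in `U`, so it is not tight: `|X| + |U| + 1 ≤ 2 r (X ∪ U)`.  No loops: the definition of `KK`.
 `r' (Y' ∪ (X1 ∪ X2)) = f'`: if `X1 = X2 = ∅` the claim is trivial (the claim is about `b ∈ X1`).  `r (Y' ∪ (X1 ∪ X2) ∪ U) ≤ r E = f`, and it is
 `≥ r Y`; `r Y = f` because `2 r Y ≥ |Y| + 1` unless `Y = U`, but `|Y|` is odd and `|U|` is even.
 `hJ`: let `J ⊆ Y'`, `|J| = f' - 1 = r' J`, `r' (Y' \ J) = f'`, and suppose `x1 ∈ X1`, `x2 ∈ X2` have `r' (insert xi J) ≠ r' J`.  Let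
 `U = U1 ∪ U2` be a partition into two bases of `U` (`two_parts` for `D = U`, `f := r U`).  `C = (Y' \ J) ∪ U1` and `D = J ∪ U2`:
 `|C| = (|Y'| - |J|) + r U = f`, `r C = r ((Y' \ J) ∪ U) = f` (`rk_cup_congr` for `U1 ⊆ U`); `Bs r f (insert xi D)`: `|D| = f - 1`,
 `r (insert xi D) = r (insert xi J ∪ U) = r' (insert xi J) + r U = f`.  `C`, `D` are disjoint from `G`, `C ∪ D = Y`, so
 `E \ (G.erase xi ∪ C) = insert xi D` (`xi ∈ G`).  Hence `Stp r E f (G.erase x1) (G.erase x2)` (common block `C`), so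
 `Q (G.erase x1)` implies `Q (G.erase x2)`, a contradiction.
 Result: `r' X1 + r' X2 = r' (X1 ∪ X2)`.
(2) `b` is in the closure of `U ∪ ((X1 ∪ X2).erase b)`: `C0 = {c ∈ G | r (G.erase c) = r G}`, `circ_dep`: `r (C0.erase b) = r C0`.  The elements of
 `C0 \ (X1 ∪ X2)` are in the closure of `U`; so `r (U ∪ (X1 ∪ X2).erase b) = r (U ∪ C0.erase b) = r (U ∪ C0) = r (U ∪ (X1 ∪ X2))`
 (`rk_union_eq`, `rk_cup_congr`, `RankFn.mono_insert`).
(3) `r (U ∪ (X1 ∪ X2)) + r U = r (U ∪ (X1 ∪ X2).erase b) + r U ≤ r (U ∪ X1.erase b) + r (U ∪ X2)` (`sk_le`; `b ∉ X2`), and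
 the left side is `r (U ∪ X1) + r (U ∪ X2)` by (1).  So `r (U ∪ X1) ≤ r (U ∪ X1.erase b)`.
-/

set_option autoImplicit false

namespace Pool.Agent.CF98

open Finset Pool.Agent.DT3

variable {α : Type*} [DecidableEq α] {r : Finset α → ℕ} {E U G : Finset α} {f : ℕ} {b : α}
  {Q : Finset α → Prop}

private lemma LC_mem {Q : Finset α → Prop} {x : α} :
    x ∈ KK r f U Q G ↔ x ∈ G ∧ r (G.erase x) = f ∧ r (insert x U) ≠ r U ∧ Q (G.erase x) := by
  classical
  unfold KK
  exact mem_filter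

private lemma LC_compl {B J : Finset α} {x : α} (hG : G ⊆ E) (hU : U ⊆ E \ G) (hB : B ⊆ U)
    (hJ : J ⊆ (E \ G) \ U) (hx : x ∈ G) :
    E \ (G.erase x ∪ ((((E \ G) \ U) \ J) ∪ B)) = insert x (J ∪ (U \ B)) := by
  ext a
  have h1 := @hG a
  have h2 := @hU a
  have h3 := @hB a
  have h4 := @hJ a
  simp only [mem_sdiff, mem_union, mem_erase, mem_insert] at *
  rcases eq_or_ne a x with rfl | hne
  · have := h1 hx
    tauto
  · tauto

private lemma LC_skew (hE : Env r E f) (hQ : ∀ A A', Stp r E f A A' → Q A → Q A')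
    (hG : GG r E f U G) :
    r (U ∪ KK r f U Q G) + r (U ∪ KK r f U (fun A => ¬ Q A) G) =
      r (U ∪ (KK r f U Q G ∪ KK r f U (fun A => ¬ Q A) G)) + r U := by
  have h := hE.rk
  set X1 := KK r f U Q G with hX1
  set X2 := KK r f U (fun A => ¬ Q A) G with hX2
  have hYc : (E \ G).card + 1 = 2 * f := by
    have h1 := card_sdiff_add_card_eq_card hG.sub
    have h2 := hG.card
    have h3 := hE.card
    omega
  have hYE : E \ G ⊆ E := sdiff_subset
  have hUY := hG.subU
  have hUc := hG.cardU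
  have hUle : U.card ≤ (E \ G).card := card_le_card hUY
  have hrY : r (E \ G) = f := by
    have h1 := hG.two (E \ G) (Subset.refl _)
    have h2 := h.mono _ _ hYE
    have h3 := hE.rank
    omega
  have hX1G : X1 ⊆ G := fun x hx => (LC_mem.1 hx).1
  have hX2G : X2 ⊆ G := fun x hx => (LC_mem.1 hx).1
  have hYUc : ((E \ G) \ U).card + U.card = (E \ G).card := card_sdiff_add_card_eq_card hUY
  have hUr : r U ≤ f := by omega
  have key := skew (r := fun X => r (X ∪ U) - r U) (Y := (E \ G) \ U) (X1 := X1) (X2 := X2)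
    (f := f - r U) (contr_rank h U) (by omega) ?_ ?_ ?_ ?_
  · have e1 := h.mono U (X1 ∪ U) subset_union_right
    have e2 := h.mono U (X2 ∪ U) subset_union_right
    have e3 := h.mono U (X1 ∪ X2 ∪ U) subset_union_right
    rw [union_comm U X1, union_comm U X2, union_comm U (X1 ∪ X2)]
    omega
  · intro X hX hne
    have hXY : X ∪ U ⊆ E \ G := union_subset (hX.trans sdiff_subset) hUY
    have hd : Disjoint X U := by
      rw [disjoint_left]
      intro a ha
      exact (mem_sdiff.1 (hX ha)).2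
    have h1 := hG.two (X ∪ U) hXY
    have h2 : (X ∪ U).card ≠ 2 * r (X ∪ U) := by
      intro he
      obtain ⟨a, ha⟩ := hne
      exact (mem_sdiff.1 (hX ha)).2 (hG.max _ hXY he (mem_union_left _ ha))
    rw [card_union_of_disjoint hd] at h1 h2
    omega
  · intro x hx
    have hx' : r (insert x U) ≠ r U := by
      rcases mem_union.1 hx with hx | hx
      · exact (LC_mem.1 hx).2.2.1
      · exact (LC_mem.1 hx).2.2.1
    have h1 := rk_ins_ne h hx'
    have h2 : ({x} : Finset α) ∪ U = insert x U := rfl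
    simp only [h2]
    omega
  · have h1 : r ((E \ G) \ U ∪ (X1 ∪ X2) ∪ U) = f := by
      apply le_antisymm
      · rw [← hE.rank]
        apply h.mono
        exact union_subset (union_subset (sdiff_subset.trans hYE)
          (union_subset (hX1G.trans hG.sub) (hX2G.trans hG.sub))) (hUY.trans hYE)
      · rw [← hrY]
        apply h.mono
        intro a ha
        by_cases haU : a ∈ U
        · exact mem_union_right _ haU
        · exact mem_union_left _ (mem_union_left _ (mem_sdiff.2 ⟨ha, haU⟩))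
    simp only [h1]
  · intro J hJ hJc hJr hJY
    by_contra hcon
    push Not at hcon
    obtain ⟨⟨x1, hx1, hx1'⟩, x2, hx2, hx2'⟩ := hcon
    obtain ⟨B, hBU, hB, hB'⟩ := two_parts h hUc (fun X hX => hG.two X (hX.trans hUY))
      (fun X hX => h.mono _ _ hX)
    have hJU := h.mono U (J ∪ U) subset_union_right
    have hdJU : Disjoint J (U \ B) := by
      rw [disjoint_left]
      intro a ha ha'
      exact (mem_sdiff.1 (hJ ha)).2 (mem_sdiff.1 ha').1
    have hJle : J.card ≤ ((E \ G) \ U).card := card_le_card hJ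
    have hcC : ((((E \ G) \ U) \ J) ∪ B).card = f := by
      have hd : Disjoint (((E \ G) \ U) \ J) B := by
        rw [disjoint_left]
        intro a ha ha'
        exact (mem_sdiff.1 (mem_sdiff.1 ha).1).2 (hBU ha')
      rw [card_union_of_disjoint hd, hB.1]
      have h1 := card_sdiff_add_card_eq_card hJ
      omega
    have hrC : r ((((E \ G) \ U) \ J) ∪ B) = f := by
      have h1 := rk_cup_congr h hBU hB.2 (((E \ G) \ U) \ J)
      rw [union_comm, h1, union_comm]
      have h2 := h.mono U ((((E \ G) \ U) \ J) ∪ U) subset_union_right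
      omega
    have hCE : (((E \ G) \ U) \ J) ∪ B ⊆ E :=
      union_subset (sdiff_subset.trans (sdiff_subset.trans hYE)) ((hBU.trans hUY).trans hYE)
    have hCG : ∀ x, Disjoint (G.erase x) ((((E \ G) \ U) \ J) ∪ B) := by
      intro x
      rw [disjoint_left]
      intro a ha ha'
      have haG := mem_of_mem_erase ha
      rcases mem_union.1 ha' with h' | h'
      · exact (mem_sdiff.1 (mem_sdiff.1 (mem_sdiff.1 h').1).1).2 haG
      · exact (mem_sdiff.1 (hUY (hBU h'))).2 haG
    have hBs : ∀ x ∈ G, r (G.erase x) = f → Bs r f (G.erase x) := by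
      intro x hx hxr
      refine ⟨?_, hxr⟩
      rw [card_erase_of_mem hx, hG.card]
      rfl
    have hDx : ∀ x ∈ G, r (insert x J ∪ U) - r U ≠ r (J ∪ U) - r U →
        Bs r f (E \ (G.erase x ∪ ((((E \ G) \ U) \ J) ∪ B))) := by
      intro x hx hne
      rw [LC_compl hG.sub hUY hBU hJ hx]
      have hxn : x ∉ J ∪ (U \ B) := by
        intro hmem
        rcases mem_union.1 hmem with h' | h'
        · exact (mem_sdiff.1 (mem_sdiff.1 (hJ h')).1).2 hx
        · exact (mem_sdiff.1 (hUY (mem_sdiff.1 h').1)).2 hx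
      constructor
      · rw [card_insert_of_notMem hxn, card_union_of_disjoint hdJU, hB'.1]
        omega
      · have h1 := rk_cup_congr h (sdiff_subset : U \ B ⊆ U) hB'.2 (insert x J)
        have h2 : insert x (J ∪ (U \ B)) = (U \ B) ∪ insert x J := by
          rw [union_insert, union_comm J]
        rw [h2, h1, union_comm]
        have h3 : insert x J ∪ U = insert x (J ∪ U) := insert_union x J U
        rw [h3] at hne ⊢
        have h4 : r (insert x (J ∪ U)) ≠ r (J ∪ U) := fun he => hne (by rw [he])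
        have h5 := rk_ins_ne h h4
        omega
    have m1 := LC_mem.1 hx1
    have m2 := LC_mem.1 hx2
    have hst : Stp r E f (G.erase x1) (G.erase x2) :=
      ⟨(erase_subset _ _).trans hG.sub, (erase_subset _ _).trans hG.sub, hBs x1 m1.1 m1.2.1,
        hBs x2 m2.1 m2.2.1, (((E \ G) \ U) \ J) ∪ B, hCE, hCG x1, hCG x2, ⟨hcC, hrC⟩,
        hDx x1 m1.1 hx1', hDx x2 m2.1 hx2'⟩
    exact m2.2.2.2 (hQ _ _ hst m1.2.2.2)

theorem lc (hE : Env r E f) (hQ : ∀ A A', Stp r E f A A' → Q A → Q A') (hG : GG r E f U G)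
    (hb : b ∈ KK r f U Q G) : r (U ∪ (KK r f U Q G).erase b) = r (U ∪ KK r f U Q G) := by
  have h := hE.rk
  have hsk := LC_skew hE hQ hG
  set X1 := KK r f U Q G with hX1
  set X2 := KK r f U (fun A => ¬ Q A) G with hX2
  have hbm := LC_mem.1 hb
  have hbr : r (G.erase b) = r G := by rw [hbm.2.1, hG.rank]
  have hbX2 : b ∉ X2 := fun hb2 => (LC_mem.1 hb2).2.2.2 hbm.2.2.2
  set C0 := G.filter fun c => r (G.erase c) = r G with hC0
  have hcd := circ_dep h hbm.1 hbr
  rw [← hC0] at hcd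
  have hXC : X1 ∪ X2 ⊆ C0 := by
    intro x hx
    rw [hC0, mem_filter]
    rcases mem_union.1 hx with hx | hx
    · exact ⟨(LC_mem.1 hx).1, by rw [(LC_mem.1 hx).2.1, hG.rank]⟩
    · exact ⟨(LC_mem.1 hx).1, by rw [(LC_mem.1 hx).2.1, hG.rank]⟩
  have hrest : ∀ x ∈ C0 \ (X1 ∪ X2), r (insert x U) = r U := by
    intro x hx
    by_contra hne
    rw [mem_sdiff, hC0, mem_filter] at hx
    apply hx.2
    have hxf : r (G.erase x) = f := by rw [hx.1.2, hG.rank]
    by_cases hq : Q (G.erase x)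
    · exact mem_union_left _ (LC_mem.2 ⟨hx.1.1, hxf, hne, hq⟩)
    · exact mem_union_right _ (LC_mem.2 ⟨hx.1.1, hxf, hne, hq⟩)
  have hadd : ∀ S : Finset α, r (U ∪ S ∪ (C0 \ (X1 ∪ X2))) = r (U ∪ S) := by
    intro S
    apply rk_union_eq h
    intro x hx
    exact h.mono_insert (hrest x hx) subset_union_left
  have e1 : U ∪ (X1 ∪ X2) ∪ (C0 \ (X1 ∪ X2)) = U ∪ C0 := by
    rw [union_assoc, union_sdiff_of_subset hXC]
  have e2 : U ∪ (X1.erase b ∪ X2) ∪ (C0 \ (X1 ∪ X2)) = U ∪ C0.erase b := by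
    ext a
    have h1 := @hXC a
    simp only [mem_union, mem_sdiff, mem_erase] at *
    rcases eq_or_ne a b with rfl | hne
    · tauto
    · tauto
  have e3 : r (U ∪ (X1.erase b ∪ X2)) = r (U ∪ (X1 ∪ X2)) := by
    rw [← hadd (X1.erase b ∪ X2), ← hadd (X1 ∪ X2), e1, e2, union_comm U, union_comm U]
    exact rk_cup_congr h (erase_subset _ _) hcd U
  have e4 := sk_le h (X1.erase b) X2 U
  have e5 := h.mono (U ∪ X1.erase b) (U ∪ X1) (union_subset_union_right (erase_subset _ _))
  omega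

/-- The strict case: all good bases inside `G` are in one class. -/
theorem lc_strict (hE : Env r E f) (hQ : ∀ A A', Stp r E f A A' → Q A → Q A')
    (hG : GG r E f ∅ G) (hb : b ∈ G) (hbr : r (G.erase b) = f) (hQb : Q (G.erase b)) {c : α}
    (hc : c ∈ G) (hcr : r (G.erase c) = f) (hl : ∀ e ∈ E, 0 < r {e}) : Q (G.erase c) := by
  have h := hE.rk
  have hbX : b ∈ KK r f ∅ Q G := by
    refine LC_mem.2 ⟨hb, hbr, ?_, hQb⟩
    rw [h.empty, insert_empty_eq]
    exact (hl b (hG.sub hb)).ne'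
  have hlc := lc hE hQ hG hbX
  rw [empty_union, empty_union] at hlc
  have hsub : KK r f ∅ Q G ⊆ G.filter fun c => r (G.erase c) = r G := by
    intro x hx
    rw [mem_filter]
    exact ⟨(LC_mem.1 hx).1, by rw [(LC_mem.1 hx).2.1, hG.rank]⟩
  have hdep : r (KK r f ∅ Q G) ≠ (KK r f ∅ Q G).card := by
    have h1 := h.le_card ((KK r f ∅ Q G).erase b)
    have h2 := card_erase_add_one hbX
    omega
  have heq := circ_of_dep h (by rw [hG.card, hG.rank]) hsub hdep
  have hcm : c ∈ KK r f ∅ Q G := by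
    rw [heq, mem_filter]
    exact ⟨hc, by rw [hcr, hG.rank]⟩
  exact (LC_mem.1 hcm).2.2.2

end Pool.Agent.CF98
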