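import Pool.Agent.CF98.LiftDefs
import Pool.Agent.CF98.Good

/-!
Lifts of triples of bases.

* `rr_rank`: `rr M` is a rank function (`DT3.rkFn_rank`, `rk_img`).
* `bs_iff`: `M` has rank `f` (`M.eRank = f`): `Bs (rr M) f S` iff `S.image Prod.fst` is a base of `M` and `Prod.fst` is injective on `S`.
  (`→`: `f = rkFn M (S.image fst) ≤ |S.image fst| ≤ |S| = f`; so `fst` is injective on `S` and `S.image fst` is independent with `f` elements.)
* `lift_env`: `P : Fin 3 → Finset (α × ℕ)` pairwise disjoint with `Bs (rr M) f (P k)`, `E = univ.biUnion P`: `Env (rr M) E f`.  `three`: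
  `|X| = ∑ |X ∩ P k| ≤ 3 r X` (`ind_sub`).
* `lift_gd`: each `P k` is good.
* `lift_tuple`: conversely, for a partition `A`, `C`, `E \ (A ∪ C)` of `E` into three bases, the triple of images has the same
  content as the triple of the images of the `P k` (`WD.content_of_union`).
-/

set_option autoImplicit false

namespace Pool.Agent.CF98

open Finset Pool.Agent.DT3 Pool.Agent.WD

variable {α : Type*} [DecidableEq α] {M : Matroid α} {f : ℕ}

private theorem LiftA_coe (M : Matroid α) (Y : Finset α) :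
    ((rkFn M Y : ℕ) : ℕ∞) = M.eRk (Y : Set α) := by
  unfold rkFn
  apply ENat.natCast_toNat
  have h1 := M.eRk_le_encard (Y : Set α)
  have h2 : (Y : Set α).encard ≠ ⊤ := by
    rw [Set.encard_ne_top_iff]
    exact Y.finite_toSet
  exact ne_top_of_le_ne_top h2 h1

theorem rr_rank (M : Matroid α) : RankFn (rr M) := rk_img (rkFn_rank M) Prod.fst

theorem bs_iff (hf : M.eRank = (f : ℕ∞)) (S : Finset (α × ℕ)) :
    Bs (rr M) f S ↔ M.IsBase ((S.image Prod.fst : Finset α) : Set α) ∧
      Set.InjOn Prod.fst (S : Set (α × ℕ)) := by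
  constructor
  · rintro ⟨h1, h2⟩
    change rkFn M (S.image Prod.fst) = f at h2
    have h3 : (S.image Prod.fst).card ≤ S.card := card_image_le
    have h4 := (rkFn_rank M).le_card (S.image Prod.fst)
    have h5 : (S.image Prod.fst).card = S.card := by omega
    have h6 : M.eRk ((S.image Prod.fst : Finset α) : Set α) = f := by
      rw [← LiftA_coe, h2]
    have h7 : M.Indep ((S.image Prod.fst : Finset α) : Set α) := by
      rw [Matroid.indep_iff_eRk_eq_encard_of_finite (finite_toSet _), h6,
        Set.encard_coe_eq_coe_finsetCard, h5, h1]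
    refine ⟨h7.isBase_of_eRk_ge (finite_toSet _) ?_, card_image_iff.1 h5⟩
    rw [h6, hf]
  · rintro ⟨h1, h2⟩
    have h3 : (S.image Prod.fst).card = S.card := card_image_iff.2 h2
    have h4 : ((S.image Prod.fst).card : ℕ∞) = f := by
      rw [← Set.encard_coe_eq_coe_finsetCard, h1.encard_eq_eRank, hf]
    have h5 : (S.image Prod.fst).card = f := by exact_mod_cast h4
    refine ⟨h3.symm.trans h5, ?_⟩
    have h6 : ((rkFn M (S.image Prod.fst) : ℕ) : ℕ∞) = f := by
      rw [LiftA_coe, h1.eRk_eq_eRank, hf]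
    exact_mod_cast h6

private theorem LiftA_card {P : Fin 3 → Finset (α × ℕ)}
    (hd : Pairwise (Function.onFun Disjoint P)) {X : Finset (α × ℕ)} (hX : X ⊆ univ.biUnion P) :
    X.card = ∑ k, (X ∩ P k).card := by
  rw [← card_biUnion]
  · congr 1
    ext e
    rw [mem_biUnion]
    constructor
    · intro he
      obtain ⟨l, _, hl⟩ := mem_biUnion.mp (hX he)
      exact ⟨l, mem_univ _, mem_inter.mpr ⟨he, hl⟩⟩
    · rintro ⟨l, _, hl⟩
      exact (mem_inter.mp hl).1
  · intro i _ j _ hij
    have h1 : Disjoint (P i) (P j) := hd hij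
    exact h1.mono inter_subset_right inter_subset_right

private theorem LiftA_le (P : Fin 3 → Finset (α × ℕ)) (hP : ∀ k, Bs (rr M) f (P k))
    (X : Finset (α × ℕ)) (k : Fin 3) : (X ∩ P k).card ≤ rr M X := by
  have h1 : rr M (X ∩ P k) = (X ∩ P k).card :=
    ind_sub (rr_rank M) (by rw [(hP k).2, (hP k).1]) inter_subset_right
  rw [← h1]
  exact (rr_rank M).mono _ _ inter_subset_left

theorem lift_env (hf : M.eRank = (f : ℕ∞)) (P : Fin 3 → Finset (α × ℕ)) (hP : ∀ k, Bs (rr M) f (P k))
    (hd : Pairwise (Function.onFun Disjoint P)) : Env (rr M) (univ.biUnion P) f := by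
  refine ⟨rr_rank M, ?_, ?_, ?_⟩
  · rw [card_biUnion (fun i _ j _ hij => hd hij), sum_congr rfl (fun k _ => (hP k).1)]
    simp
  · apply le_antisymm
    · have h1 : ((rkFn M ((univ.biUnion P).image Prod.fst) : ℕ) : ℕ∞) ≤ f := by
        rw [LiftA_coe, ← hf]
        exact M.eRk_le_eRank _
      exact_mod_cast h1
    · calc f = rr M (P 0) := (hP 0).2.symm
        _ ≤ _ := (rr_rank M).mono _ _ (subset_biUnion_of_mem P (mem_univ 0))
  · intro X hX
    rw [LiftA_card hd hX]
    calc ∑ k, (X ∩ P k).card ≤ ∑ _k : Fin 3, rr M X := sum_le_sum fun k _ => LiftA_le P hP X k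
      _ = 3 * rr M X := by simp

theorem lift_gd (hf : M.eRank = (f : ℕ∞)) (P : Fin 3 → Finset (α × ℕ)) (hP : ∀ k, Bs (rr M) f (P k))
    (hd : Pairwise (Function.onFun Disjoint P)) (k : Fin 3) :
    Gd (rr M) (univ.biUnion P) f (P k) := by
  refine ⟨subset_biUnion_of_mem P (mem_univ k), hP k, ?_⟩
  intro X hX
  have hX' : X ⊆ univ.biUnion P := hX.trans sdiff_subset
  rw [LiftA_card hd hX', ← add_sum_erase _ _ (mem_univ k)]
  have h1 : X ∩ P k = ∅ := by
    rw [← disjoint_iff_inter_eq_empty]
    exact disjoint_of_subset_left hX sdiff_disjoint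
  rw [h1, card_empty, zero_add]
  calc ∑ j ∈ univ.erase k, (X ∩ P j).card ≤ ∑ _j ∈ univ.erase k, rr M X :=
        sum_le_sum fun k _ => LiftA_le P hP X k
    _ = 2 * rr M X := by simp

theorem lift_tuple (hf : M.eRank = (f : ℕ∞)) (P : Fin 3 → Finset (α × ℕ)) (hP : ∀ k, Bs (rr M) f (P k))
    (hd : Pairwise (Function.onFun Disjoint P)) {A C : Finset (α × ℕ)} (hA : A ⊆ univ.biUnion P)
    (hC : C ⊆ univ.biUnion P) (hAC : Disjoint A C) (hBA : Bs (rr M) f A) (hBC : Bs (rr M) f C)
    (hBD : Bs (rr M) f (univ.biUnion P \ (A ∪ C))) :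
    SameContent (fun k => (P k).image Prod.fst)
      ![A.image Prod.fst, C.image Prod.fst, (univ.biUnion P \ (A ∪ C)).image Prod.fst] := by
  have hQ : (![A.image Prod.fst, C.image Prod.fst,
      (univ.biUnion P \ (A ∪ C)).image Prod.fst] : Fin 3 → Finset α) =
      fun k => ((![A, C, univ.biUnion P \ (A ∪ C)] : Fin 3 → Finset (α × ℕ)) k).image
        Prod.fst := by
    funext k
    fin_cases k <;> rfl
  rw [hQ]
  apply content_of_union (fun k => ((bs_iff hf _).1 (hP k)).2)
  · intro k
    fin_cases k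
    · exact ((bs_iff hf _).1 hBA).2
    · exact ((bs_iff hf _).1 hBC).2
    · exact ((bs_iff hf _).1 hBD).2
  · exact hd
  · have hAD : Disjoint A (univ.biUnion P \ (A ∪ C)) :=
      disjoint_of_subset_left subset_union_left disjoint_sdiff
    have hCD : Disjoint C (univ.biUnion P \ (A ∪ C)) :=
      disjoint_of_subset_left subset_union_right disjoint_sdiff
    intro i j hij
    fin_cases i <;> fin_cases j
    · exact absurd rfl hij
    · exact hAC
    · exact hAD
    · exact hAC.symm
    · exact absurd rfl hij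
    · exact hCD
    · exact hAD.symm
    · exact hCD.symm
    · exact absurd rfl hij
  · intro z
    constructor
    · rintro ⟨k, hk⟩
      have hz : z ∈ univ.biUnion P := mem_biUnion.2 ⟨k, mem_univ k, hk⟩
      by_cases h1 : z ∈ A
      · exact ⟨0, h1⟩
      by_cases h2 : z ∈ C
      · exact ⟨1, h2⟩
      · refine ⟨2, ?_⟩
        change z ∈ univ.biUnion P \ (A ∪ C)
        rw [mem_sdiff, mem_union]
        exact ⟨hz, fun h => h.elim h1 h2⟩
    · rintro ⟨k, hk⟩
      have hz : z ∈ univ.biUnion P := by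
        fin_cases k
        · exact hA hk
        · exact hC hk
        · exact (mem_sdiff.1 hk).1
      obtain ⟨l, -, hl⟩ := mem_biUnion.1 hz
      exact ⟨l, hl⟩

end Pool.Agent.CF98
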