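import Pool.Agent.CF98.LiftA
import Pool.Agent.CF98.Fibre

/-!
The fibre theorem for triples of bases, in terms of the lifted rank function.

Let `P`, `P'` be two triples of disjoint bases of the parallel extension with the same union `E`, and suppose `¬ Sun (rr M) E`.  Then the projected triples are
connected by `ShareStep`.

Proof.  `B = fun k => (P k).image fst`.  For `A ⊆ E` put `Q A` := for all `C` such that `A`, `C`, `E \ (A ∪ C)` is a partition of `E` into bases,
`ReflTransGen (ShareStep ..) B ![A.image fst, C.image fst, (E \ (A ∪ C)).image fst]`.  All such triples have the content of `B` (`lift_tuple`), and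
their members are bases (`bs_iff`).
* `Q` is preserved by `Stp`: `A`, `A'` with common block `C₀`.  From `Q A` for `C₀`: `B` is connected to `(A, C₀, E \ (A ∪ C₀))`, which shares `C₀` with
 `(A', C₀, E \ (A' ∪ C₀))`, which shares `A'` with `(A', C, E \ (A' ∪ C))`.
* `Q (P 0)`: every such triple shares `P 0` with `B`.
* `fibre` gives `Q (P' 0)`; take `C = P' 1`, `E \ (P' 0 ∪ P' 1) = P' 2`: the triple is `fun k => (P' k).image fst` (`Fin` cases).
-/

set_option autoImplicit false

namespace Pool.Agent.CF98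

open Finset Pool.Agent.DT3 Pool.Agent.WD

variable {α : Type*} [DecidableEq α] {M : Matroid α} {f : ℕ}

theorem liftB (hf : M.eRank = (f : ℕ∞)) (P P' : Fin 3 → Finset (α × ℕ))
    (hP : ∀ k, Bs (rr M) f (P k)) (hP' : ∀ k, Bs (rr M) f (P' k))
    (hd : Pairwise (Function.onFun Disjoint P)) (hd' : Pairwise (Function.onFun Disjoint P'))
    (hu : univ.biUnion P = univ.biUnion P') (hs : ¬ Sun (rr M) (univ.biUnion P)) :
    Relation.ReflTransGen (ShareStep (fun S : Finset α => M.IsBase (S : Set α)))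
      (fun k => (P k).image Prod.fst) (fun k => (P' k).image Prod.fst) := by
  classical
  set E : Finset (α × ℕ) := univ.biUnion P with hE
  set base : Finset α → Prop := fun S : Finset α => M.IsBase (S : Set α) with hbase
  set B : Fin 3 → Finset α := fun k => (P k).image Prod.fst with hB
  have hEnv : Env (rr M) E f := lift_env hf P hP hd
  have hbs : ∀ S, Bs (rr M) f S → base (S.image Prod.fst) := fun S hS => ((bs_iff hf S).1 hS).1
  have hBb : ∀ k, base (B k) := fun k => hbs _ (hP k)
  have hPE : ∀ k, P k ⊆ E := fun k => subset_biUnion_of_mem P (mem_univ k)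
  -- valid triples
  have hval : ∀ {A C : Finset (α × ℕ)}, A ⊆ E → C ⊆ E → Disjoint A C → Bs (rr M) f A →
      Bs (rr M) f C → Bs (rr M) f (E \ (A ∪ C)) →
      SameContent B ![A.image Prod.fst, C.image Prod.fst, (E \ (A ∪ C)).image Prod.fst] ∧
      ∀ k, base ((![A.image Prod.fst, C.image Prod.fst, (E \ (A ∪ C)).image Prod.fst] :
        Fin 3 → Finset α) k) := by
    intro A C hA hC hAC hBA hBC hBD
    refine ⟨lift_tuple hf P hP hd hA hC hAC hBA hBC hBD, fun k => ?_⟩
    fin_cases k
    · exact hbs _ hBA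
    · exact hbs _ hBC
    · exact hbs _ hBD
  let Q : Finset (α × ℕ) → Prop := fun A => ∀ C ⊆ E, Disjoint A C → A ⊆ E → Bs (rr M) f A →
    Bs (rr M) f C → Bs (rr M) f (E \ (A ∪ C)) →
    Relation.ReflTransGen (ShareStep base) B
      ![A.image Prod.fst, C.image Prod.fst, (E \ (A ∪ C)).image Prod.fst]
  have hstep : ∀ A A', Stp (rr M) E f A A' → Q A → Q A' := by
    rintro A A' ⟨hA, hA', hBA, hBA', C₀, hC₀, hd0, hd0', hBC₀, hBD, hBD'⟩ hQ C hC hdC _ _ hBC hBD''
    have v1 := hval hA hC₀ hd0 hBA hBC₀ hBD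
    have v2 := hval hA' hC₀ hd0' hBA' hBC₀ hBD'
    have v3 := hval hA' hC hdC hBA' hBC hBD''
    have h1 := hQ C₀ hC₀ hd0 hA hBA hBC₀ hBD
    have s1 : ShareStep base ![A.image Prod.fst, C₀.image Prod.fst, (E \ (A ∪ C₀)).image Prod.fst]
        ![A'.image Prod.fst, C₀.image Prod.fst, (E \ (A' ∪ C₀)).image Prod.fst] :=
      ⟨v1.2, v2.2, fun z => (v1.1 z).symm.trans (v2.1 z), 1, 1, rfl⟩
    have s2 : ShareStep base ![A'.image Prod.fst, C₀.image Prod.fst,
        (E \ (A' ∪ C₀)).image Prod.fst]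
        ![A'.image Prod.fst, C.image Prod.fst, (E \ (A' ∪ C)).image Prod.fst] :=
      ⟨v2.2, v3.2, fun z => (v2.1 z).symm.trans (v3.1 z), 0, 0, rfl⟩
    exact (h1.tail s1).tail s2
  have hQ0 : Q (P 0) := by
    intro C hC hdC hA hBA hBC hBD
    have v := hval hA hC hdC hBA hBC hBD
    exact Relation.ReflTransGen.single ⟨hBb, v.2, v.1, 0, 0, rfl⟩
  have hg0 : Gd (rr M) E f (P 0) := lift_gd hf P hP hd 0
  have hg0' : Gd (rr M) E f (P' 0) := by
    rw [hu]
    exact lift_gd hf P' hP' hd' 0
  have hQ1 : Q (P' 0) := fibre E.card E (rr M) f Q (P 0) (P' 0) le_rfl hEnv hs hstep hg0 hg0' hQ0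
  have hPE' : ∀ k, P' k ⊆ E := fun k => by
    rw [hu]
    exact subset_biUnion_of_mem P' (mem_univ k)
  have hcomp : E \ (P' 0 ∪ P' 1) = P' 2 := by
    have d02 := hd' (show (0 : Fin 3) ≠ 2 by decide)
    have d12 := hd' (show (1 : Fin 3) ≠ 2 by decide)
    ext z
    rw [mem_sdiff, mem_union, hu, mem_biUnion]
    constructor
    · rintro ⟨⟨k, -, hk⟩, hn⟩
      push Not at hn
      fin_cases k
      · exact absurd hk hn.1
      · exact absurd hk hn.2
      · exact hk
    · intro hz
      refine ⟨⟨2, mem_univ _, hz⟩, ?_⟩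
      rintro (h | h)
      · exact disjoint_left.1 d02 h hz
      · exact disjoint_left.1 d12 h hz
  have h2 := hQ1 (P' 1) (hPE' 1) (hd' (by decide)) (hPE' 0) (hP' 0) (hP' 1) (by
    rw [hcomp]
    exact hP' 2)
  rw [hcomp] at h2
  have h3 : (![(P' 0).image Prod.fst, (P' 1).image Prod.fst, (P' 2).image Prod.fst] :
      Fin 3 → Finset α) = fun k => (P' k).image Prod.fst := by
    funext k
    fin_cases k <;> rfl
  rw [h3] at h2
  exact h2

end Pool.Agent.CF98
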