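import Pool.Agent.CF98.Defs
import Pool.Agent.DT3.Link
import Pool.Agent.WD.Lift

/-!
Definitions for the passage to matroids.

* `rr M` : the rank function of `M` with every element replaced by countably many parallel copies;
* `cont B e` : the number of members of the tuple `B` containing `e`;
* `CritSun M w` : a critical sunflower of the weight function `w`: three flats `F i` of total weight `3 rk (F i) - 1`, any two of which have only
  elements of weight `0` in common outside a flat `T ⊆ F i` of total weight `3 rk T`.
-/

set_option autoImplicit false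

namespace Pool.Agent.CF98

open Finset Pool.Agent.DT3

variable {α : Type*} [DecidableEq α]

/-- The rank function of the parallel extension. -/
noncomputable def rr (M : Matroid α) (X : Finset (α × ℕ)) : ℕ := rkFn M (X.image Prod.fst)

/-- The content of a triple. -/
def cont {m : ℕ} (B : Fin m → Finset α) (e : α) : ℕ := (univ.filter fun k => e ∈ B k).card

/-- A critical sunflower. -/
def CritSun (M : Matroid α) (w : α → ℕ) : Prop :=
  ∃ (T : Finset α) (F : Fin 3 → Finset α), M.IsFlat (T : Set α) ∧
    (((∑ e ∈ T, w e : ℕ)) : ℕ∞) = 3 * M.eRk (T : Set α) ∧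
    (∀ i, M.IsFlat (F i : Set α) ∧ T ⊆ F i ∧
      (((∑ e ∈ F i, w e) + 1 : ℕ) : ℕ∞) = 3 * M.eRk (F i : Set α)) ∧
    ∀ i j, i ≠ j → ∀ e ∈ F i ∩ F j, 0 < w e → e ∈ T

end Pool.Agent.CF98
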