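import Pool.Agent.CF98.Toric

/-!
The main theorem: a cubic binomial of the toric ideal of a finite matroid whose multidegree is without critical sunflower, for the matroid or for the dual, is in
the ideal generated by the quadrics.
-/

set_option autoImplicit false

namespace Pool.Agent.CF98

open Finset MvPolynomial Pool.Agent.H94 Pool.Agent.WD

variable {α : Type*} [DecidableEq α] {K : Type*} [Field K]

theorem main (M : Matroid α) [M.Finite] (B D : Fin 3 → Bases M)
    (h : (∏ k, (X (B k) : MvPolynomial (Bases M) K)) - ∏ k, X (D k) ∈ toricIdeal K M)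
    (hs : ¬ (CritSun M (cont fun k => (B k).1) ∧ CritSun M✶ (fun e => 3 - cont (fun k => (B k).1) e))) :
    (∏ k, (X (B k) : MvPolynomial (Bases M) K)) - ∏ k, X (D k) ∈
      Ideal.span {g : MvPolynomial (Bases M) K | g ∈ toricIdeal K M ∧ g.IsHomogeneous 2} := by
  apply quad_of_conn
  have hc := content_of_mem M B D h
  by_cases h1 : CritSun M (cont fun k => (B k).1)
  · exact conn_dual M _ _ (fun k => (B k).2) (fun k => (D k).2) hc (fun h2 => hs ⟨h1, h2⟩)
  · exact conn M _ _ (fun k => (B k).2) (fun k => (D k).2) hc h1

end Pool.Agent.CF98
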