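import Pool.Agent.CF98.Rk0
import Pool.Agent.DT3.Rk

/-!
The matroid intersection theorem.

Induction on `|G|` (for all `m`, `p`, `k`).  `G = ∅` : `k ≤ 0`, `T = ∅`.  `k = 0`: `T = ∅`.  Let `e ∈ G`, `G' = G.erase e`.
If `k ≤ m S + p (G' \ S)` for all `S ⊆ G'` use the induction hypothesis.  Otherwise fix `S ⊆ G'` with
`m S + p (G' \ S) < k`.  `p {e} ≠ 0`: otherwise `p (G \ S) = p (G' \ S)` (`G \ S = insert e (G' \ S)`), contradiction to the hypothesis for `S`.
`m {e} ≠ 0`: otherwise `m (insert e S) = m S`, and `G \ insert e S = G' \ S`.  So `m {e} = p {e} = 1`.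
Let `m' X = m (X ∪ {e}) - m {e}`, `p'` likewise (`DT3.contr_rank`).  For all `S' ⊆ G'`: `k - 1 ≤ m' S' + p' (G' \ S')`: otherwise
`m (insert e S') + p (G \ S') ≤ k` (`insert e (G' \ S') = G \ S'`), and submodularity
for `m` with `S`, `insert e S'` and for `p` with `G' \ S`, `G \ S'` gives
`2 k ≤ (m (S ∪ insert e S') + p (G \ (S ∪ insert e S'))) + (m (S ∩ S') + p (G \ (S ∩ S'))) ≤ 2 k - 1`
(`(G' \ S) ∩ (G \ S') = G \ (S ∪ insert e S')`, `(G' \ S) ∪ (G \ S') = G \ (S ∩ S')`, `S ∩ insert e S' = S ∩ S'` as `e ∉ S`).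
The induction hypothesis gives `T' ⊆ G'` for `m'`, `p'`, `k - 1`; `T = insert e T'`.
-/

set_option autoImplicit false

namespace Pool.Agent.CF98

open Finset Pool.Agent.DT3

variable {α : Type*} [DecidableEq α]

private lemma loop_ins {m : Finset α → ℕ} (hm : RankFn m) {e : α} (he : m {e} = 0)
    (X : Finset α) : m (insert e X) = m X := by
  have h1 : m (insert e ∅) = m ∅ := by
    rw [insert_empty_eq, he, hm.empty]
  exact hm.mono_insert h1 (empty_subset X)

theorem matInt (n : ℕ) : ∀ (G : Finset α) (m p : Finset α → ℕ) (k : ℕ), G.card ≤ n → RankFn m → RankFn p →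
    (∀ S ⊆ G, k ≤ m S + p (G \ S)) → ∃ T ⊆ G, T.card = k ∧ m T = k ∧ p T = k := by
  induction n with
  | zero =>
    intro G m p k hn hm hp hS
    have hG : G = ∅ := by rw [← card_eq_zero]; omega
    subst hG
    have h1 := hS ∅ (Subset.refl _)
    rw [sdiff_self, bot_eq_empty, hm.empty, hp.empty] at h1
    refine ⟨∅, Subset.refl _, ?_, ?_, ?_⟩
    · rw [card_empty]; omega
    · rw [hm.empty]; omega
    · rw [hp.empty]; omega
  | succ n ih =>
    intro G m p k hn hm hp hS
    rcases Nat.eq_zero_or_pos k with hk | hk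
    · subst hk
      exact ⟨∅, empty_subset _, card_empty, hm.empty, hp.empty⟩
    rcases G.eq_empty_or_nonempty with hG | ⟨e, heG⟩
    · subst hG
      have h1 := hS ∅ (Subset.refl _)
      rw [sdiff_self, bot_eq_empty, hm.empty, hp.empty] at h1
      omega
    have hc' : (G.erase e).card ≤ n := by rw [card_erase_of_mem heG]; omega
    by_cases hc : ∀ S ⊆ G.erase e, k ≤ m S + p (G.erase e \ S)
    · obtain ⟨T, hT, h1, h2, h3⟩ := ih (G.erase e) m p k hc' hm hp hc
      exact ⟨T, hT.trans (erase_subset e G), h1, h2, h3⟩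
    · simp only [not_forall, not_le] at hc
      obtain ⟨S, hSG, hlt⟩ := hc
      have heS : e ∉ S := fun h => (mem_erase.1 (hSG h)).1 rfl
      have hS0 : S ⊆ G := hSG.trans (erase_subset e G)
      have hGS : G \ S = insert e (G.erase e \ S) := by
        ext x
        rw [mem_sdiff, mem_insert, mem_sdiff, mem_erase]
        constructor
        · rintro ⟨h1, h2⟩
          by_cases hx : x = e
          · exact Or.inl hx
          · exact Or.inr ⟨⟨hx, h1⟩, h2⟩
        · rintro (h1 | ⟨⟨_, h1⟩, h2⟩)
          · exact ⟨h1 ▸ heG, h1 ▸ heS⟩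
          · exact ⟨h1, h2⟩
      have hp0 : p {e} ≠ 0 := by
        intro h0
        have h1 := hS S hS0
        rw [hGS, loop_ins hp h0] at h1
        omega
      have hm0 : m {e} ≠ 0 := by
        intro h0
        have h1 := hS (insert e S) (insert_subset heG hS0)
        have h2 : G \ insert e S = G.erase e \ S := by
          ext x
          rw [mem_sdiff, mem_sdiff, mem_erase, mem_insert]
          tauto
        rw [loop_ins hm h0, h2] at h1
        omega
      have hm1 : m {e} = 1 := by
        have h1 := hm.insert_eq e ∅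
        rw [insert_empty_eq, hm.empty] at h1
        omega
      have hp1 : p {e} = 1 := by
        have h1 := hp.insert_eq e ∅
        rw [insert_empty_eq, hp.empty] at h1
        omega
      have hkey : ∀ S' ⊆ G.erase e, k - 1 ≤ (fun Y => m (Y ∪ {e}) - m {e}) S' +
          (fun Y => p (Y ∪ {e}) - p {e}) (G.erase e \ S') := by
        intro S' hS'
        show k - 1 ≤ (m (S' ∪ {e}) - m {e}) + (p ((G.erase e \ S') ∪ {e}) - p {e})
        have heS' : e ∉ S' := fun h => (mem_erase.1 (hS' h)).1 rfl
        have hS'0 : S' ⊆ G := hS'.trans (erase_subset e G)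
        have e1 : (G.erase e \ S') ∪ {e} = G \ S' := by
          ext x
          rw [mem_union, mem_sdiff, mem_erase, mem_singleton, mem_sdiff]
          constructor
          · rintro (⟨⟨_, h1⟩, h2⟩ | h1)
            · exact ⟨h1, h2⟩
            · exact ⟨h1 ▸ heG, h1 ▸ heS'⟩
          · rintro ⟨h1, h2⟩
            by_cases hx : x = e
            · exact Or.inr hx
            · exact Or.inl ⟨⟨hx, h1⟩, h2⟩
        rw [e1]
        have a1 : m {e} ≤ m (S' ∪ {e}) := hm.mono _ _ subset_union_right
        have a2 : p {e} ≤ p (G \ S') :=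
          hp.mono _ _ (singleton_subset_iff.2 (mem_sdiff.2 ⟨heG, heS'⟩))
        have b1 := hm.submod S (S' ∪ {e})
        have b2 := hp.submod (G.erase e \ S) (G \ S')
        have c1 : S ∩ (S' ∪ {e}) = S ∩ S' := by
          ext x
          rw [mem_inter, mem_union, mem_singleton, mem_inter]
          constructor
          · rintro ⟨h1, h2 | h2⟩
            · exact ⟨h1, h2⟩
            · exact absurd (h2 ▸ h1) heS
          · rintro ⟨h1, h2⟩
            exact ⟨h1, Or.inl h2⟩
        have c2 : (G.erase e \ S) ∪ (G \ S') = G \ (S ∩ S') := by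
          ext x
          rw [mem_union, mem_sdiff, mem_erase, mem_sdiff, mem_sdiff, mem_inter]
          constructor
          · rintro (⟨⟨_, h1⟩, h2⟩ | ⟨h1, h2⟩)
            · exact ⟨h1, fun h => h2 h.1⟩
            · exact ⟨h1, fun h => h2 h.2⟩
          · rintro ⟨h1, h2⟩
            by_cases hx : x ∈ S'
            · left
              have hx' : x ∉ S := fun h => h2 ⟨h, hx⟩
              exact ⟨⟨fun h => heS' (h ▸ hx), h1⟩, hx'⟩
            · exact Or.inr ⟨h1, hx⟩
        have c3 : (G.erase e \ S) ∩ (G \ S') = G \ (S ∪ (S' ∪ {e})) := by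
          ext x
          rw [mem_inter, mem_sdiff, mem_erase, mem_sdiff, mem_sdiff, mem_union, mem_union,
            mem_singleton]
          tauto
        rw [c1] at b1
        rw [c2, c3] at b2
        have d1 := hS (S ∪ (S' ∪ {e}))
          (union_subset hS0 (union_subset hS'0 (singleton_subset_iff.2 heG)))
        have d2 := hS (S ∩ S') (inter_subset_left.trans hS0)
        omega
      obtain ⟨T', hT', h1, h2, h3⟩ := ih (G.erase e) (fun Y => m (Y ∪ {e}) - m {e})
        (fun Y => p (Y ∪ {e}) - p {e}) (k - 1) hc' (contr_rank hm {e}) (contr_rank hp {e}) hkey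
      have heT' : e ∉ T' := fun h => (mem_erase.1 (hT' h)).1 rfl
      have e2 : T' ∪ {e} = insert e T' := by
        rw [union_comm, ← insert_eq]
      have h2' : m (T' ∪ {e}) - m {e} = k - 1 := h2
      have h3' : p (T' ∪ {e}) - p {e} = k - 1 := h3
      have a1 : m {e} ≤ m (T' ∪ {e}) := hm.mono _ _ subset_union_right
      have a2 : p {e} ≤ p (T' ∪ {e}) := hp.mono _ _ subset_union_right
      rw [e2] at h2' h3' a1 a2
      refine ⟨insert e T', insert_subset heG (hT'.trans (erase_subset e G)), ?_, by omega,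
        by omega⟩
      rw [card_insert_of_notMem heT']
      omega

end Pool.Agent.CF98
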