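import Pool.Agent.CF98.Tight

/-!
The number of minimal tight sets (`MT r D`, see `Tight`).

* `mt_del`: `Two r D`, `X₀ ∈ MT r D`, `y ∈ X₀`: `MT r (D.erase y) = (MT r D).erase X₀`.  (The tight subsets of `D.erase y` are the
  tight subsets of `D` not containing `y`; minimality is a property of the set itself; another member of `MT r D` is disjoint
  from `X₀`, `mt_disj`.)
* `mt_sub`: if `U` contains all tight subsets of `Y` and `U ⊆ Y` then `MT r Y = MT r U`.
* `mt_ins_sub`: `Two r (insert b Y)`, `b ∉ Y`: a member of `MT r (insert b Y)` not containing `b` is in `MT r Y`, and at most one member contains `b`.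
* `mt_ins`: if `U ⊆ Y` contains all tight subsets of `Y`, is tight, `b ∉ Y`, `Two r (insert b Y)` and
  `(MT r Y).card + 1 ≤ (MT r (insert b Y)).card` then some `X ∈ MT r (insert b Y)` contains `b`, and it is disjoint from `U`: `X ∩ U` is tight
  (`ti_inter`), so if it is not empty it is equal to `X`, and `b ∈ U ⊆ Y`.
* `mt_tight_del`: `X ∈ MT r (insert b Y)`, `b ∈ X`, `Disjoint X U`, `y ∈ X.erase b`, `U` as above: every tight subset `X'` of
  `(insert b Y).erase y` is contained in `U`.  (If `b ∈ X'` then `X ∩ X'` is tight, not empty, so `X ⊆ X'`, `y ∈ X'`, a contradiction; so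
  `X' ⊆ Y`.)
-/

set_option autoImplicit false

namespace Pool.Agent.CF98

open Finset Pool.Agent.DT3

variable {α : Type*} [DecidableEq α] {r : Finset α → ℕ} {D Y U X X₀ X' : Finset α} {b y : α}

theorem mt_del (h : RankFn r) (hD : Two r D) (hX : X₀ ∈ MT r D) (hy : y ∈ X₀) :
    MT r (D.erase y) = (MT r D).erase X₀ := by
  ext X
  rw [mem_erase]
  constructor
  · intro hm
    rw [mt_mem] at hm
    have hyX : y ∉ X := fun h1 => (notMem_erase y D) (hm.1 h1)
    refine ⟨fun h1 => hyX (h1 ▸ hy), ?_⟩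
    rw [mt_mem]
    exact ⟨hm.1.trans (erase_subset y D), hm.2⟩
  · rintro ⟨hne, hm⟩
    have h1 := mt_disj h hD hm hX hne
    have hyX : y ∉ X := fun h2 => (disjoint_left.1 h1 h2) hy
    rw [mt_mem] at hm ⊢
    exact ⟨subset_erase.2 ⟨hm.1, hyX⟩, hm.2⟩

theorem mt_sub (hUY : U ⊆ Y) (hU : ∀ X ⊆ Y, X.card = 2 * r X → X ⊆ U) : MT r Y = MT r U := by
  ext X
  rw [mt_mem, mt_mem]
  constructor
  · rintro ⟨h1, h2, h3, h4⟩
    exact ⟨hU X h1 h3, h2, h3, h4⟩
  · rintro ⟨h1, h2⟩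
    exact ⟨h1.trans hUY, h2⟩

theorem mt_ins (h : RankFn r) (hUY : U ⊆ Y) (hUt : U.card = 2 * r U)
    (hU : ∀ X ⊆ Y, X.card = 2 * r X → X ⊆ U) (hb : b ∉ Y) (h2 : Two r (insert b Y))
    (hc : (MT r Y).card + 1 ≤ (MT r (insert b Y)).card) :
    ∃ X ∈ MT r (insert b Y), b ∈ X ∧ Disjoint X U := by
  have h3 : ∃ X ∈ MT r (insert b Y), X ∉ MT r Y := by
    by_contra hcon
    push Not at hcon
    have h4 := card_le_card (fun X hX => hcon X hX)
    omega
  obtain ⟨X, hX, hXY⟩ := h3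
  have hX' := hX
  rw [mt_mem] at hX'
  have hbX : b ∈ X := by
    by_contra hbX
    apply hXY
    rw [mt_mem]
    refine ⟨fun x hx => ?_, hX'.2⟩
    rcases mem_insert.1 (hX'.1 hx) with h1 | h1
    · exact absurd (h1 ▸ hx) hbX
    · exact h1
  refine ⟨X, hX, hbX, ?_⟩
  rw [disjoint_iff_inter_eq_empty]
  by_contra hne
  have h5 := ti_inter h h2 hX'.1 (hUY.trans (subset_insert b Y)) hX'.2.2.1 hUt
  have h6 := hX'.2.2.2 _ inter_subset_left (nonempty_iff_ne_empty.2 hne) h5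
  have h7 : b ∈ X ∩ U := by rw [h6]; exact hbX
  exact hb (hUY (mem_inter.1 h7).2)

theorem mt_tight_del (h : RankFn r) (hU : ∀ X ⊆ Y, X.card = 2 * r X → X ⊆ U)
    (h2 : Two r (insert b Y)) (hX : X ∈ MT r (insert b Y)) (hbX : b ∈ X) (hy : y ∈ X.erase b)
    (hX' : X' ⊆ (insert b Y).erase y) (ht : X'.card = 2 * r X') : X' ⊆ U := by
  rw [mt_mem] at hX
  have h3 : X' ⊆ insert b Y := hX'.trans (erase_subset _ _)
  have hbX' : b ∉ X' := by
    intro hb
    have h5 := ti_inter h h2 hX.1 h3 hX.2.2.1 ht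
    have h6 := hX.2.2.2 _ inter_subset_left ⟨b, mem_inter.2 ⟨hbX, hb⟩⟩ h5
    have h7 : y ∈ X ∩ X' := by rw [h6]; exact mem_of_mem_erase hy
    exact (notMem_erase y _) (hX' (mem_inter.1 h7).2)
  apply hU X' _ ht
  intro x hx
  rcases mem_insert.1 (h3 hx) with h1 | h1
  · exact absurd (h1 ▸ hx) hbX'
  · exact h1

end Pool.Agent.CF98
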