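import Pool.Agent.CF98.MvGG

/-!
Good bases `A` with exactly one minimal tight set `T` in `D = E \ A` (`MT r (E \ A) = {T}`).

* `uni_sub`: every non-empty tight subset of `E \ A` contains `T` (`mt_exists`).
* `uni_gg`: for `y ∈ T`: `GG r E f ∅ (insert y A)`: `E \ insert y A = (E \ A).erase y` contains no non-empty tight subset (it would contain `T`).
* `uni_of_gg`: conversely let `GG r E f ∅ G`, `b ∈ G`, `r (G.erase b) = f`, no loops in `E`.  Then `G.erase b` is good and there is a `T` with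
  `MT r (E \ G.erase b) = {T}`, `b ∈ T`: `D = E \ G.erase b = insert b (E \ G)` satisfies `Two` and is tight (`|D| = 2 f`, `r D = f`), all non-empty tight subsets
  contain `b` (a tight subset of `E \ G` is empty), so the least one (`ti_least`) is the only minimal one.
* `uni_tight`: `T` does not meet `A`, `T ⊆ E`, `|T| = 2 r T`, `T` non-empty.
-/

set_option autoImplicit false

namespace Pool.Agent.CF98

open Finset Pool.Agent.DT3

variable {α : Type*} [DecidableEq α] {r : Finset α → ℕ} {E A G T X : Finset α} {f : ℕ} {b y : α}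

theorem uni_tight (hT : MT r (E \ A) = {T}) :
    T ⊆ E \ A ∧ T.Nonempty ∧ T.card = 2 * r T := by
  have h1 : T ∈ MT r (E \ A) := by rw [hT]; exact mem_singleton_self T
  rw [mt_mem] at h1
  exact ⟨h1.1, h1.2.1, h1.2.2.1⟩

theorem uni_sub (hT : MT r (E \ A) = {T}) (hX : X ⊆ E \ A) (hne : X.Nonempty)
    (ht : X.card = 2 * r X) : T ⊆ X := by
  obtain ⟨X', hX', hX'X⟩ := mt_exists (r := r) hX hne ht
  rw [hT, mem_singleton] at hX'
  rwa [← hX']

theorem uni_gg (hE : Env r E f) (hA : Gd r E f A) (hT : MT r (E \ A) = {T}) (hy : y ∈ T) :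
    GG r E f ∅ (insert y A) := by
  obtain ⟨hT1, hT2, hT3⟩ := uni_tight hT
  obtain ⟨hAE, hAB, hA2⟩ := hA
  have hy' := mem_sdiff.1 (hT1 hy)
  have hsub : insert y A ⊆ E := insert_subset hy'.1 hAE
  refine ⟨hsub, ?_, ?_, ?_, empty_subset _, ?_, ?_⟩
  · rw [card_insert_of_notMem hy'.2, hAB.1]
  · have h1 := hE.rk.mono A (insert y A) (subset_insert y A)
    have h2 := hE.rk.mono (insert y A) E hsub
    rw [hAB.2] at h1
    rw [hE.rank] at h2
    omega
  · intro X hX
    exact hA2 X (hX.trans (sdiff_subset_sdiff (Subset.refl E) (subset_insert y A)))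
  · rw [hE.rk.empty, card_empty]
  · intro X hX ht
    rcases X.eq_empty_or_nonempty with h | h
    · rw [h]
    · have h1 := uni_sub hT (hX.trans (sdiff_subset_sdiff (Subset.refl E) (subset_insert y A))) h ht
      have h2 := mem_sdiff.1 (hX (h1 hy))
      exact absurd (mem_insert_self y A) h2.2

theorem uni_of_gg (hE : Env r E f) (hl : ∀ e ∈ E, 0 < r {e}) (hG : GG r E f ∅ G) (hb : b ∈ G)
    (hbr : r (G.erase b) = f) :
    Gd r E f (G.erase b) ∧ ∃ T, MT r (E \ G.erase b) = {T} ∧ b ∈ T := by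
  have hbE : b ∈ E := hG.sub hb
  have hU : r (insert b (∅ : Finset α)) ≠ r (∅ : Finset α) := by
    have h1 := hl b hbE
    rw [hE.rk.empty]
    have h2 : insert b (∅ : Finset α) = {b} := rfl
    rw [h2]
    omega
  have hgd : Gd r E f (G.erase b) := gd_of_GG hE hG hb hbr hU
  refine ⟨hgd, ?_⟩
  obtain ⟨hAE, hAB, h2⟩ := hgd
  have hbD : b ∈ E \ G.erase b := mem_sdiff.2 ⟨hbE, notMem_erase b G⟩
  have hcard : (E \ G.erase b).card = 2 * f := by
    rw [card_sdiff_of_subset hAE, hE.card, hAB.1]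
    omega
  have hrank : r (E \ G.erase b) = f := by
    have h3 := h2 (E \ G.erase b) (Subset.refl _)
    have h4 := hE.rk.mono (E \ G.erase b) E sdiff_subset
    rw [hcard] at h3
    rw [hE.rank] at h4
    omega
  obtain ⟨X, hXD, hXt, hbX, hmin⟩ := ti_least hE.rk h2 (by rw [hcard, hrank]) hbD
  have hall : ∀ X' ⊆ E \ G.erase b, X'.card = 2 * r X' → X'.Nonempty → b ∈ X' := by
    intro X' hX' ht hne
    by_contra hb'
    have h5 : X' ⊆ E \ G := by
      intro x hx
      have h6 := mem_sdiff.1 (hX' hx)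
      refine mem_sdiff.2 ⟨h6.1, fun hxG => h6.2 (mem_erase.2 ⟨?_, hxG⟩)⟩
      rintro rfl
      exact hb' hx
    have h7 := hG.max X' h5 ht
    obtain ⟨x, hx⟩ := hne
    exact absurd (h7 hx) (notMem_empty x)
  refine ⟨X, ?_, hbX⟩
  ext X'
  rw [mem_singleton, mt_mem]
  constructor
  · rintro ⟨h3, h4, h5, h6⟩
    exact (h6 X (hmin X' h3 h5 (hall X' h3 h5 h4)) ⟨b, hbX⟩ hXt).symm
  · rintro rfl
    refine ⟨hXD, ⟨b, hbX⟩, hXt, fun X'' h3 h4 h5 => ?_⟩
    exact Subset.antisymm h3 (hmin X'' (h3.trans hXD) h5 (hall X'' (h3.trans hXD) h5 h4))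

end Pool.Agent.CF98
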