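import Pool.Agent.CF98.LC
import Pool.Agent.CF98.Uni

/-!
Closest pairs.  `W A` means: `A` is good and `MT r (E \ A) = {T}` for some `T`.  Let `A`, `B` be in `W`, `Q A`, `¬ Q B`, with `|A \ B|` minimal among
all such pairs (hypothesis `hmin`).

* `pair_eq`: `MT r (E \ A) = {T}` and `MT r (E \ B) = {T'}` imply `T = T'` and `Disjoint T A`, `Disjoint T B`.
 Proof.  Let `y ∈ T`.  Claim `y ∉ B`.  Otherwise let `G = insert y A`; `GG r E f ∅ G` (`uni_gg`).  `B` is independent, the circuit of `G` is not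
 contained in `B`: there is `b ∈ G \ B` with `r (G.erase b) = f` (`circ_card`: the circuit is dependent, `ind_sub`), `b ≠ y` as `y ∈ B`, so `b ∈ A \ B`.
 `A' = G.erase b` is in `W` (`uni_of_gg`), in `Q` (`lc_strict` with `y`, `G.erase y = A`), and `|A' \ B| = |A \ B| - 1`, a contradiction to `hmin`.
 So `T ⊆ E \ B` is tight and non-empty, `T' ⊆ T` (`uni_sub`).  By symmetry (`¬ Q` is also preserved by `Stp`; `|B \ A| = |A \ B|`) `T ⊆ E \ A`,
 `T' ⊆ E \ A` and `T ⊆ T'`.
 (`hmin` is stated for all pairs with `Q` on the first and `¬ Q` on the second; for the symmetric part use `|B \ A| = |A \ B|`, both have `f` elements.)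
* `pair_circ`: for `y ∈ T` the elements `b ≠ y` of the circuit of `insert y A` lie in `A ∩ B`; it is also the circuit of `insert y B`.
 Proof.  `b ∈ A`, if `b ∉ B`: `A' = (insert y A).erase b` is in `W` and `Q`, `|A' \ B| = |A \ B|`: (`y ∉ B`, `b ∉ B`), so `(A', B)` is again a closest pair, and `pair_eq`
 gives `Disjoint T A'` (`MT r (E \ B) = {T}`), but `y ∈ T ∩ A'`.  So the circuit is contained in `insert y B`; `circ_eq`.
* `pair_move`: for `y ∈ T`, `b ∈ insert y A`, `r ((insert y A).erase b) = f`: `A' = (insert y A).erase b`, `B' = (insert y B).erase b` are in `W`, `Q A'`, `¬ Q B'`,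
 `A' \ B' = A \ B`, `B' \ A' = B \ A`, `b` lies in the minimal tight set of `E \ A'`.  (`b = y` or `b ∈ A ∩ B` by `pair_circ`;
 `r ((insert y B).erase b) = f` by `pair_circ`; `uni_gg`, `uni_of_gg`, `lc_strict` (for `Q` and for `¬ Q`).)
-/

set_option autoImplicit false

namespace Pool.Agent.CF98

open Finset Pool.Agent.DT3

variable {α : Type*} [DecidableEq α] {r : Finset α → ℕ} {E A B T T' : Finset α} {f : ℕ} {b y : α}
  {Q : Finset α → Prop}

/-- Good with a unique minimal tight set in the complement. -/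
def WW (r : Finset α → ℕ) (E : Finset α) (f : ℕ) (A : Finset α) : Prop :=
  Gd r E f A ∧ ∃ T, MT r (E \ A) = {T}

/-- A closest pair. -/
structure CP (r : Finset α → ℕ) (E : Finset α) (f : ℕ) (Q : Finset α → Prop) (A B : Finset α) :
    Prop where
  wA : WW r E f A
  wB : WW r E f B
  qA : Q A
  qB : ¬ Q B
  min : ∀ A' B', WW r E f A' → WW r E f B' → Q A' → ¬ Q B' → (A \ B).card ≤ (A' \ B').card

private lemma not_stp (hQ : ∀ A A', Stp r E f A A' → Q A → Q A') :
    ∀ A A', Stp r E f A A' → ¬ Q A → ¬ Q A' :=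
  fun _ _ h hn hq => hn (hQ _ _ (stp_symm h) hq)

private lemma notMem_of_mem (hA : MT r (E \ A) = {T}) (hy : y ∈ T) : y ∉ A :=
  (mem_sdiff.1 ((uni_tight hA).1 hy)).2

private lemma one_side (hE : Env r E f) (hl : ∀ e ∈ E, 0 < r {e}) {Q1 : Finset α → Prop}
    (hQ : ∀ A A', Stp r E f A A' → Q1 A → Q1 A') (hGA : Gd r E f A) (hA : MT r (E \ A) = {T})
    (hB : Gd r E f B) (hQA : Q1 A)
    (hmin : ∀ A', WW r E f A' → Q1 A' → (A \ B).card ≤ (A' \ B).card) : Disjoint T B := by
  rw [disjoint_left]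
  intro y hyT hyB
  have hyA : y ∉ A := notMem_of_mem hA hyT
  have hGG := uni_gg hE hGA hA hyT
  have hGc : (insert y A).card = r (insert y A) + 1 := by rw [hGG.card, hGG.rank]
  have hcc := circ_card hE.rk hGc
  obtain ⟨b, hbC, hbB⟩ : ∃ b ∈ (insert y A).filter (fun c => r ((insert y A).erase c) =
      r (insert y A)), b ∉ B := by
    by_contra hcon
    push Not at hcon
    have h1 : r B = B.card := by rw [hB.2.1.1, hB.2.1.2]
    have h2 := ind_sub hE.rk h1 (show _ ⊆ B from hcon)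
    omega
  rw [mem_filter, hGG.rank] at hbC
  obtain ⟨hbG, hbr⟩ := hbC
  have hby : b ≠ y := fun h => hbB (h ▸ hyB)
  have hbA : b ∈ A := (mem_insert.1 hbG).resolve_left hby
  have hQ' : Q1 ((insert y A).erase b) := by
    apply lc_strict hE hQ hGG (mem_insert_self y A) _ _ hbG hbr hl
    · rw [erase_insert hyA]
      exact hGA.2.1.2
    · rw [erase_insert hyA]
      exact hQA
  obtain ⟨hg, T1, hT1, -⟩ := uni_of_gg hE hl hGG hbG hbr
  have h3 := hmin _ ⟨hg, T1, hT1⟩ hQ'
  have h4 : (insert y A).erase b \ B = (A \ B).erase b := by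
    ext x
    simp only [mem_sdiff, mem_erase, mem_insert]
    constructor
    · rintro ⟨⟨h5, h6⟩, h7⟩
      refine ⟨h5, h6.resolve_left ?_, h7⟩
      rintro rfl
      exact h7 hyB
    · rintro ⟨h5, h6, h7⟩
      exact ⟨⟨h5, Or.inr h6⟩, h7⟩
  have h5 : b ∈ A \ B := mem_sdiff.2 ⟨hbA, hbB⟩
  have h6 := card_erase_lt_of_mem h5
  rw [h4] at h3
  omega

theorem pair_eq (hE : Env r E f) (hl : ∀ e ∈ E, 0 < r {e})
    (hQ : ∀ A A', Stp r E f A A' → Q A → Q A') (hP : CP r E f Q A B)
    (hA : MT r (E \ A) = {T}) (hB : MT r (E \ B) = {T'}) : T = T' ∧ Disjoint T A ∧ Disjoint T B := by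
  have hgA := hP.wA.1
  have hgB := hP.wB.1
  have h1 : Disjoint T B := one_side hE hl hQ hgA hA hgB hP.qA
    (fun A' hA' hQ' => hP.min A' B hA' hP.wB hQ' hP.qB)
  have h2 : Disjoint T' A := one_side hE hl (not_stp hQ) hgB hB hgA hP.qB (fun B' hB' hQ' => by
    have h3 := hP.min A B' hP.wA hB' hP.qA hQ'
    rw [card_sdiff_comm (s := B) (t := A) (by rw [hgA.2.1.1, hgB.2.1.1]),
      card_sdiff_comm (s := B') (t := A) (by rw [hgA.2.1.1, hB'.1.2.1.1])]
    exact h3)
  obtain ⟨a1, a2, a3⟩ := uni_tight hA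
  obtain ⟨b1, b2, b3⟩ := uni_tight hB
  have h4 : T' ⊆ T := by
    apply uni_sub hB _ a2 a3
    intro x hx
    exact mem_sdiff.2 ⟨(mem_sdiff.1 (a1 hx)).1, disjoint_left.1 h1 hx⟩
  have h5 : T ⊆ T' := by
    apply uni_sub hA _ b2 b3
    intro x hx
    exact mem_sdiff.2 ⟨(mem_sdiff.1 (b1 hx)).1, disjoint_left.1 h2 hx⟩
  refine ⟨Subset.antisymm h5 h4, ?_, h1⟩
  rw [disjoint_left]
  intro x hx
  exact (mem_sdiff.1 (a1 hx)).2

private lemma move_ww (hE : Env r E f) (hl : ∀ e ∈ E, 0 < r {e})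
    {Q1 : Finset α → Prop} (hQ : ∀ A A', Stp r E f A A' → Q1 A → Q1 A') (hGA : Gd r E f A)
    (hQA : Q1 A) (hA : MT r (E \ A) = {T}) (hy : y ∈ T) (hb : b ∈ insert y A)
    (hbr : r ((insert y A).erase b) = f) :
    Gd r E f ((insert y A).erase b) ∧ (∃ T', MT r (E \ (insert y A).erase b) = {T'} ∧ b ∈ T') ∧
      Q1 ((insert y A).erase b) := by
  have hyA : y ∉ A := notMem_of_mem hA hy
  have hGG := uni_gg hE hGA hA hy
  obtain ⟨h1, h2⟩ := uni_of_gg hE hl hGG hb hbr
  refine ⟨h1, h2, ?_⟩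
  apply lc_strict hE hQ hGG (mem_insert_self y A) _ _ hb hbr hl
  · rw [erase_insert hyA]
    exact hGA.2.1.2
  · rw [erase_insert hyA]
    exact hQA

theorem pair_circ (hE : Env r E f) (hl : ∀ e ∈ E, 0 < r {e})
    (hQ : ∀ A A', Stp r E f A A' → Q A → Q A') (hP : CP r E f Q A B)
    (hA : MT r (E \ A) = {T}) (hy : y ∈ T) (hb : b ∈ insert y A)
    (hbr : r ((insert y A).erase b) = f) :
    (b = y ∨ b ∈ A ∩ B) ∧ b ∈ insert y B ∧ r ((insert y B).erase b) = f := by
  have hgA := hP.wA.1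
  obtain ⟨hgB, T', hB⟩ := hP.wB
  obtain ⟨rfl, hTA, hTB⟩ := pair_eq hE hl hQ hP hA hB
  have hyA : y ∉ A := disjoint_left.1 hTA hy
  have hyB : y ∉ B := disjoint_left.1 hTB hy
  have claim : ∀ c ∈ insert y A, r ((insert y A).erase c) = f → c = y ∨ c ∈ A ∩ B := by
    intro c hc hcr
    by_cases hcy : c = y
    · exact Or.inl hcy
    · right
      have hcA : c ∈ A := (mem_insert.1 hc).resolve_left hcy
      rw [mem_inter]
      refine ⟨hcA, ?_⟩
      by_contra hcB
      obtain ⟨h1, ⟨T1, hT1, hcT1⟩, h2⟩ := move_ww hE hl hQ hgA hP.qA hA hy hc hcr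
      have h3 : (insert y A).erase c \ B = insert y ((A \ B).erase c) := by
        ext x
        simp only [mem_sdiff, mem_erase, mem_insert]
        constructor
        · rintro ⟨⟨h5, h6⟩, h7⟩
          rcases h6 with h6 | h6
          · exact Or.inl h6
          · exact Or.inr ⟨h5, h6, h7⟩
        · rintro (h5 | ⟨h5, h6, h7⟩)
          · subst h5
            exact ⟨⟨fun h => hcy h.symm, Or.inl rfl⟩, hyB⟩
          · exact ⟨⟨h5, Or.inr h6⟩, h7⟩
      have h4 : ((insert y A).erase c \ B).card = (A \ B).card := by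
        rw [h3, card_insert_of_notMem, card_erase_of_mem (mem_sdiff.2 ⟨hcA, hcB⟩)]
        · have : 0 < (A \ B).card := card_pos.2 ⟨c, mem_sdiff.2 ⟨hcA, hcB⟩⟩
          omega
        · intro h5
          exact hyA (mem_sdiff.1 (mem_of_mem_erase h5)).1
      have hP' : CP r E f Q ((insert y A).erase c) B :=
        { wA := ⟨h1, T1, hT1⟩
          wB := hP.wB
          qA := h2
          qB := hP.qB
          min := fun A' B' hA' hB' hQA' hQB' => by
            rw [h4]
            exact hP.min A' B' hA' hB' hQA' hQB' }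
      obtain ⟨h5, h6, h7⟩ := pair_eq hE hl hQ hP' hT1 hB
      rw [h5] at h6
      exact disjoint_left.1 h6 hy (mem_erase.2 ⟨fun h => hcy h.symm, mem_insert_self y A⟩)
  have hGA := uni_gg hE hgA hA hy
  have hGB := uni_gg hE hgB hB hy
  have hcA : (insert y A).card = r (insert y A) + 1 := by rw [hGA.card, hGA.rank]
  have hcB : (insert y B).card = r (insert y B) + 1 := by rw [hGB.card, hGB.rank]
  have hsub : ((insert y A).filter fun c => r ((insert y A).erase c) = r (insert y A)) ⊆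
      insert y B := by
    intro c hc
    rw [mem_filter, hGA.rank] at hc
    rcases claim c hc.1 hc.2 with h | h
    · rw [h]
      exact mem_insert_self y B
    · exact mem_insert_of_mem (mem_inter.1 h).2
  have heq := circ_eq hE.rk hcA hcB hsub
  have hbC : b ∈ (insert y B).filter fun c => r ((insert y B).erase c) = r (insert y B) := by
    rw [heq, mem_filter, hGA.rank]
    exact ⟨hb, hbr⟩
  rw [mem_filter, hGB.rank] at hbC
  exact ⟨claim b hb hbr, hbC.1, hbC.2⟩

theorem pair_move (hE : Env r E f) (hl : ∀ e ∈ E, 0 < r {e})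
    (hQ : ∀ A A', Stp r E f A A' → Q A → Q A') (hP : CP r E f Q A B)
    (hA : MT r (E \ A) = {T}) (hy : y ∈ T) (hb : b ∈ insert y A)
    (hbr : r ((insert y A).erase b) = f) :
    CP r E f Q ((insert y A).erase b) ((insert y B).erase b) ∧
      (insert y A).erase b \ (insert y B).erase b = A \ B ∧
      (insert y B).erase b \ (insert y A).erase b = B \ A ∧
      ∃ T', MT r (E \ (insert y A).erase b) = {T'} ∧ b ∈ T' := by
  have hgA := hP.wA.1
  obtain ⟨hgB, T', hB⟩ := hP.wB
  obtain ⟨h1, h2, h3⟩ := pair_circ hE hl hQ hP hA hy hb hbr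
  obtain ⟨rfl, hTA, hTB⟩ := pair_eq hE hl hQ hP hA hB
  have hyA : y ∉ A := disjoint_left.1 hTA hy
  have hyB : y ∉ B := disjoint_left.1 hTB hy
  obtain ⟨a1, a2, a3⟩ := move_ww hE hl hQ hgA hP.qA hA hy hb hbr
  obtain ⟨b1, ⟨T2, hT2, -⟩, b3⟩ := move_ww hE hl (not_stp hQ) hgB hP.qB hB hy h2 h3
  have e1 : (insert y A).erase b \ (insert y B).erase b = A \ B := by
    rcases h1 with rfl | h1
    · rw [erase_insert hyA, erase_insert hyB]
    · rw [mem_inter] at h1
      ext x
      simp only [mem_sdiff, mem_erase, mem_insert, not_and, not_or]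
      constructor
      · rintro ⟨⟨h5, h6⟩, h7⟩
        have h8 := h7 h5
        exact ⟨h6.resolve_left h8.1, h8.2⟩
      · rintro ⟨h5, h6⟩
        refine ⟨⟨?_, Or.inr h5⟩, fun _ => ⟨?_, h6⟩⟩
        · rintro rfl
          exact h6 h1.2
        · rintro rfl
          exact hyA h5
  have e2 : (insert y B).erase b \ (insert y A).erase b = B \ A := by
    rcases h1 with rfl | h1
    · rw [erase_insert hyA, erase_insert hyB]
    · rw [mem_inter] at h1
      ext x
      simp only [mem_sdiff, mem_erase, mem_insert, not_and, not_or]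
      constructor
      · rintro ⟨⟨h5, h6⟩, h7⟩
        have h8 := h7 h5
        exact ⟨h6.resolve_left h8.1, h8.2⟩
      · rintro ⟨h5, h6⟩
        refine ⟨⟨?_, Or.inr h5⟩, fun _ => ⟨?_, h6⟩⟩
        · rintro rfl
          exact h6 h1.1
        · rintro rfl
          exact hyB h5
  refine ⟨⟨⟨a1, a2.choose, a2.choose_spec.1⟩, ⟨b1, T2, hT2⟩, a3, b3, ?_⟩, e1, e2, a2⟩
  intro A' B' hA' hB' hQA' hQB'
  rw [e1]
  exact hP.min A' B' hA' hB' hQA' hQB'

end Pool.Agent.CF98
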