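import Pool.Agent.CF98.Defs

/-!
Elementary facts on rank functions (`RankFn`; see `DT3/HFlat`: `RankFn.insert_eq`, `RankFn.mono_insert`, `RankFn.le_card`).

* `rk_union_eq`: add the elements of `S` one by one (`RankFn.mono_insert`).
* `rk_cup_congr`: `r (X ∪ Z) = r (Y ∪ Z)` if `X ⊆ Y`, `r X = r Y`: for `y ∈ Y`, `r (insert y X) = r X` (monotone), so
  `r (insert y (X ∪ Z)) = r (X ∪ Z)`; apply `rk_union_eq` with `S = Y`.
* `rk_ins_iff`: if `X ⊆ Y`, `r X = r Y`: `r (insert x X) = r X ↔ r (insert x Y) = r Y` (`rk_cup_congr` with `Z = {x}`).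
* `ind_sub`: subsets of independent sets are independent: `r Y ≤ r X + |Y \ X|` (insert the elements of `Y \ X` one by one).
* `rk_le_add`: `r (X ∪ Y) ≤ r X + r Y` (submodularity).
* `rk_le_union_card`: `r (X ∪ Y) ≤ r X + |Y|`.
* `rk_img`: the rank function pulled back along a map (`image_union`, `image_insert`; `(X ∩ Y).image φ ⊆ X.image φ ∩ Y.image φ`).
* `rk_dual`: the dual of the restriction to `Y`, extended by loops: `X ↦ |X ∩ Y| + r (Y \ X) - r Y` (natural subtraction; the
  difference is `≥ 0` because `r Y ≤ r (Y \ X) + |X ∩ Y|`).  Monotone: `|X' ∩ Y| - |X ∩ Y| = |(X' \ X) ∩ Y| ≥ r (Y \ X) - r (Y \ X')`.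
  `insert_le`: `r` is monotone, the cardinality grows by at most one.  Submodular:
  `(Y \ A) ∩ (Y \ B) = Y \ (A ∪ B)`, `(Y \ A) ∪ (Y \ B) = Y \ (A ∩ B)`.
-/

set_option autoImplicit false

namespace Pool.Agent.CF98

open Finset Pool.Agent.DT3

variable {α : Type*} [DecidableEq α] {r : Finset α → ℕ} {X Y Z S : Finset α} {x : α}

theorem rk_ins_ne (h : RankFn r) (hx : r (insert x X) ≠ r X) : r (insert x X) = r X + 1 := by
  rcases h.insert_eq x X with h1 | h1
  · exact absurd h1 hx
  · exact h1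

theorem rk_union_eq (h : RankFn r) (hS : ∀ x ∈ S, r (insert x X) = r X) : r (X ∪ S) = r X := by
  induction S using Finset.induction_on with
  | empty => rw [union_empty]
  | insert s S hs ih =>
    have h1 := ih (fun x hx => hS x (mem_insert_of_mem hx))
    have h2 := h.mono_insert (hS s (mem_insert_self s S)) (subset_union_left (s₁ := X) (s₂ := S))
    rw [union_insert, h2, h1]

theorem rk_cup_congr (h : RankFn r) (hXY : X ⊆ Y) (he : r X = r Y) (Z : Finset α) :
    r (X ∪ Z) = r (Y ∪ Z) := by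
  have h1 : r (X ∪ Z ∪ Y) = r (X ∪ Z) := by
    apply rk_union_eq h
    intro y hy
    have h2 : r (insert y X) = r X := by
      have h3 := h.mono _ _ (subset_insert y X)
      have h4 := h.mono _ _ (insert_subset hy hXY)
      omega
    exact h.mono_insert h2 subset_union_left
  rw [← h1]
  congr 1
  ext a
  simp only [mem_union]
  constructor
  · rintro ((h2 | h2) | h2)
    · exact Or.inl (hXY h2)
    · exact Or.inr h2
    · exact Or.inl h2
  · rintro (h2 | h2)
    · exact Or.inr h2
    · exact Or.inl (Or.inr h2)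

theorem rk_ins_iff (h : RankFn r) (hXY : X ⊆ Y) (he : r X = r Y) (x : α) :
    r (insert x X) = r X ↔ r (insert x Y) = r Y := by
  have h1 := rk_cup_congr h hXY he {x}
  rw [union_comm X, union_comm Y, ← insert_eq, ← insert_eq] at h1
  rw [h1, he]

theorem rk_le_union_card (h : RankFn r) (X Y : Finset α) : r (X ∪ Y) ≤ r X + Y.card := by
  induction Y using Finset.induction_on with
  | empty => rw [union_empty, card_empty, add_zero]
  | insert s S hs ih =>
    have h1 := h.insert_le s (X ∪ S)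
    rw [union_insert, card_insert_of_notMem hs]
    omega

theorem ind_sub (h : RankFn r) (hY : r Y = Y.card) (hXY : X ⊆ Y) : r X = X.card := by
  have h1 := rk_le_union_card h X (Y \ X)
  rw [union_sdiff_of_subset hXY, hY] at h1
  have h2 := card_sdiff_add_card_eq_card hXY
  have h3 := h.le_card X
  omega

theorem rk_le_add (h : RankFn r) (X Y : Finset α) : r (X ∪ Y) ≤ r X + r Y := by
  have h1 := h.submod X Y
  omega

theorem rk_img {β : Type*} [DecidableEq β] (h : RankFn r) (φ : β → α) :
    RankFn (fun X : Finset β => r (X.image φ)) := by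
  refine ⟨?_, ?_, ?_, ?_⟩
  · change r (image φ ∅) = 0
    rw [image_empty, h.empty]
  · intro A B hAB
    exact h.mono _ _ (image_subset_image hAB)
  · intro x A
    change r ((insert x A).image φ) ≤ r (A.image φ) + 1
    rw [image_insert]
    exact h.insert_le _ _
  · intro A B
    change r ((A ∪ B).image φ) + r ((A ∩ B).image φ) ≤ r (A.image φ) + r (B.image φ)
    have h1 := h.submod (A.image φ) (B.image φ)
    have h2 := h.mono ((A ∩ B).image φ) (A.image φ ∩ B.image φ) (image_inter_subset φ A B)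
    rw [image_union]
    omega

private theorem rk0_dual_ge (h : RankFn r) (Y X : Finset α) :
    r Y ≤ (X ∩ Y).card + r (Y \ X) := by
  have h1 := rk_le_union_card h (Y \ X) (X ∩ Y)
  have h2 : Y \ X ∪ X ∩ Y = Y := by
    ext a
    simp only [mem_union, mem_sdiff, mem_inter]
    tauto
  rw [h2] at h1
  omega

theorem rk_dual (h : RankFn r) (Y : Finset α) :
    RankFn (fun X : Finset α => (X ∩ Y).card + r (Y \ X) - r Y) := by
  refine ⟨?_, ?_, ?_, ?_⟩
  · change (∅ ∩ Y).card + r (Y \ ∅) - r Y = 0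
    rw [empty_inter, card_empty, sdiff_empty]
    omega
  · intro A B hAB
    change (A ∩ Y).card + r (Y \ A) - r Y ≤ (B ∩ Y).card + r (Y \ B) - r Y
    have h1 := rk_le_union_card h (Y \ B) ((B ∩ Y) \ (A ∩ Y))
    have h2 : Y \ B ∪ (B ∩ Y) \ (A ∩ Y) = Y \ A := by
      ext a
      simp only [mem_union, mem_sdiff, mem_inter]
      constructor
      · rintro (⟨ha, hb⟩ | ⟨⟨hb, ha⟩, hc⟩)
        · exact ⟨ha, fun hA => hb (hAB hA)⟩
        · exact ⟨ha, fun hA => hc ⟨hA, ha⟩⟩
      · rintro ⟨ha, hA⟩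
        by_cases hb : a ∈ B
        · exact Or.inr ⟨⟨hb, ha⟩, fun hc => hA hc.1⟩
        · exact Or.inl ⟨ha, hb⟩
    have h3 : ((B ∩ Y) \ (A ∩ Y)).card + (A ∩ Y).card = (B ∩ Y).card :=
      card_sdiff_add_card_eq_card (inter_subset_inter_right hAB)
    rw [h2] at h1
    omega
  · intro x A
    change (insert x A ∩ Y).card + r (Y \ insert x A) - r Y ≤ (A ∩ Y).card + r (Y \ A) - r Y + 1
    have h1 : (insert x A ∩ Y).card ≤ (A ∩ Y).card + 1 := by
      have h2 : insert x A ∩ Y ⊆ insert x (A ∩ Y) := by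
        intro a ha
        simp only [mem_inter, mem_insert] at ha ⊢
        tauto
      exact (card_le_card h2).trans (card_insert_le _ _)
    have h2 : r (Y \ insert x A) ≤ r (Y \ A) :=
      h.mono _ _ (sdiff_subset_sdiff (Subset.refl Y) (subset_insert x A))
    have h3 := rk0_dual_ge h Y A
    omega
  · intro A B
    change (((A ∪ B) ∩ Y).card + r (Y \ (A ∪ B)) - r Y) + ((A ∩ B ∩ Y).card + r (Y \ (A ∩ B)) - r Y)
      ≤ ((A ∩ Y).card + r (Y \ A) - r Y) + ((B ∩ Y).card + r (Y \ B) - r Y)
    have h1 := h.submod (Y \ A) (Y \ B)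
    have h2 : Y \ A ∪ Y \ B = Y \ (A ∩ B) := by
      ext a
      simp only [mem_union, mem_sdiff, mem_inter]
      tauto
    have h3 : (Y \ A) ∩ (Y \ B) = Y \ (A ∪ B) := by
      ext a
      simp only [mem_union, mem_sdiff, mem_inter]
      tauto
    rw [h2, h3] at h1
    have h4 := card_union_add_card_inter (A ∩ Y) (B ∩ Y)
    have h5 : A ∩ Y ∪ B ∩ Y = (A ∪ B) ∩ Y := by
      ext a
      simp only [mem_union, mem_inter]
      tauto
    have h6 : A ∩ Y ∩ (B ∩ Y) = A ∩ B ∩ Y := by
      ext a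
      simp only [mem_inter]
      tauto
    rw [h5, h6] at h4
    have h7 := rk0_dual_ge h Y A
    have h8 := rk0_dual_ge h Y B
    have h9 := rk0_dual_ge h Y (A ∪ B)
    have h10 := rk0_dual_ge h Y (A ∩ B)
    omega

end Pool.Agent.CF98
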