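import Pool.Agent.CF98.FlatMinor

/-!
Skewness (`Sk r X1 X2 F`: `r (F ∪ X1) + r (F ∪ X2) = r (F ∪ (X1 ∪ X2)) + r F`; `≥` always holds by submodularity:
`F ⊆ (F ∪ X1) ∩ (F ∪ X2)`).

`sk_ins`: adding one element `a` to `F` changes each of the four terms by `0` or `1`, and
`r (insert a F ∪ X) = r (F ∪ X)` as soon as this holds for a smaller set (`RankFn.mono_insert`).  So if `Sk` holds for
`insert a F` but not for `F` then `a` lies in the closures of `F ∪ X1` and of `F ∪ X2`.
`sk_cl`: if `Sk r X1 X2 F'` and `a` lies in the closures of `F' ∪ X1` and `F' ∪ X2` then `a` lies in the closure of `F'`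
(otherwise `Sk` would fail with the wrong sign for `insert a F'`).
`sk_inter`: let `F0 = F ∩ F'`, `r F = r F0 + 1`; take `a ∈ F \ F0` with `r (insert a F0) = r F` (`F0` is a flat, `flat_inter`, `F ≠ F0`);
`Sk` depends only on closures (`rk_cup_congr` for `insert a F0 ⊆ F`).  If `Sk` fails for `F0` then `a` is in the closure of `F0 ∪ Xi`, hence
of `F' ∪ Xi` (`RankFn.mono_insert`), so of `F'` (`sk_cl`), so `a ∈ F'` (`F'` is a flat), `a ∈ F0`, a contradiction.
-/

set_option autoImplicit false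

namespace Pool.Agent.CF98

open Finset Pool.Agent.DT3

variable {α : Type*} [DecidableEq α] {r : Finset α → ℕ} {G F F' X1 X2 : Finset α} {a : α}

theorem sk_le (h : RankFn r) (X1 X2 F : Finset α) :
    r (F ∪ (X1 ∪ X2)) + r F ≤ r (F ∪ X1) + r (F ∪ X2) := by
  have h1 := h.submod (F ∪ X1) (F ∪ X2)
  have h2 : (F ∪ X1) ∪ (F ∪ X2) = F ∪ (X1 ∪ X2) := by
    ext x; simp only [mem_union]; tauto
  have h3 : F ⊆ (F ∪ X1) ∩ (F ∪ X2) := subset_inter subset_union_left subset_union_left
  have h4 := h.mono _ _ h3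
  rw [h2] at h1
  omega

theorem sk_ins (h : RankFn r) (hS : Sk r X1 X2 (insert a F)) (hn : ¬ Sk r X1 X2 F) :
    r (insert a (F ∪ X1)) = r (F ∪ X1) ∧ r (insert a (F ∪ X2)) = r (F ∪ X2) := by
  unfold Sk at hS hn
  rw [insert_union, insert_union, insert_union] at hS
  have h0 := sk_le h X1 X2 F
  have e0 := h.insert_eq a F
  have e1 := h.insert_eq a (F ∪ X1)
  have e2 := h.insert_eq a (F ∪ X2)
  have e3 := h.insert_eq a (F ∪ (X1 ∪ X2))
  have k1 : r (insert a (F ∪ X1)) = r (F ∪ X1) →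
      r (insert a (F ∪ (X1 ∪ X2))) = r (F ∪ (X1 ∪ X2)) := fun hh =>
    h.mono_insert hh (union_subset_union_right subset_union_left)
  have k2 : r (insert a (F ∪ X2)) = r (F ∪ X2) →
      r (insert a (F ∪ (X1 ∪ X2))) = r (F ∪ (X1 ∪ X2)) := fun hh =>
    h.mono_insert hh (union_subset_union_right subset_union_right)
  rcases e1 with e1 | e1
  · have k1' := k1 e1
    refine ⟨e1, ?_⟩
    omega
  · rcases e2 with e2 | e2
    · have k2' := k2 e2
      omega
    · omega

theorem sk_cl (h : RankFn r) (hS : Sk r X1 X2 F) (h1 : r (insert a (F ∪ X1)) = r (F ∪ X1))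
    (h2 : r (insert a (F ∪ X2)) = r (F ∪ X2)) : r (insert a F) = r F := by
  unfold Sk at hS
  have h0 := sk_le h X1 X2 (insert a F)
  rw [insert_union, insert_union, insert_union] at h0
  have k1 : r (insert a (F ∪ (X1 ∪ X2))) = r (F ∪ (X1 ∪ X2)) :=
    h.mono_insert h1 (union_subset_union_right subset_union_left)
  have e0 := h.insert_eq a F
  omega

theorem sk_inter (h : RankFn r) (hF : IsFlat r G F) (hF' : IsFlat r G F') (hS : Sk r X1 X2 F)
    (hS' : Sk r X1 X2 F') (hr : r F = r (F ∩ F') + 1) : Sk r X1 X2 (F ∩ F') := by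
  have hfl := flat_inter h hF hF'
  by_contra hn
  have hne : F ∩ F' ≠ F := by
    intro e
    rw [e] at hr
    omega
  have hss : F ∩ F' ⊂ F := Finset.ssubset_iff_subset_ne.2 ⟨inter_subset_left, hne⟩
  obtain ⟨a, haF, ha0⟩ := exists_of_ssubset hss
  have haG : a ∈ G := hF.1 haF
  have h1 := hfl.2 a (mem_sdiff.2 ⟨haG, ha0⟩)
  have hins : insert a (F ∩ F') ⊆ F := insert_subset haF inter_subset_left
  have h2 := h.mono _ _ hins
  have h3 : r (insert a (F ∩ F')) = r F := by omega
  have hS0 : Sk r X1 X2 (insert a (F ∩ F')) := by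
    unfold Sk at hS ⊢
    rw [rk_cup_congr h hins h3, rk_cup_congr h hins h3, rk_cup_congr h hins h3, h3]
    exact hS
  obtain ⟨k1, k2⟩ := sk_ins h hS0 hn
  have k1' : r (insert a (F' ∪ X1)) = r (F' ∪ X1) :=
    h.mono_insert k1 (union_subset_union_left inter_subset_right)
  have k2' : r (insert a (F' ∪ X2)) = r (F' ∪ X2) :=
    h.mono_insert k2 (union_subset_union_left inter_subset_right)
  have k3 := sk_cl h hS' k1' k2'
  have haF' : a ∈ F' := by
    by_contra hh
    have := hF'.2 a (mem_sdiff.2 ⟨haG, hh⟩)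
    omega
  exact ha0 (mem_inter.2 ⟨haF, haF'⟩)

end Pool.Agent.CF98
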