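import Pool.Agent.CF98.Desc
import Pool.Agent.CF98.SkI
import Pool.Agent.CF98.Holes

/-!
If every `J ⊆ Y` with `|J| = f - 1`, `r (Y \ J) = f` spans `X1` or `X2`, then `X1` and `X2` are skew.

Proof.  `G = Y ∪ (X1 ∪ X2)`, `m = r`, `p X = |X ∩ Y| + r (Y \ X) - r Y` (`rk_dual`), `t = f - 1` (`f ≥ 1` by `hY`).  `r Y = f`: `≤` by
monotonicity; `≥`: `Y` is not empty (or `f = 1`, `|Y| = 1`; in any case `|Y| ≥ 1`), `2 f = |Y| + 1 ≤ 2 r Y`.
`m G = f`, `p G = |Y| + r ∅ - f = f - 1` (`G ∩ Y = Y`, `Y \ G = ∅`).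
`TT m p G t T ↔ T ⊆ Y ∧ |T| = f - 1 ∧ r T = f - 1 ∧ r (Y \ T) = f`: `→`: `|T ∩ Y| + r (Y \ T) - f = f - 1`, `|T ∩ Y| ≤ |T| = f - 1`,
`r (Y \ T) ≤ f`: equality everywhere (`f ≥ 1`; if `f = 1` then `T = ∅`, fine), so `T ∩ Y = T`.
Holes: `holes` (`g ∈ Y` is not a loop by `hs`; `r (insert g Y) = f`).
`S F := Sk r X1 X2 F`.  For a common basis `T`: `hJ` gives, say, `r (insert x T) = r T` for all `x ∈ X1`; so `X1 ⊆ clo r G T =: F`,
`F ∪ X1 = F`, `F ∪ (X1 ∪ X2) = F ∪ X2`: `Sk` holds.  `h2`: `sk_inter`.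
`desc` gives `Sk r X1 X2 (clo r G ∅)`; `clo r G ∅ = ∅` (`clo_empty_eq`), `r ∅ = 0`.
-/

set_option autoImplicit false

namespace Pool.Agent.CF98

open Finset Pool.Agent.DT3

variable {α : Type*} [DecidableEq α] {r : Finset α → ℕ} {Y X1 X2 : Finset α} {f : ℕ}

theorem skew (h : RankFn r) (hY : Y.card + 1 = 2 * f)
    (hs : ∀ X ⊆ Y, X.Nonempty → X.card + 1 ≤ 2 * r X) (hl : ∀ x ∈ X1 ∪ X2, 0 < r {x})
    (hr : r (Y ∪ (X1 ∪ X2)) = f)
    (hJ : ∀ J ⊆ Y, J.card + 1 = f → r J + 1 = f → r (Y \ J) = f →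
      (∀ x ∈ X1, r (insert x J) = r J) ∨ (∀ x ∈ X2, r (insert x J) = r J)) :
    r X1 + r X2 = r (X1 ∪ X2) := by
  set G : Finset α := Y ∪ (X1 ∪ X2) with hG
  have hYG : Y ⊆ G := subset_union_left
  have hX1G : X1 ⊆ G := fun x hx => mem_union_right _ (mem_union_left _ hx)
  have hX2G : X2 ⊆ G := fun x hx => mem_union_right _ (mem_union_right _ hx)
  have hf : 1 ≤ f := by omega
  have hYne : Y.Nonempty := by
    rw [← card_pos]; omega
  have hrY : r Y = f := by
    have h1 := hs Y (Subset.refl Y) hYne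
    have h2 := h.mono Y G hYG
    omega
  have hloop : ∀ g ∈ G, 0 < r {g} := by
    intro g hg
    rcases mem_union.1 hg with hg | hg
    · have h1 := hs {g} (singleton_subset_iff.2 hg) (singleton_nonempty g)
      rw [card_singleton] at h1
      omega
    · exact hl g hg
  have hp := rk_dual h Y
  have hmain : Sk r X1 X2 (clo r G ∅) := by
    refine desc G.card G r (fun X : Finset α => (X ∩ Y).card + r (Y \ X) - r Y) (f - 1)
      (fun F => Sk r X1 X2 F) le_rfl h hp (by omega) ?_ ?_ ?_ ?_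
    · show (G ∩ Y).card + r (Y \ G) - r Y = f - 1
      rw [inter_eq_right.2 hYG, sdiff_eq_empty_iff_subset.2 hYG, h.empty, hrY]
      omega
    · intro g hg
      have h1 : r (insert g Y) = f := by
        have h2 := h.mono Y (insert g Y) (subset_insert g Y)
        have h3 := h.mono (insert g Y) G (insert_subset hg hYG)
        omega
      obtain ⟨T, hT, hT1, hT2, hT3, hT4⟩ := holes h hY hs (hloop g hg) h1
      refine ⟨T, ⟨hT.trans hYG, by omega, by omega, ?_⟩, by omega⟩
      show (T ∩ Y).card + r (Y \ T) - r Y = f - 1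
      rw [inter_eq_left.2 hT, hT3, hrY]
      omega
    · rintro T ⟨hT1, hT2, hT3, hT4⟩
      have hT4' : (T ∩ Y).card + r (Y \ T) - r Y = f - 1 := hT4
      rw [hrY] at hT4'
      have h1 : (T ∩ Y).card ≤ T.card := card_le_card inter_subset_left
      have h2 : r (Y \ T) ≤ r Y := h.mono _ _ sdiff_subset
      have h3 : (T ∩ Y).card = T.card ∧ r (Y \ T) = f := by
        rcases Nat.eq_or_lt_of_le hf with hf1 | hf1
        · have h4 : T = ∅ := by rw [← card_eq_zero]; omega
          subst h4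
          refine ⟨by simp, by rw [sdiff_empty, hrY]⟩
        · omega
      have h4 : T ⊆ Y := by
        have h5 : T ∩ Y = T := eq_of_subset_of_card_le inter_subset_left (by omega)
        exact inter_eq_left.1 h5
      have h5 := hJ T h4 (by omega) (by omega) h3.2
      show Sk r X1 X2 (clo r G T)
      unfold Sk
      rcases h5 with h5 | h5
      · have h6 : X1 ⊆ clo r G T := fun x hx => by
          rw [clo, mem_filter]; exact ⟨hX1G hx, h5 x hx⟩
        rw [← union_assoc, union_eq_left.2 h6]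
        omega
      · have h6 : X2 ⊆ clo r G T := fun x hx => by
          rw [clo, mem_filter]; exact ⟨hX2G hx, h5 x hx⟩
        rw [union_comm X1 X2, ← union_assoc, union_eq_left.2 h6]
    · intro F F' hF hF' hS hS' hrF
      exact sk_inter h hF hF' hS hS' hrF
  have hce : clo r G ∅ = ∅ := by
    apply eq_empty_of_forall_notMem
    intro e he
    rw [clo, mem_filter, insert_empty_eq, h.empty] at he
    have h1 := hloop e he.1
    omega
  rw [hce] at hmain
  unfold Sk at hmain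
  rw [empty_union, empty_union, empty_union, h.empty] at hmain
  omega

end Pool.Agent.CF98
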