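import Pool.Agent.CF98.Good
import Pool.Agent.CF98.FlatMinor

/-!
Splitting along a tight set `X ⊆ E`, `|X| = 3 r X` (`f₁ = r X`, `r' Y = r (Y ∪ X) - r X`, `E' = E \ X`, `f' = f - r X`).

* `env_res`: `Env r X (r X)`.
* `env_con`: `Env r' (E \ X) (f - r X)`: `|E \ X| = 3 f - 3 r X`; `r' (E \ X) = r E - r X`; for `Y ⊆ E \ X`: `|Y| + |X| = |Y ∪ X| ≤ 3 r (Y ∪ X)`.
* `bs_inter`: a block `B` of a partition of `E` into three bases has `|B ∩ X| = r X = r (B ∩ X)`: `|X| = ∑ |B_i ∩ X| ≤ 3 r X`, equality everywhere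
  (`ind_sub`).  Here for a good basis `A` (with `gd_parts`).
* `gd_res`: `A ∩ X` is good in `X`: `Two r (X \ A)`.
* `gd_con`: `A \ X` is good in `E \ X` for `r'`: `|A \ X| = f - r X`; `r' (A \ X) = r (A ∪ X) - r X = f - r X`; `Two r' ((E \ X) \ (A \ X))`: for
  `Y ⊆ E \ (A ∪ X)`: `Y ∪ (X \ A) ⊆ E \ A`, `|Y| + |X \ A| ≤ 2 r (Y ∪ (X \ A)) ≤ 2 r (Y ∪ X)`, `|X \ A| = 2 r X`.
* `bs_glue`: `B₁ ⊆ X` with `Bs r (r X) B₁`, `B₂ ⊆ E \ X` with `Bs r' (f - r X) B₂`: `Bs r f (B₁ ∪ B₂)`: `r (B₁ ∪ B₂) = r (X ∪ B₂) = r' B₂ + r X`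
  (`rk_cup_congr`; `r X ≤ f`).
* `gd_glue`: the same for good bases: `Gd r E f (A₁ ∪ A₂)` (parts: `gd_parts` for both, `gd_of_parts`).
* `stp_glue_left`: `Stp r X (r X) A₁ A₁'` and `A₂` good in `E \ X`: `Stp r E f (A₁ ∪ A₂) (A₁' ∪ A₂)`: let `C₂`, `D₂` be the other parts for `A₂` (`gd_parts`);
  the common block is `C₁ ∪ C₂`; `E \ ((A₁ ∪ A₂) ∪ (C₁ ∪ C₂)) = (X \ (A₁ ∪ C₁)) ∪ ((E \ X) \ (A₂ ∪ C₂))`.
* `stp_glue_right`: likewise.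
-/

set_option autoImplicit false

namespace Pool.Agent.CF98

open Finset Pool.Agent.DT3

variable {α : Type*} [DecidableEq α] {r : Finset α → ℕ} {E X A A₁ A₁' A₂ A₂' : Finset α} {f : ℕ}

private theorem SplitA_le (hE : Env r E f) (hX : X ⊆ E) : r X ≤ f := by
  have h := hE.rk.mono X E hX
  rw [hE.rank] at h
  exact h

private theorem SplitA_ge (h : RankFn r) (Y X : Finset α) : r X ≤ r (Y ∪ X) :=
  h.mono X (Y ∪ X) subset_union_right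

theorem env_res (hE : Env r E f) (hX : X ⊆ E) (ht : X.card = 3 * r X) : Env r X (r X) :=
  ⟨hE.rk, ht, rfl, fun Y hY => hE.three Y (hY.trans hX)⟩

theorem env_con (hE : Env r E f) (hX : X ⊆ E) (ht : X.card = 3 * r X) :
    Env (fun Y => r (Y ∪ X) - r X) (E \ X) (f - r X) := by
  refine ⟨contr_rank hE.rk X, ?_, ?_, fun Y hY => ?_⟩
  · have h1 := card_sdiff_add_card_eq_card hX
    have h2 := hE.card
    omega
  · rw [sdiff_union_of_subset hX, hE.rank]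
  · have hd : Disjoint Y X := disjoint_of_subset_left hY sdiff_disjoint
    have h1 := hE.three (Y ∪ X) (union_subset (hY.trans sdiff_subset) hX)
    rw [card_union_of_disjoint hd] at h1
    have h2 := SplitA_ge hE.rk Y X
    omega

private theorem SplitA_inter (hE : Env r E f) (hX : X ⊆ E) (ht : X.card = 3 * r X)
    (hA : Gd r E f A) : (A ∩ X).card = r X ∧ r (A ∩ X) = r X := by
  obtain ⟨C, hC, hAC, hBC, hBD⟩ := gd_parts hE hA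
  have e1 : r (A ∩ X) = (A ∩ X).card :=
    ind_sub hE.rk (hA.2.1.2.trans hA.2.1.1.symm) inter_subset_left
  have e2 : r (C ∩ X) = (C ∩ X).card :=
    ind_sub hE.rk (hBC.2.trans hBC.1.symm) inter_subset_left
  have e3 : r ((E \ (A ∪ C)) ∩ X) = ((E \ (A ∪ C)) ∩ X).card :=
    ind_sub hE.rk (hBD.2.trans hBD.1.symm) inter_subset_left
  have m1 := hE.rk.mono (A ∩ X) X inter_subset_right
  have m2 := hE.rk.mono (C ∩ X) X inter_subset_right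
  have m3 := hE.rk.mono ((E \ (A ∪ C)) ∩ X) X inter_subset_right
  have hu : X = ((A ∩ X) ∪ (C ∩ X)) ∪ ((E \ (A ∪ C)) ∩ X) := by
    ext x
    simp only [mem_union, mem_inter, mem_sdiff]
    constructor
    · intro hx
      have hxE := hX hx
      tauto
    · tauto
  have hc : X.card ≤ (A ∩ X).card + (C ∩ X).card + ((E \ (A ∪ C)) ∩ X).card := by
    conv_lhs => rw [hu]
    exact (card_union_le _ _).trans (Nat.add_le_add_right (card_union_le _ _) _)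
  omega

theorem gd_res (hE : Env r E f) (hX : X ⊆ E) (ht : X.card = 3 * r X) (hA : Gd r E f A) :
    Gd r X (r X) (A ∩ X) := by
  refine ⟨inter_subset_right, SplitA_inter hE hX ht hA, fun Y hY => hA.2.2 Y fun y hy => ?_⟩
  have h1 := mem_sdiff.1 (hY hy)
  refine mem_sdiff.2 ⟨hX h1.1, fun h2 => h1.2 (mem_inter.2 ⟨h2, h1.1⟩)⟩

theorem gd_con (hE : Env r E f) (hX : X ⊆ E) (ht : X.card = 3 * r X) (hA : Gd r E f A) :
    Gd (fun Y => r (Y ∪ X) - r X) (E \ X) (f - r X) (A \ X) := by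
  have hi := SplitA_inter hE hX ht hA
  refine ⟨sdiff_subset_sdiff hA.1 (Subset.refl X), ⟨?_, ?_⟩, fun Y hY => ?_⟩
  · have h1 := card_sdiff_add_card_inter A X
    have h2 := hA.2.1.1
    have h3 := hi.1
    omega
  · simp only
    rw [sdiff_union_self_eq_union]
    have h1 := hE.rk.mono A (A ∪ X) subset_union_left
    have h2 := hE.rk.mono (A ∪ X) E (union_subset hA.1 hX)
    have h3 := hA.2.1.2
    have h4 := hE.rank
    omega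
  · simp only
    have hYE : ∀ y ∈ Y, y ∈ E ∧ y ∉ X ∧ y ∉ A := by
      intro y hy
      have h1 := hY hy
      simp only [mem_sdiff, not_and, not_not] at h1
      exact ⟨h1.1.1, h1.1.2, fun h2 => h1.1.2 (h1.2 h2)⟩
    have hd : Disjoint Y (X \ A) := by
      rw [disjoint_left]
      intro y hy hy'
      exact (hYE y hy).2.1 (mem_sdiff.1 hy').1
    have hs : Y ∪ (X \ A) ⊆ E \ A := by
      intro y hy
      rcases mem_union.1 hy with h1 | h1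
      · exact mem_sdiff.2 ⟨(hYE y h1).1, (hYE y h1).2.2⟩
      · exact mem_sdiff.2 ⟨hX (mem_sdiff.1 h1).1, (mem_sdiff.1 h1).2⟩
    have h1 := hA.2.2 _ hs
    rw [card_union_of_disjoint hd] at h1
    have h2 := hE.rk.mono (Y ∪ (X \ A)) (Y ∪ X) (union_subset_union_right sdiff_subset)
    have h3 := card_sdiff_add_card_inter X A
    rw [inter_comm] at h3
    have h4 := hi.1
    have h5 := SplitA_ge hE.rk Y X
    omega

private theorem SplitA_bs {B₁ B₂ : Finset α} (hE : Env r E f) (hX : X ⊆ E) (hB₁ : B₁ ⊆ X)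
    (hB₂ : B₂ ⊆ E \ X) (h1 : Bs r (r X) B₁)
    (h2 : Bs (fun Y => r (Y ∪ X) - r X) (f - r X) B₂) : Bs r f (B₁ ∪ B₂) := by
  have hle := SplitA_le hE hX
  have hd : Disjoint B₁ B₂ := by
    rw [disjoint_left]
    intro x hx hx'
    exact (mem_sdiff.1 (hB₂ hx')).2 (hB₁ hx)
  refine ⟨?_, ?_⟩
  · rw [card_union_of_disjoint hd, h1.1, h2.1]
    omega
  · rw [rk_cup_congr hE.rk hB₁ h1.2 B₂, union_comm]
    have h3 : r (B₂ ∪ X) - r X = f - r X := h2.2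
    have h4 := SplitA_ge hE.rk B₂ X
    omega

private theorem SplitA_sdiff {A₁ A₂ C₁ C₂ : Finset α} (hX : X ⊆ E) (hA₁ : A₁ ⊆ X) (hC₁ : C₁ ⊆ X)
    (hA₂ : A₂ ⊆ E \ X) (hC₂ : C₂ ⊆ E \ X) :
    E \ ((A₁ ∪ A₂) ∪ (C₁ ∪ C₂)) = (X \ (A₁ ∪ C₁)) ∪ ((E \ X) \ (A₂ ∪ C₂)) := by
  ext x
  have h1 : x ∈ A₁ → x ∈ X := fun h => hA₁ h
  have h2 : x ∈ C₁ → x ∈ X := fun h => hC₁ h
  have h3 : x ∈ A₂ → x ∉ X := fun h => (mem_sdiff.1 (hA₂ h)).2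
  have h4 : x ∈ C₂ → x ∉ X := fun h => (mem_sdiff.1 (hC₂ h)).2
  have h5 : x ∈ X → x ∈ E := fun h => hX h
  simp only [mem_sdiff, mem_union]
  tauto

private theorem SplitA_disj {A₁ A₂ C₁ C₂ : Finset α} (hA₁ : A₁ ⊆ X) (hC₁ : C₁ ⊆ X)
    (hA₂ : A₂ ⊆ E \ X) (hC₂ : C₂ ⊆ E \ X) (h1 : Disjoint A₁ C₁) (h2 : Disjoint A₂ C₂) :
    Disjoint (A₁ ∪ A₂) (C₁ ∪ C₂) := by
  rw [disjoint_left] at h1 h2 ⊢
  intro x hx hx'
  rcases mem_union.1 hx with h | h <;> rcases mem_union.1 hx' with h' | h'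
  · exact h1 h h'
  · exact (mem_sdiff.1 (hC₂ h')).2 (hA₁ h)
  · exact (mem_sdiff.1 (hA₂ h)).2 (hC₁ h')
  · exact h2 h h'

private theorem SplitA_sub {B₁ B₂ : Finset α} (hX : X ⊆ E) (h1 : B₁ ⊆ X) (h2 : B₂ ⊆ E \ X) :
    B₁ ∪ B₂ ⊆ E :=
  union_subset (h1.trans hX) (h2.trans sdiff_subset)

theorem gd_glue (hE : Env r E f) (hX : X ⊆ E) (ht : X.card = 3 * r X) (h1 : Gd r X (r X) A₁)
    (h2 : Gd (fun Y => r (Y ∪ X) - r X) (E \ X) (f - r X) A₂) : Gd r E f (A₁ ∪ A₂) := by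
  obtain ⟨C₁, hC₁, hd₁, hb₁, hc₁⟩ := gd_parts (env_res hE hX ht) h1
  obtain ⟨C₂, hC₂, hd₂, hb₂, hc₂⟩ := gd_parts (env_con hE hX ht) h2
  refine gd_of_parts hE (SplitA_sub hX h1.1 h2.1) (SplitA_bs hE hX h1.1 h2.1 h1.2.1 h2.2.1)
    (SplitA_sub hX hC₁ hC₂) (SplitA_disj h1.1 hC₁ h2.1 hC₂ hd₁ hd₂)
    (SplitA_bs hE hX hC₁ hC₂ hb₁ hb₂) ?_
  rw [SplitA_sdiff hX h1.1 hC₁ h2.1 hC₂]
  exact SplitA_bs hE hX sdiff_subset sdiff_subset hc₁ hc₂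

theorem stp_glue_left (hE : Env r E f) (hX : X ⊆ E) (ht : X.card = 3 * r X)
    (h1 : Stp r X (r X) A₁ A₁')
    (h2 : Gd (fun Y => r (Y ∪ X) - r X) (E \ X) (f - r X) A₂) :
    Stp r E f (A₁ ∪ A₂) (A₁' ∪ A₂) := by
  obtain ⟨hA, hA', hB, hB', C₁, hC₁, hd, hd', hbC, hbD, hbD'⟩ := h1
  obtain ⟨C₂, hC₂, hd₂, hb₂, hc₂⟩ := gd_parts (env_con hE hX ht) h2
  refine ⟨SplitA_sub hX hA h2.1, SplitA_sub hX hA' h2.1, SplitA_bs hE hX hA h2.1 hB h2.2.1,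
    SplitA_bs hE hX hA' h2.1 hB' h2.2.1, C₁ ∪ C₂, SplitA_sub hX hC₁ hC₂,
    SplitA_disj hA hC₁ h2.1 hC₂ hd hd₂, SplitA_disj hA' hC₁ h2.1 hC₂ hd' hd₂,
    SplitA_bs hE hX hC₁ hC₂ hbC hb₂, ?_, ?_⟩
  · rw [SplitA_sdiff hX hA hC₁ h2.1 hC₂]
    exact SplitA_bs hE hX sdiff_subset sdiff_subset hbD hc₂
  · rw [SplitA_sdiff hX hA' hC₁ h2.1 hC₂]
    exact SplitA_bs hE hX sdiff_subset sdiff_subset hbD' hc₂

theorem stp_glue_right (hE : Env r E f) (hX : X ⊆ E) (ht : X.card = 3 * r X)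
    (h1 : Gd r X (r X) A₁)
    (h2 : Stp (fun Y => r (Y ∪ X) - r X) (E \ X) (f - r X) A₂ A₂') :
    Stp r E f (A₁ ∪ A₂) (A₁ ∪ A₂') := by
  obtain ⟨hA, hA', hB, hB', C₂, hC₂, hd, hd', hbC, hbD, hbD'⟩ := h2
  obtain ⟨C₁, hC₁, hd₁, hb₁, hc₁⟩ := gd_parts (env_res hE hX ht) h1
  refine ⟨SplitA_sub hX h1.1 hA, SplitA_sub hX h1.1 hA', SplitA_bs hE hX h1.1 hA h1.2.1 hB,
    SplitA_bs hE hX h1.1 hA' h1.2.1 hB', C₁ ∪ C₂, SplitA_sub hX hC₁ hC₂,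
    SplitA_disj h1.1 hC₁ hA hC₂ hd₁ hd, SplitA_disj h1.1 hC₁ hA' hC₂ hd₁ hd',
    SplitA_bs hE hX hC₁ hC₂ hb₁ hbC, ?_, ?_⟩
  · rw [SplitA_sdiff hX h1.1 hC₁ hA hC₂]
    exact SplitA_bs hE hX sdiff_subset sdiff_subset hc₁ hbD
  · rw [SplitA_sdiff hX h1.1 hC₁ hA' hC₂]
    exact SplitA_bs hE hX sdiff_subset sdiff_subset hc₁ hbD'

end Pool.Agent.CF98
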