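import Pool.Agent.CF98.Ct
import Pool.Agent.CF98.LC

/-!
STEP 1 (note 1340, helper34): every class of good bases contains one whose complement has exactly one minimal tight set.

Proof.  Let `m` be the minimum of `(MT r (E \ A')).card` over the good `A'` with `Q A'`, attained at `A`.  `m ≥ 1`: `E \ A` is tight
(`|E \ A| = 2 f`, `r (E \ A) = f` by `Two`), non-empty (`f > 0`), `mt_exists`.  Suppose `m ≥ 2`.  Take `X₀ ∈ MT r (E \ A)`, `y₀ ∈ X₀`,
`G₀ = insert y₀ A`, `Y₀ = E \ G₀ = (E \ A).erase y₀`, `U` the largest tight subset of `Y₀` (`ti_max`, or `gg_of_gd`): `GG r E f U G₀`.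
`MT r U = MT r Y₀ = (MT r (E \ A)).erase X₀` (`mt_sub`, `mt_del`) has `m - 1 ≥ 1` elements; so `U` is not empty.
`𝒢 = {G | GG r E f U G ∧ (KK r f U Q G).Nonempty}`, `K G = KK r f U Q G`.  We check `Fam r E f U 𝒢 K`:
* `gg`, `sub`, `ne`, `nocl` by definition; `dep` is `lc`; `out`: `q ∈ U` (`U ⊆ E \ G`).
* `mv`: let `b ∈ K G`, `Y = E \ G`.  `G.erase b` is good (`gd_of_GG`) and in `Q`, so `m ≤ (MT r (insert b Y)).card` (`E \ G.erase b = insert b Y`), and
 `(MT r Y).card = (MT r U).card = m - 1` (`mt_sub`); `mt_ins` gives `X`.  For `y ∈ X.erase b`, `G' = insert y (G.erase b)`: `GG r E f U G'` by `mv_gg`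
 (`r (G.erase b) = f` from `KK`), and `y ∈ KK r f U Q G'`: `G'.erase y = G.erase b` (`mv_sdiff`), `r (insert y U) ≠ r U` (`mv_gg`).
`G₀ ∈ 𝒢`: `y₀ ∈ KK r f U Q G₀`: `G₀.erase y₀ = A`; `r (insert y₀ U) ≠ r U` by `ti_closed` in `E \ A` (`y₀ ∉ U`).
`ct` gives `Crit3 r E`, a contradiction.
-/

set_option autoImplicit false

namespace Pool.Agent.CF98

open Finset Pool.Agent.DT3

variable {α : Type*} [DecidableEq α] {r : Finset α → ℕ} {E A : Finset α} {f : ℕ}
  {Q : Finset α → Prop}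

open Classical in
private theorem so_mem {U G : Finset α} {b : α} : b ∈ KK r f U Q G ↔
    b ∈ G ∧ r (G.erase b) = f ∧ r (insert b U) ≠ r U ∧ Q (G.erase b) := by
  unfold KK
  rw [mem_filter]

theorem step_one (hE : Env r E f) (hf : 0 < f) (hs : Strict r E) (h3 : ¬ Crit3 r E)
    (hQ : ∀ A A', Stp r E f A A' → Q A → Q A') (hA : Gd r E f A) (hQA : Q A) :
    ∃ A', Gd r E f A' ∧ Q A' ∧ (MT r (E \ A')).card = 1 := by
  classical
  have hex : ∃ n, ∃ A', Gd r E f A' ∧ Q A' ∧ (MT r (E \ A')).card = n := ⟨_, A, hA, hQA, rfl⟩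
  obtain ⟨A₀, hA₀, hQ₀, hm⟩ := Nat.find_spec hex
  have hmin : ∀ A', Gd r E f A' → Q A' → (MT r (E \ A₀)).card ≤ (MT r (E \ A')).card := by
    intro A' h1 h2
    rw [hm]
    exact Nat.find_min' hex ⟨A', h1, h2, rfl⟩
  clear hm hA hQA
  refine ⟨A₀, hA₀, hQ₀, ?_⟩
  have hcard : (E \ A₀).card = 2 * f := by
    rw [card_sdiff_of_subset hA₀.1, hE.card, hA₀.2.1.1]
    omega
  have hne : (E \ A₀).Nonempty := by
    rw [← card_pos, hcard]
    omega
  have hrk : r (E \ A₀) = f := by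
    have h1 := hA₀.2.2 (E \ A₀) (Subset.refl _)
    have h2 := hE.rk.mono (E \ A₀) E sdiff_subset
    rw [hE.rank] at h2
    omega
  obtain ⟨X₀, hX₀, -⟩ := mt_exists (r := r) (Subset.refl (E \ A₀)) hne (by rw [hcard, hrk])
  have hpos : 0 < (MT r (E \ A₀)).card := card_pos.2 ⟨X₀, hX₀⟩
  by_contra hne1
  have hm2 : 2 ≤ (MT r (E \ A₀)).card := by omega
  obtain ⟨y₀, hy₀⟩ := (mt_mem.1 hX₀).2.1
  have hy₀E : y₀ ∈ E \ A₀ := (mt_mem.1 hX₀).1 hy₀
  have hy₀A : y₀ ∉ A₀ := (mem_sdiff.1 hy₀E).2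
  obtain ⟨U, hG₀⟩ := gg_of_gd hE hA₀ hy₀E
  have hY₀ : E \ insert y₀ A₀ = (E \ A₀).erase y₀ := by
    ext x
    simp only [mem_sdiff, mem_insert, mem_erase]
    tauto
  have hMT : (MT r U).card + 1 = (MT r (E \ A₀)).card := by
    rw [← mt_sub hG₀.subU hG₀.max, hY₀, mt_del hE.rk hA₀.2.2 hX₀ hy₀, card_erase_of_mem hX₀]
    omega
  have hUne : ∃ q, q ∈ U := by
    have h1 : 0 < (MT r U).card := by omega
    obtain ⟨X, hX⟩ := card_pos.1 h1
    obtain ⟨x, hx⟩ := (mt_mem.1 hX).2.1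
    exact ⟨x, (mt_mem.1 hX).1 hx⟩
  obtain ⟨q, hq⟩ := hUne
  have hFam : Fam r E f U {G | GG r E f U G ∧ (KK r f U Q G).Nonempty} (KK r f U Q) := by
    refine ⟨?_, ?_, ?_, ?_, ?_, ?_, ?_⟩
    · intro G hG
      exact hG.1
    · intro G _ b hb
      exact (so_mem.1 hb).1
    · intro G hG
      exact hG.2
    · intro G _ b hb
      exact (so_mem.1 hb).2.2.1
    · intro G hG b hb
      exact lc hE hQ hG.1 hb
    · intro G hG b hb
      obtain ⟨hbG, hbr, hbU, hbQ⟩ := so_mem.1 hb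
      have hgd := gd_of_GG hE hG.1 hbG hbr hbU
      have he : E \ G.erase b = insert b (E \ G) := by
        ext x
        simp only [mem_sdiff, mem_erase, mem_insert]
        constructor
        · rintro ⟨h1, h2⟩
          by_cases hx : x = b
          · exact Or.inl hx
          · exact Or.inr ⟨h1, fun h4 => h2 ⟨hx, h4⟩⟩
        · rintro (rfl | ⟨h1, h2⟩)
          · exact ⟨hG.1.sub hbG, fun h => h.1 rfl⟩
          · exact ⟨h1, fun h => h2 h.2⟩
      have h2 : Two r (insert b (E \ G)) := by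
        rw [← he]
        exact hgd.2.2
      have h5 := hmin _ hgd hbQ
      rw [he] at h5
      have h6 : MT r (E \ G) = MT r U := mt_sub hG.1.subU hG.1.max
      have hbY : b ∉ E \ G := fun h => (mem_sdiff.1 h).2 hbG
      obtain ⟨X, hX, hbX, hXU⟩ := mt_ins hE.rk hG.1.subU hG.1.cardU hG.1.max hbY h2 (by
        rw [h6]
        omega)
      refine ⟨X, hX, hbX, hXU, ?_⟩
      intro y hy
      obtain ⟨g1, g2⟩ := mv_gg hE hG.1 hbG hbr hbU hX hbX hXU hy
      obtain ⟨-, -, e3, -, -, -⟩ := mv_sdiff hG.1 hbG hX hy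
      have h7 : y ∈ KK r f U Q (insert y (G.erase b)) := by
        rw [so_mem, e3]
        exact ⟨mem_insert_self _ _, hbr, g2, hbQ⟩
      exact ⟨⟨g1, ⟨y, h7⟩⟩, h7⟩
    · refine ⟨q, (mem_sdiff.1 (hG₀.subU hq)).1, fun G hG => ?_⟩
      exact (mem_sdiff.1 (hG.1.subU hq)).2
  have hne𝒢 : ({G | GG r E f U G ∧ (KK r f U Q G).Nonempty} : Set (Finset α)).Nonempty := by
    refine ⟨insert y₀ A₀, hG₀, y₀, ?_⟩
    rw [so_mem, erase_insert hy₀A]
    refine ⟨mem_insert_self _ _, hA₀.2.1.2, ?_, hQ₀⟩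
    intro hc
    have hUE : U ⊆ E \ A₀ := hG₀.subU.trans (by
      rw [hY₀]
      exact erase_subset _ _)
    have h1 := ti_closed hE.rk hA₀.2.2 hUE hG₀.cardU hy₀E hc
    exact (mem_sdiff.1 (hG₀.subU h1)).2 (mem_insert_self _ _)
  exact h3 (ct hE hs hFam hne𝒢)

end Pool.Agent.CF98
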