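import Pool.Agent.CF98.Pair
import Pool.Agent.CF98.Ct

/-!
STEP 2 (note 1340, helper34): the good bases with a unique minimal tight set in the complement are in one class.

Proof.  Suppose `A₁`, `B₁` are in `WW`, `Q A₁`, `¬ Q B₁`, with `|A₁ \ B₁|` minimal: `CP r E f Q A₁ B₁`.  `P = A₁ \ B₁`, `R = B₁ \ A₁`; `R` is not empty
(otherwise `B₁ ⊆ A₁`, both have `f` elements, `A₁ = B₁`).
`𝒢 = {G | ∃ A B T y, CP r E f Q A B ∧ A \ B = P ∧ B \ A = R ∧ MT r (E \ A) = {T} ∧ y ∈ T ∧ G = insert y A}`, `U = ∅`,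
`K G = G.filter (fun b => r (G.erase b) = f)`.  `Fam r E f ∅ 𝒢 K`:
* `gg`: `uni_gg`; `sub` clear; `ne`: `y ∈ K G` (`(insert y A).erase y = A` since `y ∉ A`).
* `nocl`: no loops.  `dep`: `circ_dep` (`r G = f`, `∅ ∪ X = X`).
* `mv`: `G = insert y A`, `b ∈ K G`.  `pair_move`: `A' = G.erase b`, `B'`, `T'` with `b ∈ T'`, `MT r (E \ A') = {T'}`, and `E \ A' = insert b (E \ G)` (`b ∈ G ⊆ E`).
 `X = T'`.  For `y' ∈ T'.erase b`: `insert y' (G.erase b) = insert y' A'` is in `𝒢` by definition (`A' \ B' = A \ B = P` ...), and `y' ∈ K (insert y' A')`.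
* `out`: `q ∈ R`: `q ∈ B`, `q ∉ A`, and `q ≠ y` because `y ∈ T`, `Disjoint T B` (`pair_eq`).
`𝒢` is not empty (`A₁`, `B₁`, `y ∈ T` exists by `uni_tight`).  `ct` gives `Crit3 r E`, a contradiction.
-/

set_option autoImplicit false

namespace Pool.Agent.CF98

open Finset Pool.Agent.DT3

variable {α : Type*} [DecidableEq α] {r : Finset α → ℕ} {E A B : Finset α} {f : ℕ}
  {Q : Finset α → Prop}

theorem step_two (hE : Env r E f) (hs : Strict r E) (hl : ∀ e ∈ E, 0 < r {e}) (h3 : ¬ Crit3 r E)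
    (hQ : ∀ A A', Stp r E f A A' → Q A → Q A') (hA : WW r E f A) (hB : WW r E f B) (hQA : Q A) :
    Q B := by
  by_contra hQB
  have hex : ∃ A₁ B₁, CP r E f Q A₁ B₁ := by
    classical
    have hex : ∃ n, ∃ A' B', WW r E f A' ∧ WW r E f B' ∧ Q A' ∧ ¬ Q B' ∧ (A' \ B').card = n :=
      ⟨_, A, B, hA, hB, hQA, hQB, rfl⟩
    obtain ⟨A₁, B₁, g1, g2, g3, g4, g5⟩ := Nat.find_spec hex
    refine ⟨A₁, B₁, g1, g2, g3, g4, fun A' B' e1 e2 e3 e4 => ?_⟩
    rw [g5]
    exact Nat.find_min' hex ⟨A', B', e1, e2, e3, e4, rfl⟩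
  obtain ⟨A₁, B₁, hP⟩ := hex
  have hR : (B₁ \ A₁).Nonempty := by
    rw [Finset.nonempty_iff_ne_empty]
    intro h
    rw [sdiff_eq_empty_iff_subset] at h
    have h' := eq_of_subset_of_card_le h (by rw [hP.wA.1.2.1.1, hP.wB.1.2.1.1])
    exact hP.qB (h' ▸ hP.qA)
  obtain ⟨q, hq⟩ := hR
  have hF : Fam r E f ∅ {G | ∃ A B T y, CP r E f Q A B ∧ A \ B = A₁ \ B₁ ∧ B \ A = B₁ \ A₁ ∧
      MT r (E \ A) = {T} ∧ y ∈ T ∧ G = insert y A}
      (fun G => G.filter (fun b => r (G.erase b) = f)) := by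
    refine ⟨?_, ?_, ?_, ?_, ?_, ?_, ?_⟩
    · rintro G ⟨A, B, T, y, hP, h1, h2, hT, hy, rfl⟩
      exact uni_gg hE hP.wA.1 hT hy
    · rintro G -
      exact filter_subset _ _
    · rintro G ⟨A, B, T, y, hP, h1, h2, hT, hy, rfl⟩
      have hyA : y ∉ A := (mem_sdiff.1 ((uni_tight hT).1 hy)).2
      refine ⟨y, mem_filter.2 ⟨mem_insert_self _ _, ?_⟩⟩
      rw [erase_insert hyA]
      exact hP.wA.1.2.1.2
    · rintro G ⟨A, B, T, y, hP, h1, h2, hT, hy, rfl⟩ b hb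
      have hG := uni_gg hE hP.wA.1 hT hy
      have hbE := hl b (hG.sub (mem_filter.1 hb).1)
      have h5 : insert b (∅ : Finset α) = {b} := rfl
      rw [h5, hE.rk.empty]
      omega
    · rintro G ⟨A, B, T, y, hP, h1, h2, hT, hy, rfl⟩ b hb
      have hG := uni_gg hE hP.wA.1 hT hy
      rw [mem_filter] at hb
      have h5 := circ_dep hE.rk hb.1 (by rw [hb.2, hG.rank])
      rw [hG.rank] at h5
      rw [empty_union, empty_union]
      exact h5
    · rintro G ⟨A, B, T, y, hP, h1, h2, hT, hy, rfl⟩ b hb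
      have hG := uni_gg hE hP.wA.1 hT hy
      rw [mem_filter] at hb
      have hbE : b ∈ E := hG.sub hb.1
      obtain ⟨hP', h3', h4', T', hT', hbT'⟩ := pair_move hE hl hQ hP hT hy hb.1 hb.2
      have hED : E \ (insert y A).erase b = insert b (E \ insert y A) := by
        ext x
        simp only [mem_sdiff, mem_erase, mem_insert]
        constructor
        · rintro ⟨hx, hx'⟩
          by_cases hxb : x = b
          · exact Or.inl hxb
          · exact Or.inr ⟨hx, fun hh => hx' ⟨hxb, hh⟩⟩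
        · rintro (rfl | ⟨hx, hx'⟩)
          · exact ⟨hbE, fun hh => hh.1 rfl⟩
          · exact ⟨hx, fun hh => hx' hh.2⟩
      have hT'' := hT'
      rw [hED] at hT'
      refine ⟨T', by rw [hT']; exact mem_singleton_self _, hbT', disjoint_empty_right _, ?_⟩
      intro y' hy'
      have hy'T := (mem_erase.1 hy').2
      have hy'A : y' ∉ (insert y A).erase b := (mem_sdiff.1 ((uni_tight hT'').1 hy'T)).2
      refine ⟨⟨_, _, T', y', hP', by rw [h3', h1], by rw [h4', h2], hT'', hy'T, rfl⟩, ?_⟩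
      refine mem_filter.2 ⟨mem_insert_self _ _, ?_⟩
      rw [erase_insert hy'A]
      exact hP'.wA.1.2.1.2
    · refine ⟨q, hP.wB.1.1 (mem_sdiff.1 hq).1, ?_⟩
      rintro G ⟨A, B, T, y, hP', h1, h2, hT, hy, rfl⟩
      rw [← h2, mem_sdiff] at hq
      intro hqG
      rw [mem_insert] at hqG
      rcases hqG with rfl | hqA
      · obtain ⟨T', hT'⟩ := hP'.wB.2
        have := (pair_eq hE hl hQ hP' hT hT').2.2
        exact Finset.disjoint_left.1 this hy hq.1
      · exact hq.2 hqA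
  obtain ⟨T, hT⟩ := hP.wA.2
  obtain ⟨y, hy⟩ := (uni_tight hT).2.1
  exact h3 (ct hE hs hF ⟨insert y A₁, A₁, B₁, T, y, hP, rfl, rfl, hT, hy, rfl⟩)

end Pool.Agent.CF98
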