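import Pool.Agent.CF98.StepOne
import Pool.Agent.CF98.StepTwo

/-!
The strict case.

* `strict_loopless`: `Env`, `Strict`, `2 ≤ |E|`: no loops in `E` (`{e} ≠ E`, `1 + 1 ≤ 3 r {e}`).
* `strict_thm`: if `f = 0` then `E = ∅`, `A = B`.  Otherwise `|E| ≥ 3`, no loops.  `step_one` for `Q`, `A` and for `¬ Q`, `B` (if `¬ Q B`; `¬ Q` is preserved by `Stp`
  because `Stp` is symmetric): `A'`, `B'` in `WW` (`Finset.card_eq_one`) with `Q A'`, `¬ Q B'`, contradicting `step_two`.
* `crit3_sun`: in the strict case three pairwise disjoint critical sets are flats: if `e ∈ E \ Z`, `r (insert e Z) = r Z`: `|insert e Z| = 3 r Z = 3 r (insert e Z)`,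
  so `insert e Z = E` by `Strict`, and the other two critical sets are contained in `E \ Z = {e}`, non-empty and disjoint: impossible.  So `Sun r E` with `T = ∅`.
-/

set_option autoImplicit false

namespace Pool.Agent.CF98

open Finset Pool.Agent.DT3

variable {α : Type*} [DecidableEq α] {r : Finset α → ℕ} {E A B : Finset α} {f : ℕ}
  {Q : Finset α → Prop}

private theorem StrictThm_loopless (hs : Strict r E) (h2 : 2 ≤ E.card) :
    ∀ e ∈ E, 0 < r {e} := by
  intro e he
  have h1 : ({e} : Finset α) ≠ E := by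
    intro h
    rw [← h, card_singleton] at h2
    omega
  have h3 := hs {e} (singleton_subset_iff.2 he) (singleton_nonempty e) h1
  rw [card_singleton] at h3
  omega

theorem crit3_sun (hE : Env r E f) (hs : Strict r E) (h : Crit3 r E) : Sun r E := by
  obtain ⟨Z, hZ, hd⟩ := h
  refine ⟨∅, Z, empty_subset E, ?_, fun i => ⟨⟨(hZ i).1, fun e he => ?_⟩, (hZ i).2⟩, fun i j hij => ?_⟩
  · rw [card_empty, hE.rk.empty]
  · by_contra hcon
    have he' := mem_sdiff.1 he
    have hmono := hE.rk.mono (Z i) (insert e (Z i)) (subset_insert e (Z i))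
    have hr : r (insert e (Z i)) = r (Z i) := by omega
    have hc : (insert e (Z i)).card = (Z i).card + 1 := card_insert_of_notMem he'.2
    have hEq : insert e (Z i) = E := by
      by_contra hne
      have h1 := hs (insert e (Z i)) (insert_subset he'.1 (hZ i).1) (insert_nonempty e (Z i)) hne
      have h2 := (hZ i).2
      omega
    obtain ⟨j, hj⟩ : ∃ j : Fin 3, i ≠ j := by
      by_cases h0 : i = 0
      · exact ⟨1, by rw [h0]; decide⟩
      · exact ⟨0, h0⟩
    have hsub : Z j ⊆ {e} := by
      intro x hx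
      have hxE := (hZ j).1 hx
      rw [← hEq, mem_insert] at hxE
      rcases hxE with h1 | h1
      · rw [h1]
        exact mem_singleton_self e
      · exact absurd hx (disjoint_left.1 (hd i j hj) h1)
    have h1 := card_le_card hsub
    rw [card_singleton] at h1
    have h2 := (hZ j).2
    omega
  · exact disjoint_iff_inter_eq_empty.1 (hd i j hij)

theorem strict_thm (hE : Env r E f) (hs : Strict r E) (h3 : ¬ Crit3 r E)
    (hQ : ∀ A A', Stp r E f A A' → Q A → Q A') (hA : Gd r E f A) (hB : Gd r E f B) (hQA : Q A) :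
    Q B := by
  rcases Nat.eq_zero_or_pos f with hf | hf
  · have hE0 : E = ∅ := by
      rw [← card_eq_zero, hE.card, hf]
    have hA0 : A = ∅ := subset_empty.1 (hE0 ▸ hA.1)
    have hB0 : B = ∅ := subset_empty.1 (hE0 ▸ hB.1)
    rw [hB0, ← hA0]
    exact hQA
  · have h2 : 2 ≤ E.card := by
      rw [hE.card]
      omega
    have hl := StrictThm_loopless hs h2
    by_contra hQB
    obtain ⟨A', hA', hQA', hA1⟩ := step_one hE hf hs h3 hQ hA hQA
    obtain ⟨B', hB', hQB', hB1⟩ := step_one (Q := fun X => ¬ Q X) hE hf hs h3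
      (fun X Y hXY hX hY => hX (hQ Y X (stp_symm hXY) hY)) hB hQB
    exact hQB' (step_two hE hs hl h3 hQ ⟨hA', card_eq_one.1 hA1⟩ ⟨hB', card_eq_one.1 hB1⟩ hQA')

end Pool.Agent.CF98
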