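import Pool.Agent.CF98.Rk0

/-!
Tight subsets (`|X| = 2 r X`) of a set `D` with `Two r D`.

* `ti_union`, `ti_inter`: `|X ∪ X'| + |X ∩ X'| = |X| + |X'| = 2 r X + 2 r X' ≥ 2 r (X ∪ X') + 2 r (X ∩ X') ≥ |X ∪ X'| + |X ∩ X'|`.
* `ti_max`: the union of all tight subsets is tight (or: a tight subset of maximal cardinality contains all others, by `ti_union`).
* `ti_least`: `D` tight, `b ∈ D`: there is a least tight subset containing `b` (one of minimal cardinality, `ti_inter`).
* `ti_closed`: a tight subset `X` of `D` is closed in `D`: `x ∈ D`, `r (insert x X) = r X` implies `x ∈ X` (otherwise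
  `|insert x X| = 2 r X + 1`).
* `two_insert`: `Two r Y`, `U ⊆ Y` contains all tight subsets of `Y`, `r (insert b U) ≠ r U`: then `Two r (insert b Y)`.  For
  `X ⊆ insert b Y` with `b ∈ X`, `X₀ = X.erase b`: `|X| = |X₀| + 1`; if `|X₀| < 2 r X₀` fine; if `X₀` is tight then `X₀ ⊆ U`, so
  `r (insert b X₀) ≠ r X₀` (`RankFn.mono_insert`), `|X| = 2 r X₀ + 1 ≤ 2 r X`.
* `mt_mem_iff`, `mt_ne`, `mt_disj`: membership in `MT r D`; two different members of `MT r D` are disjoint (`ti_inter`); `mt_exists`: every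
  non-empty tight subset contains a member of `MT r D` (one of minimal cardinality).
-/

set_option autoImplicit false

namespace Pool.Agent.CF98

open Finset Pool.Agent.DT3

variable {α : Type*} [DecidableEq α] {r : Finset α → ℕ} {D Y U X X' : Finset α} {b : α}

theorem ti_union (h : RankFn r) (hD : Two r D) (hX : X ⊆ D) (hX' : X' ⊆ D) (ht : X.card = 2 * r X)
    (ht' : X'.card = 2 * r X') : (X ∪ X').card = 2 * r (X ∪ X') := by
  have h1 := hD (X ∪ X') (union_subset hX hX')
  have h2 := hD (X ∩ X') (inter_subset_left.trans hX)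
  have h3 := h.submod X X'
  have h4 := card_union_add_card_inter X X'
  omega

theorem ti_inter (h : RankFn r) (hD : Two r D) (hX : X ⊆ D) (hX' : X' ⊆ D) (ht : X.card = 2 * r X)
    (ht' : X'.card = 2 * r X') : (X ∩ X').card = 2 * r (X ∩ X') := by
  have h1 := hD (X ∪ X') (union_subset hX hX')
  have h2 := hD (X ∩ X') (inter_subset_left.trans hX)
  have h3 := h.submod X X'
  have h4 := card_union_add_card_inter X X'
  omega

theorem ti_max (h : RankFn r) (hD : Two r D) :
    ∃ U ⊆ D, U.card = 2 * r U ∧ ∀ X ⊆ D, X.card = 2 * r X → X ⊆ U := by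
  classical
  have hne : (D.powerset.filter fun X => X.card = 2 * r X).Nonempty :=
    ⟨∅, by rw [mem_filter]; exact ⟨empty_mem_powerset D, by rw [card_empty, h.empty]⟩⟩
  obtain ⟨U, hU, hm⟩ := exists_max_image _ card hne
  rw [mem_filter, mem_powerset] at hU
  refine ⟨U, hU.1, hU.2, fun X hX ht => ?_⟩
  have h1 := ti_union h hD hU.1 hX hU.2 ht
  have h2 := hm (U ∪ X) (by rw [mem_filter, mem_powerset]; exact ⟨union_subset hU.1 hX, h1⟩)
  have h3 : U = U ∪ X := eq_of_subset_of_card_le subset_union_left h2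
  rw [h3]
  exact subset_union_right

theorem ti_least (h : RankFn r) (hD : Two r D) (ht : D.card = 2 * r D) (hb : b ∈ D) :
    ∃ X ⊆ D, X.card = 2 * r X ∧ b ∈ X ∧ ∀ X' ⊆ D, X'.card = 2 * r X' → b ∈ X' → X ⊆ X' := by
  classical
  have hne : (D.powerset.filter fun X => X.card = 2 * r X ∧ b ∈ X).Nonempty :=
    ⟨D, by rw [mem_filter]; exact ⟨mem_powerset_self D, ht, hb⟩⟩
  obtain ⟨X, hX, hm⟩ := exists_min_image _ card hne
  rw [mem_filter, mem_powerset] at hX
  refine ⟨X, hX.1, hX.2.1, hX.2.2, fun X' hX' ht' hb' => ?_⟩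
  have h1 := ti_inter h hD hX.1 hX' hX.2.1 ht'
  have h2 := hm (X ∩ X') (by
    rw [mem_filter, mem_powerset]
    exact ⟨inter_subset_left.trans hX.1, h1, mem_inter.2 ⟨hX.2.2, hb'⟩⟩)
  have h3 : X ∩ X' = X := eq_of_subset_of_card_le inter_subset_left h2
  rw [← h3]
  exact inter_subset_right

theorem ti_closed (h : RankFn r) (hD : Two r D) (hX : X ⊆ D) (ht : X.card = 2 * r X) (hb : b ∈ D)
    (hc : r (insert b X) = r X) : b ∈ X := by
  by_contra hbX
  have h1 := hD (insert b X) (insert_subset hb hX)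
  rw [card_insert_of_notMem hbX, hc] at h1
  omega

theorem two_insert (h : RankFn r) (hY : Two r Y) (hU : ∀ X ⊆ Y, X.card = 2 * r X → X ⊆ U)
    (hb : r (insert b U) ≠ r U) : Two r (insert b Y) := by
  intro X hX
  by_cases hbX : b ∈ X
  · have h0 : X.erase b ⊆ Y := by
      intro x hx
      rw [mem_erase] at hx
      rcases mem_insert.1 (hX hx.2) with h1 | h1
      · exact absurd h1 hx.1
      · exact h1
    have h1 := hY _ h0
    have h2 : insert b (X.erase b) = X := insert_erase hbX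
    have h3 : (X.erase b).card + 1 = X.card := card_erase_add_one hbX
    have h4 := h.mono (X.erase b) X (erase_subset b X)
    by_cases ht : (X.erase b).card = 2 * r (X.erase b)
    · have h5 := hU _ h0 ht
      have h6 : r (insert b (X.erase b)) ≠ r (X.erase b) := fun h7 => hb (h.mono_insert h7 h5)
      rw [h2] at h6
      omega
    · omega
  · apply hY
    intro x hx
    rcases mem_insert.1 (hX hx) with h1 | h1
    · exact absurd (h1 ▸ hx) hbX
    · exact h1

theorem mt_mem : X ∈ MT r D ↔ X ⊆ D ∧ X.Nonempty ∧ X.card = 2 * r X ∧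
    ∀ X' ⊆ X, X'.Nonempty → X'.card = 2 * r X' → X' = X := by
  unfold MT
  rw [mem_filter, mem_powerset]
  constructor
  · rintro ⟨h1, h2, h3, h4⟩
    exact ⟨h1, h2, h3, fun X' hX' => h4 X' (mem_powerset.2 hX')⟩
  · rintro ⟨h1, h2, h3, h4⟩
    exact ⟨h1, h2, h3, fun X' hX' => h4 X' (mem_powerset.1 hX')⟩

theorem mt_disj (h : RankFn r) (hD : Two r D) (hX : X ∈ MT r D) (hX' : X' ∈ MT r D) (hne : X ≠ X') :
    Disjoint X X' := by
  rw [mt_mem] at hX hX'
  have h1 := ti_inter h hD hX.1 hX'.1 hX.2.2.1 hX'.2.2.1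
  by_contra hd
  rw [disjoint_iff_inter_eq_empty] at hd
  have h2 := nonempty_iff_ne_empty.2 hd
  have h3 := hX.2.2.2 _ inter_subset_left h2 h1
  have h4 := hX'.2.2.2 _ inter_subset_right h2 h1
  exact hne (h3.symm.trans h4)

theorem mt_exists (hX : X ⊆ D) (hne : X.Nonempty) (ht : X.card = 2 * r X) :
    ∃ X' ∈ MT r D, X' ⊆ X := by
  classical
  have hn : (X.powerset.filter fun Z => Z.card = 2 * r Z ∧ Z.Nonempty).Nonempty :=
    ⟨X, by rw [mem_filter]; exact ⟨mem_powerset_self X, ht, hne⟩⟩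
  obtain ⟨Z, hZ, hm⟩ := exists_min_image _ card hn
  rw [mem_filter, mem_powerset] at hZ
  refine ⟨Z, ?_, hZ.1⟩
  rw [mt_mem]
  refine ⟨hZ.1.trans hX, hZ.2.2, hZ.2.1, fun W hW hWn hWt => ?_⟩
  have h1 := hm W (by rw [mem_filter, mem_powerset]; exact ⟨hW.trans hZ.1, hWt, hWn⟩)
  exact eq_of_subset_of_card_le hW h1

end Pool.Agent.CF98
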