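import Pool.Agent.CF98.Conn
import Pool.Agent.WD.Bridge

/-!
The ideal form.  Let `B`, `D` be triples of bases with the same content, connected by `ShareStep`.  Then the binomial is in the ideal generated by the quadrics of
the toric ideal.  (As in `WD.Bridge`, private lemmas `step_mem`, `chain_mem`, with `d = 2`, `m = 2`: for a step with `B i = D j` the difference is `X (B i)` times the
binomial of two pairs of bases with the same content, a quadric of the toric ideal by `WD.tuple_sub_mem`.)
`content_of_mem`: conversely, if the binomial of two tuples lies in the toric ideal then the tuples have the same content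
(`baseHom_monomial`, `expo_tuple`, `tuple_apply` of `H94.Toric`; see the proof of `tuple_sub_mem`: the images of the two monomials are monomials).
-/

set_option autoImplicit false

namespace Pool.Agent.CF98

open Finset MvPolynomial Pool.Agent.H94 Pool.Agent.WD

variable {α : Type*} [DecidableEq α] {K : Type*} [Field K]

private theorem count_succAbove3 {m : ℕ} (B : Fin (m + 1) → Finset α) (i : Fin (m + 1)) (z : α) :
    (univ.filter (fun k => z ∈ B k)).card =
      (if z ∈ B i then 1 else 0) + (univ.filter (fun k : Fin m => z ∈ B (i.succAbove k))).card := by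
  rw [card_filter, card_filter, Fin.sum_univ_succAbove _ i]

private theorem step_mem3 (M : Matroid α) (B D : Fin 3 → Bases M)
    (h : SameContent (fun k => (B k).1) (fun k => (D k).1)) {i j : Fin 3} (hij : B i = D j) :
    (∏ k, (X (B k) : MvPolynomial (Bases M) K)) - ∏ k, X (D k) ∈
      Ideal.span {g : MvPolynomial (Bases M) K | g ∈ toricIdeal K M ∧ g.IsHomogeneous 2} := by
  rw [Fin.prod_univ_succAbove _ i, Fin.prod_univ_succAbove (fun k => X (D k)) j, hij, ← mul_sub]
  refine Ideal.mul_mem_left _ _ (Ideal.subset_span ?_)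
  refine tuple_sub_mem (K := K) M (fun k : Fin 2 => B (i.succAbove k))
    (fun k : Fin 2 => D (j.succAbove k)) ?_
  intro z
  have h1 := h z
  rw [count_succAbove3 (fun k => (B k).1) i, count_succAbove3 (fun k => (D k).1) j] at h1
  simp only [hij] at h1
  exact Nat.add_left_cancel h1

private theorem chain_mem3 (M : Matroid α) {B D : Fin 3 → Finset α}
    (hs : Relation.ReflTransGen (ShareStep (fun S : Finset α => M.IsBase (S : Set α))) B D)
    (hB : ∀ k, M.IsBase (B k : Set α)) : ∀ hD : ∀ k, M.IsBase (D k : Set α),
    (∏ k, (X (⟨B k, hB k⟩ : Bases M) : MvPolynomial (Bases M) K)) -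
      ∏ k, X (⟨D k, hD k⟩ : Bases M) ∈
      Ideal.span {g : MvPolynomial (Bases M) K | g ∈ toricIdeal K M ∧ g.IsHomogeneous 2} := by
  induction hs with
  | refl => intro hD; rw [sub_self]; exact zero_mem _
  | tail h1 h2 ih2 =>
    intro hD
    obtain ⟨hP, hQ, hPQ, i, j, hij⟩ := h2
    have e1 := ih2 hP
    have e2 := step_mem3 (K := K) M (fun k => ⟨_, hP k⟩) (fun k => ⟨_, hD k⟩) hPQ
      (i := i) (j := j) (Subtype.ext hij)
    have := add_mem e1 e2
    rw [sub_add_sub_cancel] at this
    exact this

theorem quad_of_conn (M : Matroid α) (B D : Fin 3 → Bases M)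
    (h : Relation.ReflTransGen (ShareStep (fun S : Finset α => M.IsBase (S : Set α)))
      (fun k => (B k).1) (fun k => (D k).1)) :
    (∏ k, (X (B k) : MvPolynomial (Bases M) K)) - ∏ k, X (D k) ∈
      Ideal.span {g : MvPolynomial (Bases M) K | g ∈ toricIdeal K M ∧ g.IsHomogeneous 2} :=
  chain_mem3 (K := K) M h (fun k => (B k).2) (fun k => (D k).2)

theorem content_of_mem (M : Matroid α) {m : ℕ} (B D : Fin m → Bases M)
    (h : (∏ k, (X (B k) : MvPolynomial (Bases M) K)) - ∏ k, X (D k) ∈ toricIdeal K M) :
    SameContent (fun k => (B k).1) (fun k => (D k).1) := by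
  have hB : (∏ k, (X (B k) : MvPolynomial (Bases M) K)) =
      monomial (∑ k, Finsupp.single (B k) 1) 1 := by
    rw [monomial_sum_one]; rfl
  have hD : (∏ k, (X (D k) : MvPolynomial (Bases M) K)) =
      monomial (∑ k, Finsupp.single (D k) 1) 1 := by
    rw [monomial_sum_one]; rfl
  have h1 : baseHom K M ((∏ k, (X (B k) : MvPolynomial (Bases M) K)) - ∏ k, X (D k)) = 0 := h
  rw [map_sub, hB, hD, baseHom_monomial, baseHom_monomial, sub_eq_zero] at h1
  have h2 := monomial_left_injective (one_ne_zero : (1 : K) ≠ 0) h1
  rw [expo_tuple, expo_tuple] at h2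
  intro z
  change (univ.filter (fun k => z ∈ (B k).1)).card = (univ.filter (fun k => z ∈ (D k).1)).card
  rw [← tuple_apply, ← tuple_apply, h2]

end Pool.Agent.CF98
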